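import Pool.Agent.MP_ff6aad_an.Burger

set_option autoImplicit false

open scoped ComplexConjugate

namespace Pool.Agent.MP_ff6aad_an

namespace GapEq

variable {N : ℕ} [NeZero N]

/-- short name of the standard character -/
noncomputable abbrev ps (a : ZMod N) : ℂ := ZMod.stdAddChar a

lemma norm_ps (a : ZMod N) : ‖ps a‖ = 1 := by
  unfold ps
  rw [ZMod.stdAddChar_apply]
  exact Circle.norm_coe _

lemma ps_add (a b : ZMod N) : ps (a + b) = ps a * ps b := by
  unfold ps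
  exact AddChar.map_add_eq_mul _ _ _

lemma ps_neg (a : ZMod N) : ps (-a) = conj (ps a) := by
  have h : ps (-a) * ps a = 1 := by
    rw [← ps_add]; simp [ps]
  have h2 : conj (ps a) * ps a = 1 := by
    rw [mul_comm, Complex.mul_conj, Complex.normSq_eq_norm_sq, norm_ps]; simp
  have h3 : ps a ≠ 0 := by
    intro h0; have := norm_ps a; rw [h0] at this; simp at this
  exact mul_right_cancel₀ h3 (h.trans h2.symm)

lemma ps_zero : ps (0 : ZMod N) = 1 := by simp [ps]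

lemma sum_ps (b : ZMod N) : ∑ l : ZMod N, ps (l * b) = if b = 0 then (N : ℂ) else 0 := by
  unfold ps
  have := AddChar.sum_mulShift (R := ZMod N) (R' := ℂ) (ψ := ZMod.stdAddChar) b
    (ZMod.isPrimitive_stdAddChar N)
  rw [this]
  simp [ZMod.card]

lemma ps_eq_one {a : ZMod N} (h : ps a = 1) : a = 0 := by
  apply ZMod.injective_stdAddChar
  simpa [ps] using h

/-- one-dimensional Parseval -/
lemma parseval1 (g : ZMod N → ℂ) :
    ∑ b : ZMod N, ‖∑ l, g l * ps (-(b * l))‖ ^ 2 = N * ∑ l, ‖g l‖ ^ 2 := by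
  have key : ∑ b : ZMod N, (∑ l, g l * ps (-(b * l))) * conj (∑ l, g l * ps (-(b * l))) =
      (N : ℂ) * ∑ l, g l * conj (g l) := by
    have h1 : ∀ b : ZMod N, (∑ l, g l * ps (-(b * l))) * conj (∑ l, g l * ps (-(b * l))) =
        ∑ l, ∑ m, g l * conj (g m) * ps (b * (m - l)) := by
      intro b
      rw [map_sum, Finset.sum_mul_sum]
      refine Finset.sum_congr rfl fun l _ => Finset.sum_congr rfl fun m _ => ?_
      rw [map_mul, ← ps_neg, neg_neg]
      have : b * (m - l) = -(b * l) + b * m := by ring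
      rw [this, ps_add]; ring
    simp_rw [h1]
    rw [Finset.sum_comm]
    rw [Finset.mul_sum]
    refine Finset.sum_congr rfl fun l _ => ?_
    rw [Finset.sum_comm]
    simp_rw [← Finset.mul_sum, sum_ps, sub_eq_zero]
    simp only [mul_ite, mul_zero, Finset.sum_ite_eq', Finset.mem_univ, if_true]
    ring
  have h2 : ∀ z : ℂ, z * conj z = ((‖z‖ ^ 2 : ℝ) : ℂ) := by
    intro z; rw [Complex.mul_conj, Complex.normSq_eq_norm_sq]
  simp_rw [h2] at key
  have key2 : ((∑ b : ZMod N, ‖∑ l, g l * ps (-(b * l))‖ ^ 2 : ℝ) : ℂ) =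
      ((N * ∑ l, ‖g l‖ ^ 2 : ℝ) : ℂ) := by
    push_cast at key ⊢
    exact key
  exact_mod_cast key2

/-- the ambiguity transform -/
noncomputable def cc (y : ZMod N × ZMod N → ℂ) (p : ZMod N × ZMod N) : ℂ :=
  ∑ l, y (l + p.1, l) * ps (-(p.2 * l))

lemma cc_sub (y z : ZMod N × ZMod N → ℂ) (p : ZMod N × ZMod N) :
    cc (y - z) p = cc y p - cc z p := by
  simp [cc, sub_mul, Finset.sum_sub_distrib]

lemma parseval (y : ZMod N × ZMod N → ℂ) : ∑ p, ‖cc y p‖ ^ 2 = N * hs y := by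
  unfold hs
  rw [Fintype.sum_prod_type]
  have h1 : ∀ a : ZMod N, ∑ b, ‖cc y (a, b)‖ ^ 2 = N * ∑ l, ‖y (l + a, l)‖ ^ 2 := by
    intro a
    exact parseval1 (fun l => y (l + a, l))
  simp_rw [h1]
  rw [← Finset.mul_sum]
  congr 1
  rw [Finset.sum_comm, Fintype.sum_prod_type_right]
  refine Finset.sum_congr rfl fun l _ => ?_
  exact Equiv.sum_comp (Equiv.addLeft l) (fun a => ‖y (a, l)‖ ^ 2)

lemma cc_actX (y : ZMod N × ZMod N → ℂ) (p : ZMod N × ZMod N) :
    cc (actX N N y) p = ps (-p.2) * cc y p := by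
  unfold cc actX
  rw [Finset.mul_sum, ← Equiv.sum_comp (Equiv.addRight (1 : ZMod N))]
  refine Finset.sum_congr rfl fun l _ => ?_
  simp only [Equiv.coe_addRight, add_sub_cancel_right]
  have h1 : l + 1 + p.1 - 1 = l + p.1 := by ring
  have h2 : -(p.2 * (l + 1)) = -p.2 + -(p.2 * l) := by ring
  rw [h1, h2, ps_add]; ring

omit [NeZero N] in
lemma qq_add (hN : Odd N) (l a : ZMod N) : qq N (l + a) = qq N l + (qq N a + a * l) := by
  have h2 : (2 : ZMod N) * (2 : ZMod N)⁻¹ = 1 := by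
    have hc : Nat.Coprime 2 N := Nat.coprime_two_left.mpr hN
    exact_mod_cast ZMod.coe_mul_inv_eq_one (n := N) 2 hc
  unfold qq
  linear_combination (a * l) * h2

lemma cc_actT (hN : Odd N) (y : ZMod N × ZMod N → ℂ) (p : ZMod N × ZMod N) :
    cc (actT N N y) p = ps (qq N p.1) * cc y (p.1, p.2 - p.1) := by
  unfold cc actT tph
  rw [Finset.mul_sum]
  refine Finset.sum_congr rfl fun l _ => ?_
  change ps (qq N (l + p.1)) * conj (ps (qq N l)) * y (l + p.1, l) * ps (-(p.2 * l)) = _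
  rw [← ps_neg, qq_add hN]
  have h2 : -((p.2 - p.1) * l) = p.1 * l + -(p.2 * l) := by ring
  have h3 : ps (qq N l + (qq N p.1 + p.1 * l)) * ps (-qq N l) = ps (qq N p.1) * ps (p.1 * l) := by
    rw [← ps_add, ← ps_add]; congr 1; ring
  simp only
  rw [h2, ps_add (p.1 * l), h3]; ring

lemma cc_actS (y : ZMod N × ZMod N → ℂ) (p : ZMod N × ZMod N) :
    cc (actS N N y) p = ps (p.1 * p.2) * cc y (p.2, -p.1) := by
  have hN0 : (N : ℝ) ≠ 0 := by exact_mod_cast NeZero.ne N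
  have hN0' : (N : ℂ) ≠ 0 := by exact_mod_cast NeZero.ne N
  have hsq : ((1 / (√N * √N) : ℝ) : ℂ) = (N : ℂ)⁻¹ := by
    rw [Real.mul_self_sqrt (Nat.cast_nonneg N)]; push_cast; simp
  have h1 : cc (actS N N y) p = (N : ℂ)⁻¹ * ∑ l : ZMod N, ∑ r : ZMod N × ZMod N,
      y r * ps (p.1 * r.1) * ps (l * (r.1 - r.2 - p.2)) := by
    unfold cc actS
    rw [Finset.mul_sum]
    refine Finset.sum_congr rfl fun l _ => ?_
    rw [hsq, mul_assoc, Finset.sum_mul]
    congr 1
    refine Finset.sum_congr rfl fun r _ => ?_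
    change ps ((l + p.1) * r.1) * conj (ps (l * r.2)) * y r * ps (-(p.2 * l)) = _
    rw [← ps_neg]
    have : ps ((l + p.1) * r.1) * ps (-(l * r.2)) * ps (-(p.2 * l)) =
        ps (p.1 * r.1) * ps (l * (r.1 - r.2 - p.2)) := by
      rw [← ps_add, ← ps_add, ← ps_add]; congr 1; ring
    calc _ = y r * (ps ((l + p.1) * r.1) * ps (-(l * r.2)) * ps (-(p.2 * l))) := by ring
      _ = _ := by rw [this]; ring
  rw [h1, Finset.sum_comm, Fintype.sum_prod_type, Finset.sum_comm]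
  simp_rw [← Finset.mul_sum, sum_ps]
  have h2 : ∀ s : ZMod N, (∑ r, y (r, s) * ps (p.1 * r) * (if r - s - p.2 = 0 then (N : ℂ) else 0)) =
      N * (y (s + p.2, s) * ps (p.1 * (s + p.2))) := by
    intro s
    rw [Finset.sum_eq_single (s + p.2)]
    · rw [if_pos (by ring)]; ring
    · intro r _ hr
      rw [if_neg, mul_zero]
      intro h
      apply hr
      linear_combination h
    · intro h; exact absurd (Finset.mem_univ _) h
  simp_rw [h2]
  rw [← Finset.mul_sum, ← mul_assoc, inv_mul_cancel₀ hN0', one_mul]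
  unfold cc
  rw [Finset.mul_sum]
  refine Finset.sum_congr rfl fun s _ => ?_
  have : p.1 * (s + p.2) = p.1 * p.2 + -(-p.1 * s) := by ring
  simp only
  rw [this, ps_add]; ring

lemma cc_zero (y : ZMod N × ZMod N → ℂ) : cc y (0, 0) = ∑ j, y (j, j) := by
  simp [cc]

/-- difference of the squared moduli of two arrays -/
lemma sum_sq_diff_le {ι : Type*} [Fintype ι] (A B : ι → ℂ) (m e : ℝ) (hm : 0 ≤ m) (he : 0 ≤ e)
    (hA : ∑ i, ‖A i‖ ^ 2 = m) (hB : ∑ i, ‖B i‖ ^ 2 = m)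
    (hAB : ∑ i, ‖A i - B i‖ ^ 2 ≤ e ^ 2 * m) :
    ∑ i, |‖A i‖ ^ 2 - ‖B i‖ ^ 2| ≤ 2 * e * m := by
  have h1 : ∀ i, |‖A i‖ ^ 2 - ‖B i‖ ^ 2| ≤ ‖A i - B i‖ * (‖A i‖ + ‖B i‖) := by
    intro i
    have h2 : ‖A i‖ ^ 2 - ‖B i‖ ^ 2 = (‖A i‖ - ‖B i‖) * (‖A i‖ + ‖B i‖) := by ring
    rw [h2, abs_mul, abs_of_nonneg (add_nonneg (norm_nonneg (A i)) (norm_nonneg (B i)))]
    exact mul_le_mul_of_nonneg_right (abs_norm_sub_norm_le _ _) (by positivity)
  have h3 : ∑ i, ‖A i - B i‖ * (‖A i‖ + ‖B i‖) ≤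
      √(∑ i, ‖A i - B i‖ ^ 2) * √(∑ i, (‖A i‖ + ‖B i‖) ^ 2) :=
    Real.sum_mul_le_sqrt_mul_sqrt _ _ _
  have h4 : ∑ i, (‖A i‖ + ‖B i‖) ^ 2 ≤ 4 * m := by
    have : ∀ i, (‖A i‖ + ‖B i‖) ^ 2 ≤ 2 * ‖A i‖ ^ 2 + 2 * ‖B i‖ ^ 2 := by
      intro i; nlinarith [sq_nonneg (‖A i‖ - ‖B i‖)]
    calc ∑ i, (‖A i‖ + ‖B i‖) ^ 2 ≤ ∑ i, (2 * ‖A i‖ ^ 2 + 2 * ‖B i‖ ^ 2) :=
          Finset.sum_le_sum fun i _ => this i
      _ = 4 * m := by rw [Finset.sum_add_distrib, ← Finset.mul_sum, ← Finset.mul_sum, hA, hB]; ring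
  have h5 : √(∑ i, ‖A i - B i‖ ^ 2) ≤ e * √m := by
    rw [show e * √m = √(e ^ 2 * m) by rw [Real.sqrt_mul (by positivity), Real.sqrt_sq he]]
    exact Real.sqrt_le_sqrt hAB
  have h6 : √(∑ i, (‖A i‖ + ‖B i‖) ^ 2) ≤ 2 * √m := by
    rw [show 2 * √m = √(4 * m) by
      rw [Real.sqrt_mul (by norm_num), show (4 : ℝ) = 2 ^ 2 by norm_num,
        Real.sqrt_sq (by norm_num)]]
    exact Real.sqrt_le_sqrt h4
  calc ∑ i, |‖A i‖ ^ 2 - ‖B i‖ ^ 2| ≤ ∑ i, ‖A i - B i‖ * (‖A i‖ + ‖B i‖) :=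
        Finset.sum_le_sum fun i _ => h1 i
    _ ≤ _ := h3
    _ ≤ (e * √m) * (2 * √m) := mul_le_mul h5 h6 (Real.sqrt_nonneg _) (by positivity)
    _ = 2 * e * (√m * √m) := by ring
    _ = 2 * e * m := by rw [Real.mul_self_sqrt hm]

/-- `(a, b) ↦ (a, a + b)` -/
def tauE : Equiv.Perm (ZMod N × ZMod N) where
  toFun p := (p.1, p.1 + p.2)
  invFun p := (p.1, p.2 - p.1)
  left_inv p := by simp
  right_inv p := by simp

/-- `(a, b) ↦ (-b, a)` -/
def sigE : Equiv.Perm (ZMod N × ZMod N) where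
  toFun p := (-p.2, p.1)
  invFun p := (p.2, -p.1)
  left_inv p := by simp
  right_inv p := by simp

lemma hs_nonneg {α : Type*} [Fintype α] (x : α → ℂ) : 0 ≤ hs x :=
  Finset.sum_nonneg fun _ _ => by positivity

/-- the trace zero case -/
lemma gap_trace_zero (hN : Odd N) (y : ZMod N × ZMod N → ℂ) (h0 : ∑ j, y (j, j) = 0) :
    (1 / 10000) * hs y ≤
      hs (actX N N y - y) + hs (actT N N y - y) + hs (actS N N y - y) := by
  by_contra hcon
  push Not at hcon
  have hm : 0 < hs y := by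
    by_contra h
    have h1 : hs y = 0 := le_antisymm (not_lt.mp h) (hs_nonneg y)
    rw [h1, mul_zero] at hcon
    have := hs_nonneg (actX N N y - y)
    have := hs_nonneg (actT N N y - y)
    have := hs_nonneg (actS N N y - y)
    linarith
  have hX : hs (actX N N y - y) ≤ (1 / 100) ^ 2 * hs y := by
    have := hs_nonneg (actT N N y - y)
    have := hs_nonneg (actS N N y - y)
    norm_num; linarith
  have hT : hs (actT N N y - y) ≤ (1 / 100) ^ 2 * hs y := by
    have := hs_nonneg (actX N N y - y)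
    have := hs_nonneg (actS N N y - y)
    norm_num; linarith
  have hS : hs (actS N N y - y) ≤ (1 / 100) ^ 2 * hs y := by
    have := hs_nonneg (actX N N y - y)
    have := hs_nonneg (actT N N y - y)
    norm_num; linarith
  have hNpos : (0 : ℝ) < N := by exact_mod_cast Nat.pos_of_ne_zero (NeZero.ne N)
  have hsum := parseval y
  -- the T term
  have hT1 : ∑ p : ZMod N × ZMod N, |‖cc y (p.1, p.2 - p.1)‖ ^ 2 - ‖cc y p‖ ^ 2| ≤
      2 * (1 / 100) * (N * hs y) := by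
    have h1 : ∑ p : ZMod N × ZMod N, |‖cc (actT N N y) p‖ ^ 2 - ‖cc y p‖ ^ 2| ≤
        2 * (1 / 100) * (N * hs y) := by
      apply sum_sq_diff_le
      · positivity
      · norm_num
      · have : ∀ p : ZMod N × ZMod N, ‖cc (actT N N y) p‖ ^ 2 = ‖cc y (tauE.symm p)‖ ^ 2 := by
          intro p
          rw [cc_actT hN, norm_mul, norm_ps, one_mul]; rfl
        simp_rw [this]
        rw [Equiv.sum_comp tauE.symm (fun p => ‖cc y p‖ ^ 2), hsum]
      · exact hsum
      · simp_rw [← cc_sub]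
        rw [parseval]
        nlinarith
    refine le_of_eq_of_le (Finset.sum_congr rfl fun p _ => ?_) h1
    rw [cc_actT hN, norm_mul, norm_ps, one_mul]
  have hS1 : ∑ p : ZMod N × ZMod N, |‖cc y (p.2, -p.1)‖ ^ 2 - ‖cc y p‖ ^ 2| ≤
      2 * (1 / 100) * (N * hs y) := by
    have h1 : ∑ p : ZMod N × ZMod N, |‖cc (actS N N y) p‖ ^ 2 - ‖cc y p‖ ^ 2| ≤
        2 * (1 / 100) * (N * hs y) := by
      apply sum_sq_diff_le
      · positivity
      · norm_num
      · have : ∀ p : ZMod N × ZMod N, ‖cc (actS N N y) p‖ ^ 2 = ‖cc y (sigE.symm p)‖ ^ 2 := by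
          intro p
          rw [cc_actS, norm_mul, norm_ps, one_mul]; rfl
        simp_rw [this]
        rw [Equiv.sum_comp sigE.symm (fun p => ‖cc y p‖ ^ 2), hsum]
      · exact hsum
      · simp_rw [← cc_sub]
        rw [parseval]
        nlinarith
    refine le_of_eq_of_le (Finset.sum_congr rfl fun p _ => ?_) h1
    rw [cc_actS, norm_mul, norm_ps, one_mul]
  have hX1 : ∑ p : ZMod N × ZMod N, ‖cc y p‖ ^ 2 * ‖ps p.2 - 1‖ ^ 2 ≤
      (1 / 100) ^ 2 * (N * hs y) := by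
    have h1 : ∑ p : ZMod N × ZMod N, ‖cc (actX N N y - y) p‖ ^ 2 ≤
        (1 / 100) ^ 2 * (N * hs y) := by
      rw [parseval]; nlinarith
    refine le_of_eq_of_le (Finset.sum_congr rfl fun p _ => ?_) h1
    rw [cc_sub, cc_actX, ← sub_one_mul, norm_mul, mul_pow, mul_comm]
    congr 2
    have h9 : ps (-p.2) - 1 = conj (ps p.2 - 1) := by rw [ps_neg, map_sub, map_one]
    rw [h9, RCLike.norm_conj]
  have hb := burger (tauE (N := N)) sigE (fun p => ‖cc y p‖ ^ 2 / N)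
    (fun p => by positivity) (fun p => ps p.1) (fun p => ps p.2)
    (fun p => norm_ps _) (fun p => norm_ps _) (fun p => rfl)
    (fun p => by change ps (p.1 + p.2) = _; rw [ps_add])
    (fun p => by change ps (-p.2) = _; rw [ps_neg]) (fun p => rfl)
    (2 * (1 / 100) * hs y) ((1 / 100) ^ 2 * hs y) ?_ ?_ ?_
  · have hz : ∑ ω : ZMod N × ZMod N, (if ps ω.1 = 1 ∧ ps ω.2 = 1 then 0 else ‖cc y ω‖ ^ 2 / N) =
        hs y := by
      have h1 : ∀ ω : ZMod N × ZMod N,
          (if ps ω.1 = 1 ∧ ps ω.2 = 1 then 0 else ‖cc y ω‖ ^ 2 / N) = ‖cc y ω‖ ^ 2 / N := by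
        intro ω
        split_ifs with h
        · have : ω = (0, 0) := Prod.ext (ps_eq_one h.1) (ps_eq_one h.2)
          rw [this, cc_zero, h0]; simp
        · rfl
      simp_rw [h1]
      rw [← Finset.sum_div, hsum]
      field_simp
    rw [hz] at hb
    nlinarith
  · rw [← Equiv.sum_comp tauE.symm]
    have : ∀ p : ZMod N × ZMod N,
        |‖cc y (tauE (tauE.symm p))‖ ^ 2 / N - ‖cc y (tauE.symm p)‖ ^ 2 / N| =
        |‖cc y (p.1, p.2 - p.1)‖ ^ 2 - ‖cc y p‖ ^ 2| / N := by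
      intro p
      rw [Equiv.apply_symm_apply, ← sub_div, abs_div, abs_sub_comm,
        abs_of_pos hNpos]
      rfl
    simp_rw [this]
    rw [← Finset.sum_div, div_le_iff₀ hNpos]
    linarith
  · rw [← Equiv.sum_comp sigE.symm]
    have : ∀ p : ZMod N × ZMod N,
        |‖cc y (sigE (sigE.symm p))‖ ^ 2 / N - ‖cc y (sigE.symm p)‖ ^ 2 / N| =
        |‖cc y (p.2, -p.1)‖ ^ 2 - ‖cc y p‖ ^ 2| / N := by
      intro p
      rw [Equiv.apply_symm_apply, ← sub_div, abs_div, abs_sub_comm,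
        abs_of_pos hNpos]
      rfl
    simp_rw [this]
    rw [← Finset.sum_div, div_le_iff₀ hNpos]
    linarith
  · have : ∀ p : ZMod N × ZMod N,
        ‖cc y p‖ ^ 2 / N * ‖ps p.2 - 1‖ ^ 2 = ‖cc y p‖ ^ 2 * ‖ps p.2 - 1‖ ^ 2 / N := by
      intro p; ring
    simp_rw [this]
    rw [← Finset.sum_div, div_le_iff₀ hNpos]
    linarith

/-- the identity array -/
def idA : ZMod N × ZMod N → ℂ := fun p => if p.1 = p.2 then 1 else 0

omit [NeZero N] in
lemma actX_sub (x y : ZMod N × ZMod N → ℂ) : actX N N (x - y) = actX N N x - actX N N y := by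
  ext p; simp [actX]

omit [NeZero N] in
lemma actX_smul (c : ℂ) (x : ZMod N × ZMod N → ℂ) : actX N N (c • x) = c • actX N N x := by
  ext p; simp [actX]

lemma actT_sub (x y : ZMod N × ZMod N → ℂ) : actT N N (x - y) = actT N N x - actT N N y := by
  ext p; simp [actT, mul_sub]

lemma actT_smul (c : ℂ) (x : ZMod N × ZMod N → ℂ) : actT N N (c • x) = c • actT N N x := by
  ext p; simp [actT]; ring

lemma actS_sub (x y : ZMod N × ZMod N → ℂ) : actS N N (x - y) = actS N N x - actS N N y := by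
  ext p; simp [actS, mul_sub, Finset.sum_sub_distrib]

lemma actS_smul (c : ℂ) (x : ZMod N × ZMod N → ℂ) : actS N N (c • x) = c • actS N N x := by
  ext p
  simp only [actS, Pi.smul_apply, smul_eq_mul, Finset.mul_sum]
  refine Finset.sum_congr rfl fun r _ => ?_
  ring

omit [NeZero N] in
lemma actX_id : actX N N (idA (N := N)) = idA := by
  ext p; simp [actX, idA]

lemma actT_id : actT N N (idA (N := N)) = idA := by
  ext p
  simp only [actT, idA, mul_ite, mul_one, mul_zero]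
  split_ifs with h
  · rw [h]
    change ps (qq N p.2) * conj (ps (qq N p.2)) = 1
    rw [Complex.mul_conj, Complex.normSq_eq_norm_sq, norm_ps]; simp
  · rfl

lemma actS_id : actS N N (idA (N := N)) = idA := by
  have hN0' : (N : ℂ) ≠ 0 := by exact_mod_cast NeZero.ne N
  have hsq : ((1 / (√N * √N) : ℝ) : ℂ) = (N : ℂ)⁻¹ := by
    rw [Real.mul_self_sqrt (Nat.cast_nonneg N)]; push_cast; simp
  ext p
  have h1 : ∀ r : ZMod N, (∑ s : ZMod N, (ZMod.stdAddChar (p.1 * r) : ℂ) *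
      conj (ZMod.stdAddChar (p.2 * s) : ℂ) * idA (r, s)) = ps (r * (p.1 - p.2)) := by
    intro r
    simp only [idA, mul_ite, mul_one, mul_zero, Finset.sum_ite_eq, Finset.mem_univ, if_true]
    change ps (p.1 * r) * conj (ps (p.2 * r)) = _
    rw [← ps_neg, ← ps_add]; congr 1; ring
  have h2 : actS N N (idA (N := N)) p = (N : ℂ)⁻¹ * ∑ r : ZMod N, ps (r * (p.1 - p.2)) := by
    unfold actS
    rw [hsq, Fintype.sum_prod_type]
    congr 1
    exact Finset.sum_congr rfl fun r _ => h1 r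
  rw [h2, sum_ps]
  simp only [sub_eq_zero, idA]
  split_ifs
  · exact inv_mul_cancel₀ hN0'
  · simp

lemma hs_sub_trace (x : ZMod N × ZMod N → ℂ) :
    hs (x - ((∑ j, x (j, j)) / N) • (idA : ZMod N × ZMod N → ℂ)) = hs x - ‖∑ j, x (j, j)‖ ^ 2 / N := by
  have hN0 : (N : ℝ) ≠ 0 := by exact_mod_cast NeZero.ne N
  have hN0' : (N : ℂ) ≠ 0 := by exact_mod_cast NeZero.ne N
  set t : ℂ := ∑ j, x (j, j) with ht
  have h1 : ∀ p : ZMod N × ZMod N, ‖(x - (t / N) • (idA : ZMod N × ZMod N → ℂ)) p‖ ^ 2 =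
      ‖x p‖ ^ 2 + (if p.1 = p.2 then (‖t / N‖ ^ 2 - 2 * (x p * conj (t / N)).re) else 0) := by
    intro p
    simp only [Pi.sub_apply, Pi.smul_apply, smul_eq_mul, idA, mul_ite, mul_one, mul_zero]
    split_ifs with h
    · rw [← Complex.normSq_eq_norm_sq, ← Complex.normSq_eq_norm_sq, ← Complex.normSq_eq_norm_sq,
        Complex.normSq_sub]; ring
    · simp
  unfold hs
  simp_rw [h1]
  rw [Finset.sum_add_distrib]
  have h2 : ∑ p : ZMod N × ZMod N,
      (if p.1 = p.2 then (‖t / N‖ ^ 2 - 2 * (x p * conj (t / N)).re) else 0) =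
      - (‖t‖ ^ 2 / N) := by
    rw [Fintype.sum_prod_type]
    simp only [Finset.sum_ite_eq, Finset.mem_univ, if_true]
    rw [Finset.sum_sub_distrib, ← Finset.mul_sum, ← Complex.re_sum, ← Finset.sum_mul, ← ht]
    simp only [Finset.sum_const, Finset.card_univ, ZMod.card, nsmul_eq_mul]
    have h3 : t * conj (t / N) = ((‖t‖ ^ 2 / N : ℝ) : ℂ) := by
      rw [map_div₀, Complex.conj_natCast, ← mul_div_assoc, Complex.mul_conj,
        Complex.normSq_eq_norm_sq]
      push_cast; ring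
    rw [h3, Complex.ofReal_re, norm_div, Complex.norm_natCast]
    field_simp
    ring
  rw [h2]; ring

lemma trace_sub (x : ZMod N × ZMod N → ℂ) :
    ∑ j, (x - ((∑ j, x (j, j)) / N) • (idA : ZMod N × ZMod N → ℂ)) (j, j) = 0 := by
  have hN0' : (N : ℂ) ≠ 0 := by exact_mod_cast NeZero.ne N
  simp only [Pi.sub_apply, Pi.smul_apply, smul_eq_mul, idA, if_true, mul_one,
    Finset.sum_sub_distrib, Finset.sum_const, Finset.card_univ, ZMod.card, nsmul_eq_mul]
  field_simp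
  simp

end GapEq

/-- Task G2.  Uniform gap for the diagonal blocks.

Proof.  First subtract the scalar part: with `y = x - (tr x / N) 1` (`1` is fixed by the three
actions, `hs y = hs x - |tr x|²/N`) one may assume `tr x = 0` and has to show
`(1/10000) hs y ≤ ...`.
Let `c y (a,b) = ∑ l, y (l+a, l) * ψ (-(b l))`, `a b : ZMod N`.  Parseval: `∑ |c y|² = N hs y`.
`c (actX y) (a,b) = ψ(-b) c y (a,b)`, `|c (actT y) (a,b)| = |c y (a,b-a)|`
(`q (l+a) - q l = q a + a l`), `|c (actS y) (a,b)| = |c y (b,-a)|`, `c y (0,0) = tr y = 0`.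
If the claim fails then each of the three terms is `< ε² hs y`, `ε = 1/100`; for
`f = |c y|²/N` (total mass `hs y`): `∑ |f∘τ^{±1} - f| ≤ 2 ε hs y`, same for `σ`,
`∑ f (a,b) |ψ b - 1|² ≤ ε² hs y`.
`burger` with `Ω = ZMod N × ZMod N`, `u = ψ a`, `v = ψ b` (`ψ` is injective) gives
`hs y = f (off (0,0)) ≤ (20 ε + 2 ε²) hs y < hs y`, contradiction unless `hs y = 0`. -/
theorem gap_eq (N : ℕ) [NeZero N] (hN : Odd N) (x : ZMod N × ZMod N → ℂ) :
    (1 / 10000) * (hs x - ‖∑ j, x (j, j)‖ ^ 2 / N) ≤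
      hs (actX N N x - x) + hs (actT N N x - x) + hs (actS N N x - x) := by
  have h := GapEq.gap_trace_zero hN (x - ((∑ j, x (j, j)) / N) • GapEq.idA) (GapEq.trace_sub x)
  rw [GapEq.hs_sub_trace, GapEq.actX_sub, GapEq.actT_sub, GapEq.actS_sub, GapEq.actX_smul,
    GapEq.actT_smul, GapEq.actS_smul, GapEq.actX_id, GapEq.actT_id, GapEq.actS_id,
    sub_sub_sub_cancel_right, sub_sub_sub_cancel_right, sub_sub_sub_cancel_right] at h
  exact h

end Pool.Agent.MP_ff6aad_an
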