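import Pool.Agent.MP_ff6aad_an.Burger

set_option autoImplicit false
set_option linter.unusedSectionVars false

open scoped ComplexConjugate

namespace Pool.Agent.MP_ff6aad_an

namespace GapNe

/-! ### Elementary `ℓ²` facts -/

section ltwo

variable {α : Type*} [Fintype α]

lemma hs_nonneg (x : α → ℂ) : 0 ≤ hs x := Finset.sum_nonneg fun _ _ => by positivity

lemma cs (A B : α → ℂ) : ∑ i, ‖A i‖ * ‖B i‖ ≤ √(hs A) * √(hs B) :=
  Real.sum_mul_le_sqrt_mul_sqrt _ _ _

lemma sqrt_hs_add_le (A B : α → ℂ) : √(hs (A + B)) ≤ √(hs A) + √(hs B) := by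
  apply Real.sqrt_le_iff.mpr
  refine ⟨by positivity, ?_⟩
  have h1 : hs (A + B) ≤ ∑ i, (‖A i‖ + ‖B i‖) ^ 2 := by
    unfold hs
    refine Finset.sum_le_sum fun i _ => ?_
    have := norm_add_le (A i) (B i)
    simp only [Pi.add_apply]
    gcongr
  have h2 : ∑ i, (‖A i‖ + ‖B i‖) ^ 2 = hs A + 2 * ∑ i, ‖A i‖ * ‖B i‖ + hs B := by
    unfold hs
    rw [Finset.mul_sum, ← Finset.sum_add_distrib, ← Finset.sum_add_distrib]
    exact Finset.sum_congr rfl fun i _ => by ring
  have h3 := cs A B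
  have h4 := Real.sq_sqrt (hs_nonneg A)
  have h5 := Real.sq_sqrt (hs_nonneg B)
  nlinarith

lemma sum_abs_sub_sq_le (A B : α → ℂ) :
    ∑ i, |‖A i‖ ^ 2 - ‖B i‖ ^ 2| ≤ √(hs (A - B)) * (√(hs A) + √(hs B)) := by
  have h1 : ∑ i, |‖A i‖ ^ 2 - ‖B i‖ ^ 2| ≤
      ∑ i, ‖(A - B) i‖ * ‖A i‖ + ∑ i, ‖(A - B) i‖ * ‖B i‖ := by
    rw [← Finset.sum_add_distrib]
    refine Finset.sum_le_sum fun i _ => ?_
    have h2 : ‖A i‖ ^ 2 - ‖B i‖ ^ 2 = (‖A i‖ - ‖B i‖) * (‖A i‖ + ‖B i‖) := by ring
    rw [h2, abs_mul, abs_of_nonneg (by positivity : (0 : ℝ) ≤ ‖A i‖ + ‖B i‖), ← mul_add]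
    apply mul_le_mul_of_nonneg_right _ (by positivity)
    exact abs_norm_sub_norm_le _ _
  have h2 := cs (A - B) A
  have h3 := cs (A - B) B
  rw [mul_add]
  linarith

end ltwo

/-! ### The ambiguity function over a finite ring -/

section ring

variable {R : Type*} [CommRing R] [Fintype R] [DecidableEq R] (χ : AddChar R ℂ)

/-- The ambiguity function. -/
noncomputable def FF (y z : R → ℂ) (p : R × R) : ℂ :=
  ∑ l, conj (y (l + p.1)) * z l * χ (p.2 * l)

lemma normSq_eq (z : ℂ) : ((‖z‖ ^ 2 : ℝ) : ℂ) = conj z * z := by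
  rw [Complex.conj_mul']; push_cast; ring

lemma parseval1 (hχ : ∀ h : R, ∑ g, χ (g * h) = if h = 0 then (Fintype.card R : ℂ) else 0)
    (w : R → ℂ) :
    ∑ b, ‖∑ l, w l * χ (b * l)‖ ^ 2 = Fintype.card R * hs w := by
  have h : ((∑ b, ‖∑ l, w l * χ (b * l)‖ ^ 2 : ℝ) : ℂ) = ((Fintype.card R * hs w : ℝ) : ℂ) := by
    unfold hs
    push_cast
    have h1 : ∀ b, ((‖∑ l, w l * χ (b * l)‖ : ℂ)) ^ 2 =
        ∑ l, ∑ l', conj (w l) * w l' * χ (b * (l' - l)) := by
      intro b
      have := normSq_eq (∑ l, w l * χ (b * l))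
      push_cast at this
      rw [this, map_sum, Finset.sum_mul_sum]
      refine Finset.sum_congr rfl fun l _ => Finset.sum_congr rfl fun l' _ => ?_
      have h2 : χ (b * (l' - l)) = conj (χ (b * l)) * χ (b * l') := by
        rw [← AddChar.map_neg_eq_conj, ← AddChar.map_add_eq_mul]
        congr 1; ring
      rw [h2, map_mul]
      ring
    simp_rw [h1]
    rw [Finset.sum_comm]
    rw [Finset.mul_sum]
    refine Finset.sum_congr rfl fun l _ => ?_
    rw [Finset.sum_comm]
    have h3 : ∀ l', ∑ b, conj (w l) * w l' * χ (b * (l' - l)) =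
        if l' = l then (Fintype.card R : ℂ) * (conj (w l) * w l) else 0 := by
      intro l'
      rw [← Finset.mul_sum, hχ]
      by_cases h : l' = l
      · subst h; simp; ring
      · rw [if_neg h, if_neg (sub_ne_zero.mpr h), mul_zero]
    simp_rw [h3]
    rw [Finset.sum_ite_eq' Finset.univ l, if_pos (Finset.mem_univ l)]
    have := normSq_eq (w l)
    push_cast at this
    rw [this]
  exact_mod_cast h

lemma parseval (hχ : ∀ h : R, ∑ g, χ (g * h) = if h = 0 then (Fintype.card R : ℂ) else 0)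
    (y z : R → ℂ) : hs (FF χ y z) = Fintype.card R * (hs y * hs z) := by
  unfold hs
  rw [Fintype.sum_prod_type]
  have h1 : ∀ a, ∑ b, ‖FF χ y z (a, b)‖ ^ 2 =
      Fintype.card R * ∑ l, ‖y (l + a)‖ ^ 2 * ‖z l‖ ^ 2 := by
    intro a
    have := parseval1 χ hχ (fun l => conj (y (l + a)) * z l)
    unfold FF
    rw [this]
    unfold hs
    congr 1
    refine Finset.sum_congr rfl fun l _ => ?_
    rw [norm_mul, RCLike.norm_conj, mul_pow]
  simp_rw [h1]
  rw [← Finset.mul_sum, Finset.sum_comm]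
  congr 1
  rw [Finset.mul_sum]
  refine Finset.sum_congr rfl fun l _ => ?_
  rw [← Finset.sum_mul]
  congr 1
  exact Equiv.sum_comp (Equiv.addLeft l) (fun a => ‖y a‖ ^ 2)

lemma norm_FF_le (x : R → ℂ) (p : R × R) : ‖FF χ x x p‖ ≤ hs x := by
  unfold FF
  refine (norm_sum_le _ _).trans ?_
  have h1 : ∀ l, ‖conj (x (l + p.1)) * x l * χ (p.2 * l)‖ = ‖x (l + p.1)‖ * ‖x l‖ := by
    intro l
    rw [norm_mul, norm_mul, RCLike.norm_conj, AddChar.norm_apply, mul_one]
  simp_rw [h1]
  have h2 := cs (fun l => x (l + p.1)) x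
  have h3 : hs (fun l => x (l + p.1)) = hs x :=
    Equiv.sum_comp (Equiv.addRight p.1) (fun a => ‖x a‖ ^ 2)
  rw [h3, Real.mul_self_sqrt (hs_nonneg x)] at h2
  exact h2

lemma FF_sub (x x' : R → ℂ) :
    FF χ x' x' - FF χ x x = FF χ (x' - x) x' + FF χ x (x' - x) := by
  funext p
  simp only [FF, Pi.sub_apply, Pi.add_apply, map_sub]
  rw [← Finset.sum_sub_distrib, ← Finset.sum_add_distrib]
  exact Finset.sum_congr rfl fun l _ => by ring

/-- The difference of the ambiguity functions is small. -/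
lemma diff_le (hχ : ∀ h : R, ∑ g, χ (g * h) = if h = 0 then (Fintype.card R : ℂ) else 0)
    {x x' : R → ℂ} (h1 : hs x' = hs x) (h2 : hs (x' - x) ≤ (1 / 10000) * hs x) :
    √(hs (FF χ x' x' - FF χ x x)) ≤ (1 / 50) * √(Fintype.card R) * hs x := by
  rw [FF_sub]
  refine (sqrt_hs_add_le _ _).trans ?_
  rw [parseval χ hχ, parseval χ hχ, h1, mul_comm (hs (x' - x)) (hs x)]
  have h3 : √(hs (x' - x)) ≤ (1 / 100) * √(hs x) := by
    rw [Real.sqrt_le_iff]
    refine ⟨by positivity, ?_⟩
    rw [mul_pow, Real.sq_sqrt (hs_nonneg x)]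
    linarith
  have h4 : √(Fintype.card R * (hs x * hs (x' - x))) ≤ (1 / 100) * √(Fintype.card R) * hs x := by
    rw [Real.sqrt_mul (by positivity), Real.sqrt_mul (hs_nonneg x)]
    have h5 : √(hs x) * √(hs (x' - x)) ≤ (1 / 100) * hs x := by
      calc √(hs x) * √(hs (x' - x)) ≤ √(hs x) * ((1 / 100) * √(hs x)) := by gcongr
        _ = (1 / 100) * hs x := by
          rw [mul_left_comm, Real.mul_self_sqrt (hs_nonneg x)]
    calc √(Fintype.card R) * (√(hs x) * √(hs (x' - x)))
        ≤ √(Fintype.card R) * ((1 / 100) * hs x) := by gcongr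
      _ = _ := by ring
  linarith

/-- The mass. -/
noncomputable def mass (x : R → ℂ) (p : R × R) : ℝ := ‖FF χ x x p‖ ^ 2 / Fintype.card R

lemma mass_nonneg (x : R → ℂ) (p : R × R) : 0 ≤ mass χ x p := by
  unfold mass; positivity

lemma card_pos' : (0 : ℝ) < Fintype.card R := by
  have : 0 < Fintype.card R := Fintype.card_pos
  exact_mod_cast this

lemma sum_mass (hχ : ∀ h : R, ∑ g, χ (g * h) = if h = 0 then (Fintype.card R : ℂ) else 0)
    (x : R → ℂ) : ∑ p, mass χ x p = hs x ^ 2 := by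
  have h := parseval χ hχ x x
  unfold mass
  rw [← Finset.sum_div]
  change hs (FF χ x x) / _ = _
  rw [h]
  have := card_pos' (R := R)
  field_simp

/-- Almost invariance of the mass. -/
lemma mass_diff (hχ : ∀ h : R, ∑ g, χ (g * h) = if h = 0 then (Fintype.card R : ℂ) else 0)
    {x x' : R → ℂ} (h1 : hs x' = hs x) (h2 : hs (x' - x) ≤ (1 / 10000) * hs x)
    (τ : Equiv.Perm (R × R)) (hτ : ∀ p, ‖FF χ x' x' (τ p)‖ = ‖FF χ x x p‖) :
    ∑ p, |mass χ x (τ p) - mass χ x p| ≤ (1 / 25) * hs x ^ 2 := by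
  have h3 := diff_le χ hχ h1 h2
  have h4 := sum_abs_sub_sq_le (FF χ x' x') (FF χ x x)
  have h5 : √(hs (FF χ x' x')) = √(Fintype.card R) * hs x := by
    rw [parseval χ hχ, h1, Real.sqrt_mul (by positivity), Real.sqrt_mul_self (hs_nonneg x)]
  have h6 : √(hs (FF χ x x)) = √(Fintype.card R) * hs x := by
    rw [parseval χ hχ, Real.sqrt_mul (by positivity), Real.sqrt_mul_self (hs_nonneg x)]
  rw [h5, h6] at h4
  have h7 : ∑ p, |mass χ x (τ p) - mass χ x p| =
      (∑ p, |‖FF χ x' x' p‖ ^ 2 - ‖FF χ x x p‖ ^ 2|) / Fintype.card R := by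
    rw [← Equiv.sum_comp τ (fun p => |‖FF χ x' x' p‖ ^ 2 - ‖FF χ x x p‖ ^ 2|), Finset.sum_div]
    refine Finset.sum_congr rfl fun p _ => ?_
    unfold mass
    rw [hτ, ← sub_div, abs_div, abs_of_pos (card_pos' (R := R)), abs_sub_comm]
  rw [h7, div_le_iff₀ card_pos']
  refine h4.trans ?_
  have h8 := hs_nonneg x
  have h9 : √(hs (FF χ x' x' - FF χ x x)) * (√(Fintype.card R) * hs x + √(Fintype.card R) * hs x)
      ≤ ((1 / 50) * √(Fintype.card R) * hs x) *
        (√(Fintype.card R) * hs x + √(Fintype.card R) * hs x) := by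
    gcongr
  refine h9.trans (le_of_eq ?_)
  have h10 : √(Fintype.card R : ℝ) * √(Fintype.card R) = Fintype.card R :=
    Real.mul_self_sqrt (by positivity)
  linear_combination (1 / 25) * hs x ^ 2 * h10

/-! ### The three transformations -/

variable (q : R → R) (hq : ∀ l a, q (l + a) = q l + q a + a * l)

/-- translation -/
def aX (x : R → ℂ) : R → ℂ := fun g => x (g - 1)

/-- multiplication by the quadratic character -/
noncomputable def aT (x : R → ℂ) : R → ℂ := fun g => χ (q g) * x g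

/-- Fourier transform -/
noncomputable def aS (x : R → ℂ) : R → ℂ :=
  fun g => ((1 / √(Fintype.card R) : ℝ) : ℂ) * ∑ p, χ (g * p) * x p

omit [DecidableEq R] in
lemma hs_aX (x : R → ℂ) : hs (aX x) = hs x :=
  Equiv.sum_comp (Equiv.subRight 1) (fun a => ‖x a‖ ^ 2)

omit [DecidableEq R] in
lemma hs_aT (x : R → ℂ) : hs (aT χ q x) = hs x := by
  unfold hs aT
  refine Finset.sum_congr rfl fun l _ => ?_
  rw [norm_mul, AddChar.norm_apply, one_mul]

lemma hs_aS (hχ : ∀ h : R, ∑ g, χ (g * h) = if h = 0 then (Fintype.card R : ℂ) else 0)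
    (x : R → ℂ) : hs (aS χ x) = hs x := by
  have h := parseval1 χ hχ x
  have hc := card_pos' (R := R)
  unfold hs aS
  have h1 : ∀ g, ‖((1 / √(Fintype.card R) : ℝ) : ℂ) * ∑ p, χ (g * p) * x p‖ ^ 2 =
      (1 / Fintype.card R) * ‖∑ l, x l * χ (g * l)‖ ^ 2 := by
    intro g
    rw [norm_mul, mul_pow, Complex.norm_real, Real.norm_of_nonneg (by positivity), div_pow,
      one_pow, Real.sq_sqrt hc.le]
    congr 3
    exact Finset.sum_congr rfl fun l _ => mul_comm _ _
  simp_rw [h1]
  rw [← Finset.mul_sum, h]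
  unfold hs
  field_simp

omit [DecidableEq R] in
lemma FF_aX (x : R → ℂ) (p : R × R) : FF χ (aX x) (aX x) p = χ p.2 * FF χ x x p := by
  unfold FF aX
  rw [Finset.mul_sum, ← Equiv.sum_comp (Equiv.addRight (1 : R))]
  refine Finset.sum_congr rfl fun l _ => ?_
  simp only [Equiv.coe_addRight, add_sub_cancel_right]
  have h1 : l + 1 + p.1 - 1 = l + p.1 := by ring
  have h2 : χ (p.2 * (l + 1)) = χ p.2 * χ (p.2 * l) := by
    rw [← AddChar.map_add_eq_mul]; congr 1; ring
  rw [h1, h2]
  ring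

include hq in
omit [DecidableEq R] in
lemma FF_aT (x : R → ℂ) (a b : R) :
    ‖FF χ (aT χ q x) (aT χ q x) (a, a + b)‖ = ‖FF χ x x (a, b)‖ := by
  have h : FF χ (aT χ q x) (aT χ q x) (a, a + b) = χ (-q a) * FF χ x x (a, b) := by
    unfold FF aT
    rw [Finset.mul_sum]
    refine Finset.sum_congr rfl fun l _ => ?_
    rw [map_mul, ← AddChar.map_neg_eq_conj, hq]
    have h1 : χ (-(q l + q a + a * l)) * χ (q l) * χ ((a + b) * l) = χ (-q a) * χ (b * l) := by
      rw [← AddChar.map_add_eq_mul, ← AddChar.map_add_eq_mul, ← AddChar.map_add_eq_mul]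
      congr 1; ring
    linear_combination conj (x (l + a)) * x l * h1
  rw [h, norm_mul, AddChar.norm_apply, one_mul]

lemma FF_aS (hχ : ∀ h : R, ∑ g, χ (g * h) = if h = 0 then (Fintype.card R : ℂ) else 0)
    (x : R → ℂ) (a b : R) :
    ‖FF χ (aS χ x) (aS χ x) (-b, a)‖ = ‖FF χ x x (a, b)‖ := by
  have hc := card_pos' (R := R)
  have hc' : (Fintype.card R : ℂ) ≠ 0 := by exact_mod_cast hc.ne'
  have h : FF χ (aS χ x) (aS χ x) (-b, a) = χ (a * b) * FF χ x x (a, b) := by
    have h1 : ∀ l, conj (aS χ x (l + -b)) * aS χ x l * χ (a * l) =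
        (1 / Fintype.card R : ℂ) * ∑ p, ∑ p', conj (x p) * x p' * χ (b * p)
          * χ (l * (p' - p + a)) := by
      intro l
      unfold aS
      rw [map_mul, map_sum]
      have h2 : (conj (((1 / √(Fintype.card R) : ℝ) : ℂ))) * ((1 / √(Fintype.card R) : ℝ) : ℂ) =
          1 / Fintype.card R := by
        rw [Complex.conj_ofReal, ← Complex.ofReal_mul]
        have : (1 / √(Fintype.card R : ℝ)) * (1 / √(Fintype.card R)) = 1 / Fintype.card R := by
          rw [div_mul_div_comm, one_mul, Real.mul_self_sqrt hc.le]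
        rw [this]
        push_cast
        rfl
      have h3 : (∑ p, conj (χ ((l + -b) * p) * x p)) * (∑ p, χ (l * p) * x p) * χ (a * l) =
          ∑ p, ∑ p', conj (x p) * x p' * χ (b * p) * χ (l * (p' - p + a)) := by
        rw [Finset.sum_mul_sum, Finset.sum_mul]
        refine Finset.sum_congr rfl fun p _ => ?_
        rw [Finset.sum_mul]
        refine Finset.sum_congr rfl fun p' _ => ?_
        rw [map_mul, ← AddChar.map_neg_eq_conj]
        have h4 : χ (-((l + -b) * p)) * χ (l * p') * χ (a * l) =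
            χ (b * p) * χ (l * (p' - p + a)) := by
          rw [← AddChar.map_add_eq_mul, ← AddChar.map_add_eq_mul, ← AddChar.map_add_eq_mul]
          congr 1; ring
        linear_combination conj (x p) * x p' * h4
      rw [← h3, ← h2]
      ring
    unfold FF
    simp only
    simp_rw [h1]
    rw [← Finset.mul_sum, Finset.sum_comm]
    have h5 : ∀ p, ∑ l, ∑ p', conj (x p) * x p' * χ (b * p) * χ (l * (p' - p + a)) =
        conj (x p) * x (p - a) * χ (b * p) * Fintype.card R := by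
      intro p
      rw [Finset.sum_comm]
      have h6 : ∀ p', ∑ l, conj (x p) * x p' * χ (b * p) * χ (l * (p' - p + a)) =
          if p' = p - a then conj (x p) * x p' * χ (b * p) * Fintype.card R else 0 := by
        intro p'
        rw [← Finset.mul_sum, hχ]
        by_cases h : p' = p - a
        · rw [if_pos h, if_pos (by rw [h]; ring)]
        · rw [if_neg h, if_neg (fun h0 => h (by linear_combination h0)), mul_zero]
      simp_rw [h6]
      rw [Finset.sum_ite_eq' Finset.univ (p - a), if_pos (Finset.mem_univ _)]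
    simp_rw [h5]
    rw [← Finset.sum_mul, ← mul_assoc, mul_comm (1 / (Fintype.card R : ℂ)), mul_assoc,
      one_div, inv_mul_cancel₀ hc', mul_one, Finset.mul_sum,
      ← Equiv.sum_comp (Equiv.addRight a)]
    refine Finset.sum_congr rfl fun l _ => ?_
    simp only [Equiv.coe_addRight, add_sub_cancel_right]
    have h7 : χ (b * (l + a)) = χ (a * b) * χ (b * l) := by
      rw [← AddChar.map_add_eq_mul]; congr 1; ring
    rw [h7]
    ring
  rw [h, norm_mul, AddChar.norm_apply, one_mul]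

/-- the shear -/
def tauP : Equiv.Perm (R × R) where
  toFun p := (p.1, p.1 + p.2)
  invFun p := (p.1, p.2 - p.1)
  left_inv p := by simp
  right_inv p := by simp

/-- the rotation -/
def sigP : Equiv.Perm (R × R) where
  toFun p := (-p.2, p.1)
  invFun p := (p.2, -p.1)
  left_inv p := by simp
  right_inv p := by simp

include hq in
/-- The abstract gap: most of the mass is where `χ a = χ b = 1`. -/
lemma abstract_gap
    (hχ : ∀ h : R, ∑ g, χ (g * h) = if h = 0 then (Fintype.card R : ℂ) else 0)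
    (x : R → ℂ) (hX : hs (aX x - x) ≤ (1 / 10000) * hs x)
    (hT : hs (aT χ q x - x) ≤ (1 / 10000) * hs x)
    (hS : hs (aS χ x - x) ≤ (1 / 10000) * hs x) :
    ∑ p : R × R, (if χ p.1 = 1 ∧ χ p.2 = 1 then 0 else mass χ x p) ≤
      (10 * (1 / 25) + 2 * (1 / 2500)) * hs x ^ 2 := by
  have h1 := mass_diff χ hχ (hs_aT χ q x) hT tauP (fun p => FF_aT χ q hq x p.1 p.2)
  have h2 := mass_diff χ hχ (hs_aS χ hχ x) hS sigP (fun p => FF_aS χ hχ x p.1 p.2)
  have h3 : ∑ p : R × R, mass χ x p * ‖χ p.2 - 1‖ ^ 2 ≤ (1 / 2500) * hs x ^ 2 := by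
    have h4 := diff_le χ hχ (hs_aX x) hX
    have h5 : ∑ p : R × R, mass χ x p * ‖χ p.2 - 1‖ ^ 2 =
        hs (FF χ (aX x) (aX x) - FF χ x x) / Fintype.card R := by
      unfold hs mass
      rw [Finset.sum_div]
      refine Finset.sum_congr rfl fun p _ => ?_
      rw [Pi.sub_apply, FF_aX]
      have h6 : χ p.2 * FF χ x x p - FF χ x x p = (χ p.2 - 1) * FF χ x x p := by ring
      rw [h6, norm_mul, mul_pow]
      ring
    rw [h5, div_le_iff₀ card_pos']
    have h6 : hs (FF χ (aX x) (aX x) - FF χ x x) ≤ ((1 / 50) * √(Fintype.card R) * hs x) ^ 2 := by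
      rw [← Real.sq_sqrt (hs_nonneg (FF χ (aX x) (aX x) - FF χ x x))]
      gcongr
    refine h6.trans (le_of_eq ?_)
    rw [mul_pow, mul_pow, Real.sq_sqrt (by positivity)]
    ring
  have h7 := burger (tauP (R := R)) sigP (mass χ x) (mass_nonneg χ x) (fun p => χ p.1)
    (fun p => χ p.2) (fun p => AddChar.norm_apply χ _) (fun p => AddChar.norm_apply χ _)
    (fun p => rfl) (fun p => AddChar.map_add_eq_mul χ _ _)
    (fun p => AddChar.map_neg_eq_conj χ _) (fun p => rfl) _ _ h1 h2 h3
  refine h7.trans (le_of_eq ?_)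
  ring

end ring

/-! ### The off-diagonal blocks -/

section prod

variable (N M : ℕ) [NeZero N] [NeZero M]

/-- The character of the product ring. -/
noncomputable def chi : AddChar (ZMod N × ZMod M) ℂ where
  toFun g := ZMod.stdAddChar g.1 * conj (ZMod.stdAddChar g.2)
  map_zero_eq_one' := by simp
  map_add_eq_mul' a b := by
    simp only [Prod.fst_add, Prod.snd_add, AddChar.map_add_eq_mul, map_mul]
    ring

lemma chi_apply (g : ZMod N × ZMod M) :
    chi N M g = ZMod.stdAddChar g.1 * conj (ZMod.stdAddChar g.2) := rfl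

lemma sum_chi (h : ZMod N × ZMod M) :
    ∑ g, chi N M (g * h) = if h = 0 then (Fintype.card (ZMod N × ZMod M) : ℂ) else 0 := by
  have h1 : ∑ g, chi N M (g * h) = (∑ a : ZMod N, (ZMod.stdAddChar (a * h.1) : ℂ)) *
      conj (∑ b : ZMod M, (ZMod.stdAddChar (b * h.2) : ℂ)) := by
    rw [map_sum, Finset.sum_mul_sum, Fintype.sum_prod_type]
    rfl
  rw [h1, AddChar.sum_mulShift h.1 (ZMod.isPrimitive_stdAddChar N),
    AddChar.sum_mulShift h.2 (ZMod.isPrimitive_stdAddChar M)]
  by_cases h2 : h.1 = 0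
  · by_cases h3 : h.2 = 0
    · have h4 : h = 0 := Prod.ext h2 h3
      rw [if_pos h2, if_pos h3, if_pos h4, Fintype.card_prod]
      simp
    · have h4 : ¬ h = 0 := fun h0 => h3 (by rw [h0]; rfl)
      rw [if_neg h3, if_neg h4]
      simp
  · have h4 : ¬ h = 0 := fun h0 => h2 (by rw [h0]; rfl)
    rw [if_neg h2, if_neg h4]
    simp

/-- The kernel of the character. -/
noncomputable def kerS : Finset (ZMod N × ZMod M) := Finset.univ.filter (fun g => chi N M g = 1)

lemma two_mul_kerS (hN : Odd N) (hM : Odd M) (hne : N ≠ M) :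
    2 * (kerS N M).card ^ 2 ≤ N * M := by
  let K : AddSubgroup (ZMod N × ZMod M) :=
    { carrier := {g | chi N M g = 1}
      add_mem' := fun {a b} ha hb => by
        simp only [Set.mem_ofPred_eq] at *
        rw [AddChar.map_add_eq_mul, ha, hb, one_mul]
      zero_mem' := by simp
      neg_mem' := fun {a} ha => by
        simp only [Set.mem_ofPred_eq] at *
        rw [AddChar.map_neg_eq_conj, ha, map_one] }
  have hmem : ∀ g, g ∈ K ↔ chi N M g = 1 := fun g => Iff.rfl
  have hcard : Nat.card K = (kerS N M).card := by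
    rw [kerS, ← Fintype.card_subtype, ← Nat.card_eq_fintype_card]
    rfl
  have h1 : (kerS N M).card ∣ N := by
    have h := AddSubgroup.card_dvd_of_injective ((AddMonoidHom.fst (ZMod N) (ZMod M)).comp
      K.subtype) (by
        rw [injective_iff_map_eq_zero]
        rintro ⟨g, hg⟩ h0
        have h0' : g.1 = 0 := h0
        have h2 := (hmem g).1 hg
        rw [chi_apply, h0', AddChar.map_zero_eq_one, one_mul, ← AddChar.map_neg_eq_conj] at h2
        have h3 : -g.2 = 0 := by
          apply ZMod.injective_stdAddChar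
          rw [h2, AddChar.map_zero_eq_one]
        exact Subtype.ext (Prod.ext h0' (neg_eq_zero.1 h3)))
    rwa [hcard, Nat.card_zmod] at h
  have h2 : (kerS N M).card ∣ M := by
    have h := AddSubgroup.card_dvd_of_injective ((AddMonoidHom.snd (ZMod N) (ZMod M)).comp
      K.subtype) (by
        rw [injective_iff_map_eq_zero]
        rintro ⟨g, hg⟩ h0
        have h0' : g.2 = 0 := h0
        have h2 := (hmem g).1 hg
        rw [chi_apply, h0', AddChar.map_zero_eq_one, map_one, mul_one] at h2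
        have h3 : g.1 = 0 := by
          apply ZMod.injective_stdAddChar
          rw [h2, AddChar.map_zero_eq_one]
        exact Subtype.ext (Prod.ext h3 h0'))
    rwa [hcard, Nat.card_zmod] at h
  obtain ⟨a, ha⟩ := h1
  obtain ⟨b, hb⟩ := h2
  have hNpos : 0 < N := Nat.pos_of_ne_zero (NeZero.ne N)
  have hMpos : 0 < M := Nat.pos_of_ne_zero (NeZero.ne M)
  have ha0 : 0 < a := Nat.pos_of_ne_zero (by rintro rfl; omega)
  have hb0 : 0 < b := Nat.pos_of_ne_zero (by rintro rfl; omega)
  have hab : a ≠ b := by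
    rintro rfl
    exact hne (ha.trans hb.symm)
  have h3 : 2 ≤ a * b := by
    rcases Nat.lt_or_gt_of_ne hab with h | h
    · calc 2 ≤ 1 * b := by omega
        _ ≤ a * b := Nat.mul_le_mul_right _ ha0
    · calc 2 ≤ a * 1 := by omega
        _ ≤ a * b := Nat.mul_le_mul_left _ hb0
  calc 2 * (kerS N M).card ^ 2 = (kerS N M).card ^ 2 * 2 := by ring
    _ ≤ (kerS N M).card ^ 2 * (a * b) := Nat.mul_le_mul_left _ h3
    _ = ((kerS N M).card * a) * ((kerS N M).card * b) := by ring
    _ = N * M := by rw [← ha, ← hb]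

lemma two_inv_mul (hN : Odd N) : (2 : ZMod N) * 2⁻¹ = 1 := by
  have h : Nat.Coprime 2 N := (Nat.coprime_two_left).2 hN
  have := ZMod.coe_mul_inv_eq_one 2 h
  exact_mod_cast this

lemma qq_add (hN : Odd N) (l a : ZMod N) : qq N (l + a) = qq N l + qq N a + a * l := by
  have h := two_inv_mul N hN
  unfold qq
  linear_combination (a * l) * h

/-- The quadratic function on the product ring. -/
def qp (g : ZMod N × ZMod M) : ZMod N × ZMod M := (qq N g.1, qq M g.2)

lemma aX_eq (x : ZMod N × ZMod M → ℂ) : actX N M x = aX x := rfl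

lemma aT_eq (x : ZMod N × ZMod M → ℂ) : actT N M x = aT (chi N M) (qp N M) x := rfl

lemma aS_eq (x : ZMod N × ZMod M → ℂ) : actS N M x = aS (chi N M) x := by
  funext p
  unfold actS aS
  have h1 : √(Fintype.card (ZMod N × ZMod M) : ℝ) = √N * √M := by
    rw [Fintype.card_prod, ZMod.card, ZMod.card]
    push_cast
    rw [Real.sqrt_mul (by positivity)]
  rw [h1]
  rfl

end prod

end GapNe

open GapNe in
/-- Task G1.  Uniform gap for the off-diagonal blocks. -/
theorem gap_ne (N M : ℕ) [NeZero N] [NeZero M] (hN : Odd N) (hM : Odd M) (hne : N ≠ M)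
    (x : ZMod N × ZMod M → ℂ) :
    (1 / 10000) * hs x ≤
      hs (actX N M x - x) + hs (actT N M x - x) + hs (actS N M x - x) := by
  by_contra hcon
  push Not at hcon
  have n1 := hs_nonneg (actX N M x - x)
  have n2 := hs_nonneg (actT N M x - x)
  have n3 := hs_nonneg (actS N M x - x)
  have hpos : 0 < hs x := by linarith
  rw [aX_eq, aT_eq, aS_eq] at hcon
  rw [aX_eq] at n1
  rw [aT_eq] at n2
  rw [aS_eq] at n3
  have h1 := abstract_gap (chi N M) (qp N M)
    (fun l a => Prod.ext (qq_add N hN l.1 a.1) (qq_add M hM l.2 a.2)) (sum_chi N M) x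
    (by linarith) (by linarith) (by linarith)
  have h2 := sum_mass (chi N M) (sum_chi N M) x
  have h3 : ∑ p : (ZMod N × ZMod M) × (ZMod N × ZMod M),
      (if chi N M p.1 = 1 ∧ chi N M p.2 = 1 then mass (chi N M) x p else 0) ≤
      (1 / 2) * hs x ^ 2 := by
    rw [← Finset.sum_filter]
    have h4 : ∀ p ∈ Finset.univ.filter (fun p : (ZMod N × ZMod M) × (ZMod N × ZMod M) =>
        chi N M p.1 = 1 ∧ chi N M p.2 = 1), mass (chi N M) x p ≤ hs x ^ 2 / (N * M) := by
      intro p _
      unfold mass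
      rw [Fintype.card_prod, ZMod.card, ZMod.card]
      push_cast
      have := norm_FF_le (chi N M) x p
      gcongr
    refine (Finset.sum_le_card_nsmul _ _ _ h4).trans ?_
    have h5 : (Finset.univ.filter (fun p : (ZMod N × ZMod M) × (ZMod N × ZMod M) =>
        chi N M p.1 = 1 ∧ chi N M p.2 = 1)) = kerS N M ×ˢ kerS N M := by
      ext p
      simp [kerS]
    rw [h5, Finset.card_product, nsmul_eq_mul]
    have h6 := two_mul_kerS N M hN hM hne
    have h7 : (2 : ℝ) * ((kerS N M).card : ℝ) ^ 2 ≤ N * M := by exact_mod_cast h6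
    have hNpos : (0 : ℝ) < N := by exact_mod_cast Nat.pos_of_ne_zero (NeZero.ne N)
    have hMpos : (0 : ℝ) < M := by exact_mod_cast Nat.pos_of_ne_zero (NeZero.ne M)
    rw [mul_div_assoc', div_le_iff₀ (by positivity)]
    push_cast
    nlinarith [sq_nonneg (hs x)]
  have h4 : ∑ p : (ZMod N × ZMod M) × (ZMod N × ZMod M), mass (chi N M) x p =
      ∑ p : (ZMod N × ZMod M) × (ZMod N × ZMod M),
        (if chi N M p.1 = 1 ∧ chi N M p.2 = 1 then mass (chi N M) x p else 0) +
      ∑ p : (ZMod N × ZMod M) × (ZMod N × ZMod M),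
        (if chi N M p.1 = 1 ∧ chi N M p.2 = 1 then 0 else mass (chi N M) x p) := by
    rw [← Finset.sum_add_distrib]
    refine Finset.sum_congr rfl fun p _ => ?_
    split_ifs <;> simp
  have h5 : 0 < hs x ^ 2 := by positivity
  linarith

end Pool.Agent.MP_ff6aad_an
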