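import Pool.Agent.MP_ff6aad_an.Gens
import Pool.Agent.MP_ff6aad_an.GapNe
import Pool.Agent.MP_ff6aad_an.GapEq

set_option autoImplicit false
set_option linter.unusedSectionVars false

open scoped ComplexConjugate InnerProductSpace ENNReal

namespace Pool.Agent.MP_ff6aad_an

variable {H : Type*} [NormedAddCommGroup H] [InnerProductSpace ℂ H] [CompleteSpace H]

open MP_5ec4a4_an (onbMap onbMap_apply onbMap_norm shift shift_apply shift_norm hb_ext hb_ext_inner)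

variable (e : HilbertBasis Idx ℂ H)

/-- the `(n,m)` block of an operator -/
noncomputable def blk (A : H →L[ℂ] H) (n m : ℕ) : ZMod (NN n) × ZMod (NN m) → ℂ :=
  fun p => ⟪e ⟨n, p.1⟩, A (e ⟨m, p.2⟩)⟫_ℂ

/-- conjugate -/
noncomputable def cj (u A : H →L[ℂ] H) : H →L[ℂ] H := u * A * ContinuousLinearMap.adjoint u

theorem blk_cj (u A : H →L[ℂ] H) (n m : ℕ) (p : ZMod (NN n) × ZMod (NN m)) :
    blk e (cj u A) n m p =
      ⟪ContinuousLinearMap.adjoint u (e ⟨n, p.1⟩), A (ContinuousLinearMap.adjoint u (e ⟨m, p.2⟩))⟫_ℂ := by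
  unfold blk cj
  rw [ContinuousLinearMap.adjoint_inner_left]
  rfl

theorem blk_sub (A B : H →L[ℂ] H) (n m : ℕ) : blk e (A - B) n m = blk e A n m - blk e B n m := by
  funext p
  simp [blk]

theorem blk_X (A : H →L[ℂ] H) (n m : ℕ) :
    blk e (cj (opX e) A) n m = actX (NN n) (NN m) (blk e A n m) := by
  funext p
  rw [blk_cj, adjX, adjX]
  rfl

theorem blk_T (A : H →L[ℂ] H) (n m : ℕ) :
    blk e (cj (opT e) A) n m = actT (NN n) (NN m) (blk e A n m) := by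
  funext p
  rw [blk_cj, adjT, adjT, map_smul, inner_smul_left, inner_smul_right]
  simp [actT, blk, mul_assoc]

theorem blk_S (A : H →L[ℂ] H) (n m : ℕ) :
    blk e (cj (opS e) A) n m = actS (NN n) (NN m) (blk e A n m) := by
  funext p
  rw [blk_cj, adjS, adjS, map_smul, inner_smul_left, inner_smul_right, map_sum, sum_inner]
  simp_rw [inner_sum, map_smul, inner_smul_left, inner_smul_right]
  rw [conj_cN, ← mul_assoc]
  unfold actS
  rw [Fintype.sum_prod_type]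
  congr 1
  · unfold cN
    push_cast
    field_simp
  · refine Finset.sum_congr rfl fun i _ => Finset.sum_congr rfl fun j _ => ?_
    simp [blk, chv, mul_assoc]

/-- column sums -/
theorem colsum (A : H →L[ℂ] H) (n : ℕ) :
    ∑ j, ‖A (e ⟨n, j⟩)‖ₑ ^ 2 = ∑' m, ENNReal.ofReal (hs (blk e A m n)) := by
  have h1 : ∀ j, ‖A (e ⟨n, j⟩)‖ₑ ^ 2 =
      ∑' m, ∑ k, ‖⟪e ⟨m, k⟩, A (e ⟨n, j⟩)⟫_ℂ‖ₑ ^ 2 := by
    intro j
    rw [← parsevalE e, ENNReal.tsum_sigma']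
    refine tsum_congr fun m => ?_
    rw [tsum_fintype]
  simp_rw [h1]
  rw [← Summable.tsum_finsetSum (fun _ _ => ENNReal.summable)]
  refine tsum_congr fun m => ?_
  unfold hs
  rw [ENNReal.ofReal_sum_of_nonneg (fun _ _ => by positivity), Fintype.sum_prod_type,
    Finset.sum_comm]
  refine Finset.sum_congr rfl fun i _ => Finset.sum_congr rfl fun j _ => ?_
  rw [enorm_sq_eqC]
  rfl

theorem hsE_eq_tsum (A : H →L[ℂ] H) : hsE e A = ∑' n, ∑ j, ‖A (e ⟨n, j⟩)‖ₑ ^ 2 := by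
  unfold hsE
  rw [ENNReal.tsum_sigma']
  refine tsum_congr fun n => ?_
  rw [tsum_fintype]

theorem hs_nonneg {α : Type*} [Fintype α] (x : α → ℂ) : 0 ≤ hs x := by
  unfold hs; positivity

theorem odd_NN (n : ℕ) : Odd (NN n) := ⟨n + 1, by unfold NN; ring⟩

/-- the block inequality in extended form -/
theorem gapE (A : H →L[ℂ] H) (m n : ℕ) :
    ENNReal.ofReal (1 / 10000) * ENNReal.ofReal (hs (blk e A m n)) ≤
      (if m = n then ENNReal.ofReal (1 / 10000 * (‖∑ j, ⟪e ⟨n, j⟩, A (e ⟨n, j⟩)⟫_ℂ‖ ^ 2 / NN n)) else 0) +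
      (ENNReal.ofReal (hs (blk e (cj (opX e) A - A) m n)) +
        ENNReal.ofReal (hs (blk e (cj (opT e) A - A) m n)) +
        ENNReal.ofReal (hs (blk e (cj (opS e) A - A) m n))) := by
  rw [blk_sub, blk_sub, blk_sub, blk_X, blk_T, blk_S]
  rw [← ENNReal.ofReal_add (hs_nonneg _) (hs_nonneg _),
    ← ENNReal.ofReal_add (add_nonneg (hs_nonneg _) (hs_nonneg _)) (hs_nonneg _),
    ← ENNReal.ofReal_mul (by norm_num)]
  by_cases hmn : m = n
  · subst hmn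
    rw [if_pos rfl, ← ENNReal.ofReal_add (by positivity)
      (add_nonneg (add_nonneg (hs_nonneg _) (hs_nonneg _)) (hs_nonneg _))]
    apply ENNReal.ofReal_le_ofReal
    have h := gap_eq (NN m) (odd_NN m) (blk e A m m)
    rw [mul_sub, sub_le_iff_le_add] at h
    rw [add_comm]
    exact h
  · rw [if_neg hmn, zero_add]
    apply ENNReal.ofReal_le_ofReal
    refine gap_ne (NN m) (NN n) (odd_NN m) (odd_NN n) ?_ (blk e A m n)
    unfold NN
    omega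

/-- the main inequality on a block column -/
theorem star_ineq (A : H →L[ℂ] H) (n : ℕ) :
    ENNReal.ofReal (1 / 10000) * ∑ j, ‖A (e ⟨n, j⟩)‖ₑ ^ 2 ≤
      ENNReal.ofReal (1 / 10000 * (‖∑ j, ⟪e ⟨n, j⟩, A (e ⟨n, j⟩)⟫_ℂ‖ ^ 2 / NN n)) +
      (∑ j, ‖(cj (opX e) A - A) (e ⟨n, j⟩)‖ₑ ^ 2 + ∑ j, ‖(cj (opT e) A - A) (e ⟨n, j⟩)‖ₑ ^ 2 +
        ∑ j, ‖(cj (opS e) A - A) (e ⟨n, j⟩)‖ₑ ^ 2) := by
  rw [colsum, colsum, colsum, colsum, ← ENNReal.tsum_mul_left, ← ENNReal.tsum_add,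
    ← ENNReal.tsum_add]
  have h1 : ENNReal.ofReal (1 / 10000 * (‖∑ j, ⟪e ⟨n, j⟩, A (e ⟨n, j⟩)⟫_ℂ‖ ^ 2 / NN n)) =
      ∑' m, (if m = n then ENNReal.ofReal
        (1 / 10000 * (‖∑ j, ⟪e ⟨n, j⟩, A (e ⟨n, j⟩)⟫_ℂ‖ ^ 2 / NN n)) else 0) := by
    rw [tsum_ite_eq]
  rw [h1, ← ENNReal.tsum_add]
  exact ENNReal.tsum_le_tsum fun m => gapE e A m n

end Pool.Agent.MP_ff6aad_an
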