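import Pool.Agent.MP_ff6aad_an.Defs

set_option autoImplicit false

open scoped ComplexConjugate

namespace Pool.Agent.MP_ff6aad_an

namespace BurgerAux

open scoped Classical in
/-- the `f`-mass of a predicate -/
noncomputable def mass {Ω : Type*} [Fintype Ω] (f : Ω → ℝ) (P : Ω → Prop) : ℝ :=
  ∑ ω, if P ω then f ω else 0

theorem perm_apply_inv {Ω : Type*} (g : Equiv.Perm Ω) (ω : Ω) : g (g⁻¹ ω) = ω := by
  rw [← Equiv.Perm.mul_apply, mul_inv_cancel, Equiv.Perm.one_apply]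

/-- the displacement of `f` under a permutation -/
noncomputable def disp {Ω : Type*} [Fintype Ω] (f : Ω → ℝ) (g : Equiv.Perm Ω) : ℝ :=
  ∑ ω, |f (g ω) - f ω|

variable {Ω : Type*} [Fintype Ω]

theorem disp_mul (f : Ω → ℝ) (g h : Equiv.Perm Ω) : disp f (g * h) ≤ disp f g + disp f h := by
  unfold disp
  have h1 : ∑ ω, |f (g ω) - f ω| = ∑ ω, |f (g (h ω)) - f (h ω)| :=
    (Equiv.sum_comp h (fun ω => |f (g ω) - f ω|)).symm
  rw [h1, ← Finset.sum_add_distrib]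
  apply Finset.sum_le_sum
  intro ω _
  simp only [Equiv.Perm.mul_apply]
  have := abs_add_le (f (g (h ω)) - f (h ω)) (f (h ω) - f ω)
  simpa using this

theorem disp_inv (f : Ω → ℝ) (g : Equiv.Perm Ω) : disp f g⁻¹ = disp f g := by
  unfold disp
  rw [← Equiv.sum_comp g (fun ω => |f (g⁻¹ ω) - f ω|)]
  apply Finset.sum_congr rfl
  intro ω _
  simp [abs_sub_comm]

theorem mass_mono (f : Ω → ℝ) (hf : ∀ ω, 0 ≤ f ω) {P Q : Ω → Prop} (h : ∀ ω, P ω → Q ω) :
    mass f P ≤ mass f Q := by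
  classical
  unfold mass
  apply Finset.sum_le_sum
  intro ω _
  have := hf ω
  have := h ω
  by_cases h1 : P ω <;> by_cases h2 : Q ω <;> simp_all

theorem mass_add_le (f : Ω → ℝ) (hf : ∀ ω, 0 ≤ f ω) {P Q R : Ω → Prop}
    (hP : ∀ ω, P ω → R ω) (hQ : ∀ ω, Q ω → R ω) (hd : ∀ ω, P ω → ¬ Q ω) :
    mass f P + mass f Q ≤ mass f R := by
  classical
  unfold mass
  rw [← Finset.sum_add_distrib]
  apply Finset.sum_le_sum
  intro ω _
  have := hf ω
  have := hP ω
  have := hQ ω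
  have := hd ω
  by_cases h1 : P ω <;> by_cases h2 : Q ω <;> by_cases h3 : R ω <;> simp_all

theorem mass_le_add (f : Ω → ℝ) (hf : ∀ ω, 0 ≤ f ω) {P Q R : Ω → Prop}
    (h : ∀ ω, R ω → P ω ∨ Q ω) :
    mass f R ≤ mass f P + mass f Q := by
  classical
  unfold mass
  rw [← Finset.sum_add_distrib]
  apply Finset.sum_le_sum
  intro ω _
  have := hf ω
  have := h ω
  by_cases h1 : P ω <;> by_cases h2 : Q ω <;> by_cases h3 : R ω <;> simp_all

theorem mass_map (f : Ω → ℝ) (hf : ∀ ω, 0 ≤ f ω) (g : Equiv.Perm Ω) {P Q : Ω → Prop}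
    (h : ∀ ω, P ω → Q (g ω)) : mass f P ≤ mass f Q + disp f g := by
  classical
  unfold mass disp
  rw [← Equiv.sum_comp g (fun ω => if Q ω then f ω else 0), ← Finset.sum_add_distrib]
  apply Finset.sum_le_sum
  intro ω _
  have h0 := hf (g ω)
  have h1 := h ω
  have h2 := neg_abs_le (f (g ω) - f ω)
  have h3 := abs_nonneg (f (g ω) - f ω)
  by_cases hp : P ω
  · have hq : Q (g ω) := h1 hp
    simp only [hp, hq, if_true]
    linarith
  · by_cases hq : Q (g ω)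
    · simp only [hp, hq, if_true, if_false]
      linarith
    · simp only [hp, hq, if_false]
      linarith

/-- arguments add up in the right half plane -/
theorem arg_mul_small {a b : ℂ} (ha : ‖a‖ = 1) (hb : ‖b‖ = 1)
    (ha' : |a.arg| < Real.pi / 2) (hb' : |b.arg| < Real.pi / 2) :
    (a * b).arg = a.arg + b.arg := by
  have ha0 : a ≠ 0 := by
    intro h; rw [h] at ha; simp at ha
  have hb0 : b ≠ 0 := by
    intro h; rw [h] at hb; simp at hb
  rw [abs_lt] at ha' hb'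
  apply Complex.arg_mul ha0 hb0
  constructor
  · linarith
  · linarith

theorem arg_conj_small {a : ℂ} (ha' : |a.arg| < Real.pi / 2) :
    (conj a).arg = - a.arg := by
  rw [Complex.arg_conj]
  rw [if_neg]
  intro h
  rw [h] at ha'
  rw [abs_of_pos Real.pi_pos] at ha'
  linarith [Real.pi_pos]

theorem eq_one_of_arg {a : ℂ} (ha : ‖a‖ = 1) (h : a.arg = 0) : a = 1 := by
  have := Complex.norm_mul_exp_arg_mul_I a
  rw [ha, h] at this
  simpa using this.symm

end BurgerAux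

open BurgerAux

/-- Task B. Burger's lemma.  `u ω`, `v ω` are unit complex numbers, the coordinates of a point of
the torus; `τ` acts by `(u,v) ↦ (u,uv)` and `σ` by `(u,v) ↦ (v⁻¹,u)`; a nonnegative mass `f` that is
almost invariant under both and almost carried by `v ≈ 1` is almost carried by `u = v = 1`.

Proof.  Let `x = arg u`, `y = arg v ∈ (-π,π]`.
(1) `|y| ≥ π/2` implies `‖v-1‖² ≥ 2`, so `f(|y| ≥ π/2) ≤ η/2`; and by `σ`-invariance
`f(|x| ≥ π/2) ≤ η/2 + δ`.  So `f(out) ≤ η + δ`, where `out = {|x| ≥ π/2 or |y| ≥ π/2}`.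
(2) Let `small = not out`, `C = {x > 0, y ≥ 0 or x < 0, y ≤ 0}`, `D = {y > 0, x ≤ 0 or y < 0, x ≥ 0}`;
`C, D, {(0,0)}` partition the square.
Let `L = σ⁻¹ τ⁻¹ σ`, it acts by `(u,v) ↦ (uv, v)`.  On `C ∩ small`: `τ(x,y) = (x,x+y)`,
`L(x,y) = (x+y,y)` without wrap-around, the images `τ(C ∩ small)`, `L(C ∩ small)` lie in `C`, and are
disjoint (`|y'| ≥ |x'|` in the first, `|x'| > |y'|` in the second).  Hence
`2 f(C ∩ small) - δ - 3δ ≤ f(τ(C ∩ small)) + f(L(C ∩ small)) ≤ f(C)`, i.e.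
`f(C ∩ small) ≤ 4δ + f(C ∩ out)`.
(3) The same for `D` with `τ⁻¹(x,y) = (x,y-x)`, `L⁻¹(x,y) = (x-y,y)`: images in `D`, disjoint
(`|y'| > |x'|` resp. `|x'| ≥ |y'|`).
Sum: `f(not (0,0)) = f(C) + f(D) ≤ 8δ + 2 f(out) ≤ 10 δ + 2 η`. -/
theorem burger {Ω : Type*} [Fintype Ω] [DecidableEq Ω] (τ σ : Equiv.Perm Ω) (f : Ω → ℝ)
    (hf : ∀ ω, 0 ≤ f ω) (u v : Ω → ℂ) (hu : ∀ ω, ‖u ω‖ = 1) (hv : ∀ ω, ‖v ω‖ = 1)
    (hτu : ∀ ω, u (τ ω) = u ω) (hτv : ∀ ω, v (τ ω) = u ω * v ω)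
    (hσu : ∀ ω, u (σ ω) = conj (v ω)) (hσv : ∀ ω, v (σ ω) = u ω)
    (δ η : ℝ) (hτ : ∑ ω, |f (τ ω) - f ω| ≤ δ) (hσ : ∑ ω, |f (σ ω) - f ω| ≤ δ)
    (hη : ∑ ω, f ω * ‖v ω - 1‖ ^ 2 ≤ η) :
    ∑ ω, (if u ω = 1 ∧ v ω = 1 then 0 else f ω) ≤ 10 * δ + 2 * η := by
  classical
  -- unit complex numbers
  have hcu : ∀ ω, conj (u ω) * u ω = 1 := by
    intro ω
    rw [mul_comm, Complex.mul_conj, Complex.normSq_eq_norm_sq, hu ω]; simp
  have hcv : ∀ ω, conj (v ω) * v ω = 1 := by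
    intro ω
    rw [mul_comm, Complex.mul_conj, Complex.normSq_eq_norm_sq, hv ω]; simp
  -- actions of the inverses
  have hτiu : ∀ ω, u (τ⁻¹ ω) = u ω := by
    intro ω
    have := hτu (τ⁻¹ ω)
    rw [perm_apply_inv] at this
    exact this.symm
  have hτiv : ∀ ω, v (τ⁻¹ ω) = conj (u ω) * v ω := by
    intro ω
    have h := hτv (τ⁻¹ ω)
    rw [perm_apply_inv, hτiu] at h
    rw [h, ← mul_assoc, hcu, one_mul]
  have hσiu : ∀ ω, u (σ⁻¹ ω) = v ω := by
    intro ω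
    have := hσv (σ⁻¹ ω)
    rw [perm_apply_inv] at this
    exact this.symm
  have hσiv : ∀ ω, v (σ⁻¹ ω) = conj (u ω) := by
    intro ω
    have := hσu (σ⁻¹ ω)
    rw [perm_apply_inv] at this
    rw [this, Complex.conj_conj]
  set L : Equiv.Perm Ω := σ⁻¹ * (τ⁻¹ * σ) with hL
  set L' : Equiv.Perm Ω := σ⁻¹ * (τ * σ) with hL'
  have hLu : ∀ ω, u (L ω) = u ω * v ω := by
    intro ω
    simp only [hL, Equiv.Perm.mul_apply]
    rw [hσiu, hτiv, hσu, hσv, Complex.conj_conj, mul_comm]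
  have hLv : ∀ ω, v (L ω) = v ω := by
    intro ω
    simp only [hL, Equiv.Perm.mul_apply]
    rw [hσiv, hτiu, hσu, Complex.conj_conj]
  have hLu' : ∀ ω, u (L' ω) = u ω * conj (v ω) := by
    intro ω
    simp only [hL', Equiv.Perm.mul_apply]
    rw [hσiu, hτv, hσu, hσv, mul_comm]
  have hLv' : ∀ ω, v (L' ω) = v ω := by
    intro ω
    simp only [hL', Equiv.Perm.mul_apply]
    rw [hσiv, hτu, hσu, Complex.conj_conj]
  -- displacements
  have dτ : disp f τ ≤ δ := hτ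
  have dσ : disp f σ ≤ δ := hσ
  have dL : disp f L ≤ 3 * δ := by
    have h1 := disp_mul f σ⁻¹ (τ⁻¹ * σ)
    have h2 := disp_mul f τ⁻¹ σ
    rw [disp_inv] at h1 h2
    linarith
  have dL' : disp f L' ≤ 3 * δ := by
    have h1 := disp_mul f σ⁻¹ (τ * σ)
    have h2 := disp_mul f τ σ
    rw [disp_inv] at h1
    linarith
  have dτi : disp f τ⁻¹ ≤ δ := by rw [disp_inv]; exact dτ
  -- step 1
  set x : Ω → ℝ := fun ω => (u ω).arg with hx
  set y : Ω → ℝ := fun ω => (v ω).arg with hy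
  have hsmall : ∀ z : ℂ, ‖z‖ = 1 → ¬ (|z.arg| < Real.pi / 2) → z.re ≤ 0 := by
    intro z hz h
    by_contra hc
    push Not at hc
    exact h (Complex.abs_arg_lt_pi_div_two_iff.2 (Or.inl hc))
  have m1 : mass f (fun ω => ¬ (|y ω| < Real.pi / 2)) ≤ η / 2 := by
    have : 2 * mass f (fun ω => ¬ (|y ω| < Real.pi / 2)) ≤ η := by
      refine le_trans ?_ hη
      unfold mass
      rw [Finset.mul_sum]
      apply Finset.sum_le_sum
      intro ω _
      have h0 := hf ω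
      by_cases h : |y ω| < Real.pi / 2
      · simp only [h, not_true_eq_false, if_false, mul_zero]
        positivity
      · simp only [h, not_false_eq_true, if_true]
        have hre := hsmall _ (hv ω) h
        have hn : ‖v ω - 1‖ ^ 2 = 2 - 2 * (v ω).re := by
          rw [← Complex.normSq_eq_norm_sq, Complex.normSq_apply]
          have h1 : (v ω).re * (v ω).re + (v ω).im * (v ω).im = 1 := by
            rw [← Complex.normSq_apply, Complex.normSq_eq_norm_sq, hv ω]; norm_num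
          simp only [Complex.sub_re, Complex.one_re, Complex.sub_im, Complex.one_im, sub_zero]
          nlinarith
        rw [hn]
        nlinarith
    linarith
  have m2 : mass f (fun ω => ¬ (|x ω| < Real.pi / 2)) ≤ η / 2 + δ := by
    have := mass_map f hf σ (P := fun ω => ¬ (|x ω| < Real.pi / 2))
      (Q := fun ω => ¬ (|y ω| < Real.pi / 2)) (by
        intro ω h
        simp only [hy, hσv]
        exact h)
    linarith
  have m3 : mass f (fun ω => ¬ (|x ω| < Real.pi / 2) ∨ ¬ (|y ω| < Real.pi / 2)) ≤ η + δ := by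
    have := mass_le_add f hf (P := fun ω => ¬ (|x ω| < Real.pi / 2))
      (Q := fun ω => ¬ (|y ω| < Real.pi / 2))
      (R := fun ω => ¬ (|x ω| < Real.pi / 2) ∨ ¬ (|y ω| < Real.pi / 2)) (fun ω h => h)
    linarith
  -- step 2
  set C : Ω → Prop := fun ω => (0 < x ω ∧ 0 ≤ y ω) ∨ (x ω < 0 ∧ y ω ≤ 0) with hC
  set D : Ω → Prop := fun ω => (0 < y ω ∧ x ω ≤ 0) ∨ (y ω < 0 ∧ 0 ≤ x ω) with hD
  set S : Ω → Prop := fun ω => |x ω| < Real.pi / 2 ∧ |y ω| < Real.pi / 2 with hS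
  have hout : ∀ P : Ω → Prop, mass f P ≤ mass f (fun ω => P ω ∧ S ω) +
      mass f (fun ω => P ω ∧ ¬ S ω) := by
    intro P
    apply mass_le_add f hf
    intro ω h
    by_cases hs : S ω
    · exact Or.inl ⟨h, hs⟩
    · exact Or.inr ⟨h, hs⟩
  have xτ : ∀ ω, x (τ ω) = x ω := by intro ω; simp only [hx, hτu]
  have yτ : ∀ ω, S ω → y (τ ω) = x ω + y ω := by
    intro ω hs
    simp only [hx, hy, hτv]
    exact arg_mul_small (hu ω) (hv ω) hs.1 hs.2
  have xL : ∀ ω, S ω → x (L ω) = x ω + y ω := by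
    intro ω hs
    simp only [hx, hy, hLu]
    exact arg_mul_small (hu ω) (hv ω) hs.1 hs.2
  have yL : ∀ ω, y (L ω) = y ω := by intro ω; simp only [hy, hLv]
  have nconj : ∀ z : ℂ, ‖z‖ = 1 → ‖conj z‖ = 1 := by
    intro z hz
    rw [RCLike.norm_conj, hz]
  have aconj : ∀ z : ℂ, |z.arg| < Real.pi / 2 → |(conj z).arg| < Real.pi / 2 := by
    intro z hz
    rw [arg_conj_small hz, abs_neg]
    exact hz
  have xτi : ∀ ω, x (τ⁻¹ ω) = x ω := by intro ω; simp only [hx, hτiu]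
  have yτi : ∀ ω, S ω → y (τ⁻¹ ω) = y ω - x ω := by
    intro ω hs
    simp only [hx, hy, hτiv]
    rw [arg_mul_small (nconj _ (hu ω)) (hv ω) (aconj _ hs.1) hs.2, arg_conj_small hs.1]
    ring
  have xL' : ∀ ω, S ω → x (L' ω) = x ω - y ω := by
    intro ω hs
    simp only [hx, hy, hLu']
    rw [arg_mul_small (hu ω) (nconj _ (hv ω)) hs.1 (aconj _ hs.2), arg_conj_small hs.2]
    ring
  have yL' : ∀ ω, y (L' ω) = y ω := by intro ω; simp only [hy, hLv']
  have cC : mass f (fun ω => C ω ∧ S ω) + mass f (fun ω => C ω ∧ S ω) ≤ mass f C + 4 * δ := by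
    have h1 := mass_map f hf τ (P := fun ω => C ω ∧ S ω) (Q := fun ω => C ω ∧ |x ω| ≤ |y ω|) (by
      rintro ω ⟨hc, hs⟩
      simp only [hC, xτ, yτ ω hs]
      rcases hc with ⟨h1, h2⟩ | ⟨h1, h2⟩
      · refine ⟨Or.inl ⟨h1, by linarith⟩, ?_⟩
        rw [abs_of_pos h1, abs_of_nonneg (by linarith)]
        linarith
      · refine ⟨Or.inr ⟨h1, by linarith⟩, ?_⟩
        rw [abs_of_neg h1, abs_of_nonpos (by linarith)]
        linarith)
    have h2 := mass_map f hf L (P := fun ω => C ω ∧ S ω) (Q := fun ω => C ω ∧ |y ω| < |x ω|) (by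
      rintro ω ⟨hc, hs⟩
      simp only [hC, yL, xL ω hs]
      rcases hc with ⟨h1, h2⟩ | ⟨h1, h2⟩
      · refine ⟨Or.inl ⟨by linarith, h2⟩, ?_⟩
        rw [abs_of_nonneg h2, abs_of_nonneg (by linarith)]
        linarith
      · refine ⟨Or.inr ⟨by linarith, h2⟩, ?_⟩
        rw [abs_of_nonpos h2, abs_of_nonpos (by linarith)]
        linarith)
    have h3 := mass_add_le f hf (P := fun ω => C ω ∧ |x ω| ≤ |y ω|)
      (Q := fun ω => C ω ∧ |y ω| < |x ω|) (R := C) (fun ω h => h.1) (fun ω h => h.1)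
      (fun ω h h' => absurd h.2 (not_le.2 h'.2))
    linarith
  have cD : mass f (fun ω => D ω ∧ S ω) + mass f (fun ω => D ω ∧ S ω) ≤ mass f D + 4 * δ := by
    have h1 := mass_map f hf τ⁻¹ (P := fun ω => D ω ∧ S ω) (Q := fun ω => D ω ∧ |x ω| < |y ω|) (by
      rintro ω ⟨hc, hs⟩
      simp only [hD, xτi, yτi ω hs]
      rcases hc with ⟨h1, h2⟩ | ⟨h1, h2⟩
      · refine ⟨Or.inl ⟨by linarith, h2⟩, ?_⟩
        rw [abs_of_nonpos h2, abs_of_nonneg (by linarith)]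
        linarith
      · refine ⟨Or.inr ⟨by linarith, h2⟩, ?_⟩
        rw [abs_of_nonneg h2, abs_of_nonpos (by linarith)]
        linarith)
    have h2 := mass_map f hf L' (P := fun ω => D ω ∧ S ω) (Q := fun ω => D ω ∧ |y ω| ≤ |x ω|) (by
      rintro ω ⟨hc, hs⟩
      simp only [hD, yL', xL' ω hs]
      rcases hc with ⟨h1, h2⟩ | ⟨h1, h2⟩
      · refine ⟨Or.inl ⟨h1, by linarith⟩, ?_⟩
        rw [abs_of_pos h1, abs_of_nonpos (by linarith)]
        linarith
      · refine ⟨Or.inr ⟨h1, by linarith⟩, ?_⟩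
        rw [abs_of_neg h1, abs_of_nonneg (by linarith)]
        linarith)
    have h3 := mass_add_le f hf (P := fun ω => D ω ∧ |x ω| < |y ω|)
      (Q := fun ω => D ω ∧ |y ω| ≤ |x ω|) (R := D) (fun ω h => h.1) (fun ω h => h.1)
      (fun ω h h' => absurd h'.2 (not_le.2 h.2))
    linarith
  have o1 := hout C
  have o2 := hout D
  have o3 : mass f (fun ω => C ω ∧ ¬ S ω) + mass f (fun ω => D ω ∧ ¬ S ω) ≤
      mass f (fun ω => ¬ (|x ω| < Real.pi / 2) ∨ ¬ (|y ω| < Real.pi / 2)) := by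
    apply mass_add_le f hf
    · rintro ω ⟨_, h⟩
      simp only [hS] at h
      tauto
    · rintro ω ⟨_, h⟩
      simp only [hS] at h
      tauto
    · rintro ω ⟨h, _⟩ ⟨h', _⟩
      simp only [hC] at h
      simp only [hD] at h'
      rcases h with h | h <;> rcases h' with h' | h' <;> linarith [h.1, h.2, h'.1, h'.2]
  have fin : ∑ ω, (if u ω = 1 ∧ v ω = 1 then 0 else f ω) ≤ mass f C + mass f D := by
    have e : ∑ ω, (if u ω = 1 ∧ v ω = 1 then 0 else f ω) =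
        mass f (fun ω => ¬ (u ω = 1 ∧ v ω = 1)) := by
      unfold mass
      apply Finset.sum_congr rfl
      intro ω _
      by_cases h : u ω = 1 ∧ v ω = 1
      · simp [h]
      · simp only [h, if_false, not_false_eq_true, if_true]
    rw [e]
    apply mass_le_add f hf
    intro ω h
    have hxy : ¬ (x ω = 0 ∧ y ω = 0) := by
      rintro ⟨h1, h2⟩
      exact h ⟨eq_one_of_arg (hu ω) h1, eq_one_of_arg (hv ω) h2⟩
    simp only [hC, hD]
    rcases lt_trichotomy (x ω) 0 with h1 | h1 | h1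
    · rcases le_or_gt (y ω) 0 with h2 | h2
      · exact Or.inl (Or.inr ⟨h1, h2⟩)
      · exact Or.inr (Or.inl ⟨h2, h1.le⟩)
    · rcases lt_trichotomy (y ω) 0 with h2 | h2 | h2
      · exact Or.inr (Or.inr ⟨h2, h1.ge⟩)
      · exact absurd ⟨h1, h2⟩ hxy
      · exact Or.inr (Or.inl ⟨h2, h1.le⟩)
    · rcases le_or_gt 0 (y ω) with h2 | h2
      · exact Or.inl (Or.inl ⟨h1, h2⟩)
      · exact Or.inr (Or.inr ⟨h2, h1.le⟩)
  linarith

end Pool.Agent.MP_ff6aad_an
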