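import Pool.Agent.MP_ff6aad_an.Defs

set_option autoImplicit false

open scoped ComplexConjugate InnerProductSpace

namespace Pool.Agent.MP_ff6aad_an

/-- the operator `diag(1,...,5) + i (b_{kl})` on a sum `K` of five copies of `H` -/
noncomputable def bigOp {H K : Type*} [NormedAddCommGroup H] [InnerProductSpace ℂ H]
    [CompleteSpace H] [NormedAddCommGroup K] [InnerProductSpace ℂ K] [CompleteSpace K]
    (V : Fin 5 → H →L[ℂ] K) (b : Fin 5 → Fin 5 → H →L[ℂ] H) : K →L[ℂ] K :=
  (∑ i : Fin 5, (((i : ℕ) : ℂ) + 1) • (V i).comp (ContinuousLinearMap.adjoint (V i))) +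
    Complex.I • ∑ i : Fin 5, ∑ j : Fin 5, (V i).comp ((b i j).comp (ContinuousLinearMap.adjoint (V j)))

section

variable {H : Type*} [NormedAddCommGroup H] [InnerProductSpace ℂ H] [CompleteSpace H]

/-- a self-adjoint operator which is almost idempotent is close to a projection -/
lemma compress_near (C : H →L[ℂ] H) (hC : IsSelfAdjoint C) (δ : ℝ) (hδ : ‖C - C * C‖ ≤ δ)
    (hδ1 : δ ≤ 1 / 16) : ∃ Q R : H →L[ℂ] H, Q * Q = Q ∧ IsSelfAdjoint Q ∧ ‖Q - C‖ ≤ 2 * δ ∧
      Q = C * R := by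
  have h0 : 0 ≤ δ := (norm_nonneg _).trans hδ
  have hsq : cfc (fun t : ℝ => t - t * t) C = C - C * C := by
    have h1 : cfc (fun t : ℝ => t) C = C := cfc_id ℝ C
    have h2 := cfc_sub (fun t : ℝ => t) (fun t : ℝ => t * t) C (by fun_prop) (by fun_prop)
    have h3 := cfc_mul (fun t : ℝ => t) (fun t : ℝ => t) C (by fun_prop) (by fun_prop)
    rw [h2, h3, h1]
  have hspec : ∀ t ∈ spectrum ℝ C, (t ≤ 2 * δ ∧ -(2 * δ) ≤ t) ∨ (t ≤ 1 + 2 * δ ∧ 1 - 2 * δ ≤ t) := by
    intro t ht
    have h1 := norm_apply_le_norm_cfc (fun t : ℝ => t - t * t) C ht (by fun_prop) hC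
    rw [hsq] at h1
    have h2 : |t - t * t| ≤ δ := h1.trans hδ
    rw [abs_le] at h2
    rcases le_or_gt (1 / 2) t with h3 | h3
    · right
      constructor <;> nlinarith
    · left
      constructor <;> nlinarith
  let f : ℝ → ℝ := fun t => max 0 (min 1 (2 * t - 1 / 2))
  have hf : Continuous f := by fun_prop
  have hfv : ∀ t ∈ spectrum ℝ C, (f t = 0 ∧ t ≤ 2 * δ ∧ -(2 * δ) ≤ t) ∨
      (f t = 1 ∧ t ≤ 1 + 2 * δ ∧ 1 - 2 * δ ≤ t) := by
    intro t ht
    rcases hspec t ht with h | h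
    · left
      refine ⟨?_, h⟩
      simp only [f]
      rw [max_eq_left]
      exact (min_le_right _ _).trans (by linarith)
    · right
      refine ⟨?_, h⟩
      simp only [f]
      rw [min_eq_left (by linarith), max_eq_right (by norm_num)]
  let g : ℝ → ℝ := fun t => f t / max t (1 / 4)
  have hg : Continuous g := by
    refine hf.div (by fun_prop) ?_
    intro t
    have : (1 / 4 : ℝ) ≤ max t (1 / 4) := le_max_right _ _
    linarith
  refine ⟨cfc f C, cfc g C, ?_, IsSelfAdjoint.cfc, ?_, ?_⟩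
  · rw [← cfc_mul f f C hf.continuousOn hf.continuousOn]
    refine cfc_congr ?_
    intro t ht
    rcases hfv t ht with h | h
    · simp only [h.1, mul_zero]
    · simp only [h.1, mul_one]
  · have h1 : cfc (fun t : ℝ => t) C = C := cfc_id ℝ C
    have h2 := cfc_sub f (fun t : ℝ => t) C hf.continuousOn (by fun_prop)
    rw [h1] at h2
    rw [← h2]
    refine norm_cfc_le (by linarith) ?_
    intro t ht
    rw [Real.norm_eq_abs, abs_le]
    rcases hfv t ht with h | h
    · rw [h.1]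
      constructor <;> linarith [h.2.1, h.2.2]
    · rw [h.1]
      constructor <;> linarith [h.2.1, h.2.2]
  · have h1 : cfc (fun t : ℝ => t) C = C := cfc_id ℝ C
    have h2 := cfc_mul (fun t : ℝ => t) g C (by fun_prop) hg.continuousOn
    rw [h1] at h2
    rw [← h2]
    refine cfc_congr ?_
    intro t ht
    rcases hfv t ht with h | h
    · simp only [g, h.1, zero_div, mul_zero]
    · have h3 : (1 / 4 : ℝ) ≤ t := by linarith [h.2.2]
      simp only [g, h.1, max_eq_left h3]
      field_simp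

end

section

variable {H K : Type*} [NormedAddCommGroup H] [InnerProductSpace ℂ H]
    [CompleteSpace H] [NormedAddCommGroup K] [InnerProductSpace ℂ K] [CompleteSpace K]

lemma compress_norm_le {V : Fin 5 → H →L[ℂ] K}
    (hV : ∀ i j, (ContinuousLinearMap.adjoint (V i)).comp (V j) = if i = j then 1 else 0)
    (i : Fin 5) : ‖V i‖ ≤ 1 := by
  refine ContinuousLinearMap.opNorm_le_bound _ zero_le_one ?_
  intro x
  have h1 : ⟪V i x, V i x⟫_ℂ = ⟪x, x⟫_ℂ := by
    rw [← ContinuousLinearMap.adjoint_inner_left]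
    have h2 := congrArg (fun T : H →L[ℂ] H => T x) (hV i i)
    simp only [if_true, ContinuousLinearMap.comp_apply, one_apply_eq_self] at h2
    rw [h2]
  have h3 : ‖V i x‖ ^ 2 = ‖x‖ ^ 2 := by
    have h4 := inner_self_eq_norm_sq_to_K (𝕜 := ℂ) (V i x)
    have h5 := inner_self_eq_norm_sq_to_K (𝕜 := ℂ) x
    rw [h1, h5] at h4
    exact_mod_cast h4.symm
  have h6 : ‖V i x‖ = ‖x‖ := by
    rwa [sq_eq_sq₀ (norm_nonneg _) (norm_nonneg _)] at h3
  rw [h6, one_mul]

lemma compress_norm_le' {V : Fin 5 → H →L[ℂ] K}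
    (hV : ∀ i j, (ContinuousLinearMap.adjoint (V i)).comp (V j) = if i = j then 1 else 0)
    (i : Fin 5) : ‖ContinuousLinearMap.adjoint (V i)‖ ≤ 1 := by
  rw [LinearIsometryEquiv.norm_map]
  exact compress_norm_le hV i

omit [CompleteSpace H] [CompleteSpace K] in
lemma compress_triple (S : K →L[ℂ] H) (T : K →L[ℂ] K) (U : H →L[ℂ] K) (hS : ‖S‖ ≤ 1)
    (hU : ‖U‖ ≤ 1) (ε : ℝ) (hT : ‖T‖ ≤ ε) : ‖S.comp (T.comp U)‖ ≤ ε := by
  have h0 : 0 ≤ ε := (norm_nonneg _).trans hT
  calc ‖S.comp (T.comp U)‖ ≤ ‖S‖ * ‖T.comp U‖ := ContinuousLinearMap.opNorm_comp_le _ _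
    _ ≤ ‖S‖ * (‖T‖ * ‖U‖) := by gcongr; exact ContinuousLinearMap.opNorm_comp_le _ _
    _ ≤ 1 * (ε * 1) := by gcongr
    _ = ε := by ring

omit [CompleteSpace H] [CompleteSpace K] in
lemma compress_triple' (S : H →L[ℂ] K) (T : H →L[ℂ] H) (U : K →L[ℂ] H) (hS : ‖S‖ ≤ 1)
    (hU : ‖U‖ ≤ 1) (ε : ℝ) (hT : ‖T‖ ≤ ε) : ‖S.comp (T.comp U)‖ ≤ ε := by
  have h0 : 0 ≤ ε := (norm_nonneg _).trans hT
  calc ‖S.comp (T.comp U)‖ ≤ ‖S‖ * ‖T.comp U‖ := ContinuousLinearMap.opNorm_comp_le _ _
    _ ≤ ‖S‖ * (‖T‖ * ‖U‖) := by gcongr; exact ContinuousLinearMap.opNorm_comp_le _ _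
    _ ≤ 1 * (ε * 1) := by gcongr
    _ = ε := by ring

lemma compress_star (A P : K →L[ℂ] K) (hPs : ContinuousLinearMap.adjoint P = P) (ε : ℝ)
    (hε : ‖A * P - P * A‖ ≤ ε) :
    ‖star A * P - P * star A‖ ≤ ε := by
  have hP : star P = P := hPs
  have h1 : star (A * P - P * A) = -(star A * P - P * star A) := by
    rw [star_sub, star_mul, star_mul, hP]
    abel
  rw [← norm_neg, ← h1, norm_star]
  exact hε

/-- commutators with the two parts of `bigOp` -/
lemma compress_parts (D B P : K →L[ℂ] K) (hD : star D = D) (hB : star B = B)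
    (hPs : ContinuousLinearMap.adjoint P = P) (ε : ℝ)
    (hε : ‖(D + Complex.I • B) * P - P * (D + Complex.I • B)‖ ≤ ε) :
    ‖D * P - P * D‖ ≤ ε ∧ ‖B * P - P * B‖ ≤ ε := by
  have h2 := compress_star _ P hPs ε hε
  have h3 : star (D + Complex.I • B) = D - Complex.I • B := by
    rw [star_add, star_smul, hD, hB]
    simp [sub_eq_add_neg]
  rw [h3] at h2
  constructor
  · have e : (2 : ℂ) • (D * P - P * D) = ((D + Complex.I • B) * P - P * (D + Complex.I • B)) +
        ((D - Complex.I • B) * P - P * (D - Complex.I • B)) := by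
      rw [two_smul, add_mul, mul_add, sub_mul, mul_sub]
      abel
    have h4 : ‖(2 : ℂ) • (D * P - P * D)‖ ≤ ε + ε := by
      rw [e]
      exact (norm_add_le _ _).trans (add_le_add hε h2)
    rw [norm_smul] at h4
    norm_num at h4
    linarith
  · have e : (2 * Complex.I) • (B * P - P * B) =
        ((D + Complex.I • B) * P - P * (D + Complex.I • B)) -
        ((D - Complex.I • B) * P - P * (D - Complex.I • B)) := by
      rw [mul_smul, two_smul, add_mul, mul_add, sub_mul, mul_sub, smul_sub, smul_mul_assoc,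
        mul_smul_comm]
      abel
    have h4 : ‖(2 * Complex.I) • (B * P - P * B)‖ ≤ ε + ε := by
      rw [e]
      exact (norm_sub_le _ _).trans (add_le_add hε h2)
    rw [norm_smul] at h4
    norm_num at h4
    linarith

variable (V : Fin 5 → H →L[ℂ] K) (b : Fin 5 → Fin 5 → H →L[ℂ] H)

/-- the diagonal part -/
noncomputable def cmpD : K →L[ℂ] K :=
  ∑ i : Fin 5, (((i : ℕ) : ℂ) + 1) • (V i).comp (ContinuousLinearMap.adjoint (V i))

/-- the other part -/
noncomputable def cmpB : K →L[ℂ] K :=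
  ∑ i : Fin 5, ∑ j : Fin 5, (V i).comp ((b i j).comp (ContinuousLinearMap.adjoint (V j)))

lemma bigOp_eq : bigOp V b = cmpD V + Complex.I • cmpB V b := rfl

/-- the entries of an operator -/
noncomputable def ent (T : K →L[ℂ] K) (i j : Fin 5) : H →L[ℂ] H :=
  (ContinuousLinearMap.adjoint (V i)).comp (T.comp (V j))

lemma star_cmpD : star (cmpD V) = cmpD V := by
  unfold cmpD
  rw [star_sum]
  refine Finset.sum_congr rfl fun i _ => ?_
  rw [star_smul, ContinuousLinearMap.star_eq_adjoint, ContinuousLinearMap.adjoint_comp,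
    ContinuousLinearMap.adjoint_adjoint]
  congr 1
  simp

lemma star_cmpB (hb : ∀ i j, ContinuousLinearMap.adjoint (b i j) = b j i) :
    star (cmpB V b) = cmpB V b := by
  unfold cmpB
  rw [star_sum]
  simp only [star_sum, ContinuousLinearMap.star_eq_adjoint, ContinuousLinearMap.adjoint_comp,
    ContinuousLinearMap.adjoint_adjoint, hb]
  rw [Finset.sum_comm]
  refine Finset.sum_congr rfl fun i _ => Finset.sum_congr rfl fun j _ => ?_
  rfl

variable {V} {b}

lemma WV (hV : ∀ i j, (ContinuousLinearMap.adjoint (V i)).comp (V j) = if i = j then 1 else 0)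
    (i j : Fin 5) (x : H) :
    ContinuousLinearMap.adjoint (V i) (V j x) = if i = j then x else 0 := by
  have h := congrArg (fun T : H →L[ℂ] H => T x) (hV i j)
  simp only [ContinuousLinearMap.comp_apply] at h
  rw [h]
  split_ifs <;> simp

lemma VW (hV1 : ∑ i, (V i).comp (ContinuousLinearMap.adjoint (V i)) = 1) (x : K) :
    ∑ i, V i (ContinuousLinearMap.adjoint (V i) x) = x := by
  have h := congrArg (fun T : K →L[ℂ] K => T x) hV1
  simpa using h

lemma W_cmpD (hV : ∀ i j, (ContinuousLinearMap.adjoint (V i)).comp (V j) = if i = j then 1 else 0)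
    (i : Fin 5) (x : K) : ContinuousLinearMap.adjoint (V i) (cmpD V x) =
      (((i : ℕ) : ℂ) + 1) • ContinuousLinearMap.adjoint (V i) x := by
  unfold cmpD
  simp only [sum_apply, smul_apply,
    ContinuousLinearMap.comp_apply, map_sum, map_smul, WV hV]
  simp

lemma cmpD_V (hV : ∀ i j, (ContinuousLinearMap.adjoint (V i)).comp (V j) = if i = j then 1 else 0)
    (i : Fin 5) (x : H) : cmpD V (V i x) = (((i : ℕ) : ℂ) + 1) • V i x := by
  unfold cmpD
  simp only [sum_apply, smul_apply,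
    ContinuousLinearMap.comp_apply, WV hV]
  rw [Finset.sum_eq_single i]
  · simp
  · intro j _ hj
    simp [hj]
  · simp

lemma W_cmpB (hV : ∀ i j, (ContinuousLinearMap.adjoint (V i)).comp (V j) = if i = j then 1 else 0)
    (i : Fin 5) (x : K) : ContinuousLinearMap.adjoint (V i) (cmpB V b x) =
      ∑ k, b i k (ContinuousLinearMap.adjoint (V k) x) := by
  unfold cmpB
  simp only [sum_apply, ContinuousLinearMap.comp_apply, map_sum, WV hV]
  rw [Finset.sum_eq_single i]
  · simp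
  · intro j _ hj
    simp [hj.symm]
  · simp

lemma cmpB_V (hV : ∀ i j, (ContinuousLinearMap.adjoint (V i)).comp (V j) = if i = j then 1 else 0)
    (j : Fin 5) (x : H) : cmpB V b (V j x) = ∑ k, V k (b k j x) := by
  unfold cmpB
  simp only [sum_apply, ContinuousLinearMap.comp_apply, WV hV]
  refine Finset.sum_congr rfl fun i _ => ?_
  rw [Finset.sum_eq_single j]
  · simp
  · intro k _ hk
    simp [hk]
  · simp

lemma ent_comm_D (hV : ∀ i j, (ContinuousLinearMap.adjoint (V i)).comp (V j) =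
    if i = j then 1 else 0) (P : K →L[ℂ] K) (i j : Fin 5) :
    ent V (cmpD V * P - P * cmpD V) i j = (((i : ℕ) : ℂ) - ((j : ℕ) : ℂ)) • ent V P i j := by
  ext x
  simp only [ent, ContinuousLinearMap.comp_apply, sub_apply,
    mul_apply_eq_comp, map_sub, W_cmpD hV, cmpD_V hV, map_smul,
    smul_apply]
  rw [← sub_smul]
  congr 1
  ring

lemma ent_comm_B (hV : ∀ i j, (ContinuousLinearMap.adjoint (V i)).comp (V j) =
    if i = j then 1 else 0) (P : K →L[ℂ] K) (i j : Fin 5) :
    ent V (cmpB V b * P - P * cmpB V b) i j =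
      ∑ k, b i k * ent V P k j - ∑ k, ent V P i k * b k j := by
  ext x
  simp only [ent, ContinuousLinearMap.comp_apply, sub_apply,
    mul_apply_eq_comp, map_sub, W_cmpB hV, cmpB_V hV, map_sum,
    sum_apply]

lemma ent_mul (hV1 : ∑ i, (V i).comp (ContinuousLinearMap.adjoint (V i)) = 1)
    (S T : K →L[ℂ] K) (i j : Fin 5) :
    ent V (S * T) i j = ∑ k, ent V S i k * ent V T k j := by
  ext x
  simp only [ent, ContinuousLinearMap.comp_apply, mul_apply_eq_comp, sum_apply]
  rw [← map_sum, ← map_sum, VW hV1]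

lemma sum_ent (hV1 : ∑ i, (V i).comp (ContinuousLinearMap.adjoint (V i)) = 1)
    (P : K →L[ℂ] K) :
    P = ∑ i, ∑ j, (V i).comp ((ent V P i j).comp (ContinuousLinearMap.adjoint (V j))) := by
  ext x
  simp only [ent, ContinuousLinearMap.comp_apply, sum_apply]
  have h : ∀ i, ∑ j, V i (ContinuousLinearMap.adjoint (V i) (P (V j
      (ContinuousLinearMap.adjoint (V j) x)))) = V i (ContinuousLinearMap.adjoint (V i) (P x)) := by
    intro i
    rw [← map_sum, ← map_sum, ← map_sum, VW hV1]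
  simp only [h]
  rw [VW hV1]

end

/-- Task C.  From a projection on `K` almost commuting with `bigOp V b` to a projection on `H`
almost commuting with all the entries `b i j`. -/
theorem compress {H K : Type*} [NormedAddCommGroup H] [InnerProductSpace ℂ H]
    [CompleteSpace H] [NormedAddCommGroup K] [InnerProductSpace ℂ K] [CompleteSpace K]
    (V : Fin 5 → H →L[ℂ] K) (b : Fin 5 → Fin 5 → H →L[ℂ] H)
    (hV : ∀ i j, (ContinuousLinearMap.adjoint (V i)).comp (V j) = if i = j then 1 else 0)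
    (hV1 : ∑ i, (V i).comp (ContinuousLinearMap.adjoint (V i)) = 1)
    (hb : ∀ i j, ContinuousLinearMap.adjoint (b i j) = b j i)
    (hb1 : ∀ i j, ‖b i j‖ ≤ 1) (hb0 : ∀ j, j ≠ 0 → b 0 j = 1)
    (P : K →L[ℂ] K) (hP : P * P = P) (hPs : ContinuousLinearMap.adjoint P = P) (hP0 : P ≠ 0)
    (hPf : FiniteDimensional ℂ (LinearMap.range (P : K →ₗ[ℂ] K)))
    (hε : ‖bigOp V b * P - P * bigOp V b‖ ≤ 1 / 1000000) :
    ∃ Q : H →L[ℂ] H, Q * Q = Q ∧ ContinuousLinearMap.adjoint Q = Q ∧ Q ≠ 0 ∧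
      FiniteDimensional ℂ (LinearMap.range (Q : H →ₗ[ℂ] H)) ∧
      ∀ i j, ‖b i j * Q - Q * b i j‖ ≤ 1 / 1000 := by
  rw [bigOp_eq] at hε
  obtain ⟨h1, h2⟩ := compress_parts _ _ P (star_cmpD V) (star_cmpB V b hb) hPs _ hε
  set ε : ℝ := 1 / 1000000 with hεdef
  have hε0 : 0 ≤ ε := by norm_num [hεdef]
  set p : Fin 5 → Fin 5 → H →L[ℂ] H := ent V P with hp
  have hent : ∀ (T : K →L[ℂ] K) (δ : ℝ) (i j : Fin 5), ‖T‖ ≤ δ → ‖ent V T i j‖ ≤ δ :=
    fun T δ i j hT => compress_triple _ _ _ (compress_norm_le' hV i) (compress_norm_le hV j) δ hT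
  have hoff : ∀ i j : Fin 5, i ≠ j → ‖p i j‖ ≤ ε := by
    intro i j hij
    have h3 := hent _ ε i j h1
    rw [ent_comm_D hV, norm_smul] at h3
    have h4 : (1 : ℝ) ≤ ‖(((i : ℕ) : ℂ) - ((j : ℕ) : ℂ))‖ := by
      have h5 : ((i : ℕ) : ℤ) - ((j : ℕ) : ℤ) ≠ 0 := by
        intro h
        apply hij
        apply Fin.ext
        omega
      have h6 : (1 : ℤ) ≤ |((i : ℕ) : ℤ) - ((j : ℕ) : ℤ)| := Int.one_le_abs h5
      have h7 : (((i : ℕ) : ℂ) - ((j : ℕ) : ℂ)) = (((((i : ℕ) : ℤ) - ((j : ℕ) : ℤ) : ℤ)) : ℂ) := by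
        push_cast
        ring
      rw [h7, Complex.norm_intCast]
      exact_mod_cast h6
    have h5 := norm_nonneg (ent V P i j)
    have h6 : ‖ent V P i j‖ ≤ ‖(((i : ℕ) : ℂ) - ((j : ℕ) : ℂ))‖ * ‖ent V P i j‖ :=
      le_mul_of_one_le_left h5 h4
    exact h6.trans h3
  have hmul1 : ∀ (a : H →L[ℂ] H) (i j : Fin 5) (δ : ℝ), ‖a‖ ≤ δ → ‖b i j * a‖ ≤ δ := by
    intro a i j δ ha
    calc ‖b i j * a‖ ≤ ‖b i j‖ * ‖a‖ := norm_mul_le _ _
      _ ≤ 1 * δ := mul_le_mul (hb1 i j) ha (norm_nonneg _) zero_le_one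
      _ = δ := one_mul _
  have hmul2 : ∀ (a : H →L[ℂ] H) (i j : Fin 5) (δ : ℝ), ‖a‖ ≤ δ → ‖a * b i j‖ ≤ δ := by
    intro a i j δ ha
    have hδ : 0 ≤ δ := (norm_nonneg _).trans ha
    calc ‖a * b i j‖ ≤ ‖a‖ * ‖b i j‖ := norm_mul_le _ _
      _ ≤ δ * 1 := mul_le_mul ha (hb1 i j) (norm_nonneg _) hδ
      _ = δ := mul_one _
  have hB : ∀ i j : Fin 5, ‖b i j * p j j - p i i * b i j‖ ≤ 9 * ε := by
    intro i j
    have h3 := hent _ ε i j h2
    rw [ent_comm_B hV] at h3
    have e1 : ∑ k, b i k * p k j = b i j * p j j + ∑ k ∈ Finset.univ.erase j, b i k * p k j :=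
      (Finset.add_sum_erase _ _ (Finset.mem_univ j)).symm
    have e2 : ∑ k, p i k * b k j = p i i * b i j + ∑ k ∈ Finset.univ.erase i, p i k * b k j :=
      (Finset.add_sum_erase _ _ (Finset.mem_univ i)).symm
    rw [e1, e2] at h3
    have h4 : ‖∑ k ∈ Finset.univ.erase j, b i k * p k j‖ ≤ 4 * ε := by
      refine (norm_sum_le_of_le _ (f := fun k => b i k * p k j) (n := fun _ => ε) ?_).trans ?_
      · intro k hk
        exact hmul1 _ _ _ _ (hoff k j (Finset.ne_of_mem_erase hk))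
      · simp
    have h5 : ‖∑ k ∈ Finset.univ.erase i, p i k * b k j‖ ≤ 4 * ε := by
      refine (norm_sum_le_of_le _ (f := fun k => p i k * b k j) (n := fun _ => ε) ?_).trans ?_
      · intro k hk
        exact hmul2 _ _ _ _ (hoff i k (Finset.ne_of_mem_erase hk).symm)
      · simp
    have e3 : b i j * p j j - p i i * b i j =
        ((b i j * p j j + ∑ k ∈ Finset.univ.erase j, b i k * p k j) -
          (p i i * b i j + ∑ k ∈ Finset.univ.erase i, p i k * b k j)) -
        (∑ k ∈ Finset.univ.erase j, b i k * p k j) +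
        (∑ k ∈ Finset.univ.erase i, p i k * b k j) := by abel
    rw [e3]
    refine (norm_add_le _ _).trans ?_
    have h6 := norm_sub_le ((b i j * p j j + ∑ k ∈ Finset.univ.erase j, b i k * p k j) -
          (p i i * b i j + ∑ k ∈ Finset.univ.erase i, p i k * b k j))
          (∑ k ∈ Finset.univ.erase j, b i k * p k j)
    linarith
  have hdiag : ∀ j : Fin 5, ‖p j j - p 0 0‖ ≤ 9 * ε := by
    intro j
    rcases eq_or_ne j 0 with rfl | hj
    · rw [sub_self, norm_zero]
      linarith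
    · have h3 := hB 0 j
      rw [hb0 j hj, one_mul, mul_one] at h3
      exact h3
  have hdiag' : ∀ j : Fin 5, ‖p 0 0 - p j j‖ ≤ 9 * ε := fun j => by
    rw [norm_sub_rev]
    exact hdiag j
  set C := p 0 0 with hC
  have hcomm : ∀ i j, ‖b i j * C - C * b i j‖ ≤ 27 * ε := by
    intro i j
    have e : b i j * C - C * b i j = b i j * (C - p j j) + (b i j * p j j - p i i * b i j) +
        (p i i - C) * b i j := by
      rw [mul_sub, sub_mul]
      abel
    rw [e]
    have h3 := norm_add₃_le (a := b i j * (C - p j j)) (b := b i j * p j j - p i i * b i j)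
      (c := (p i i - C) * b i j)
    have h4 := hmul1 _ i j _ (hdiag' j)
    have h5 := hmul2 _ i j _ (hdiag i)
    have h6 := hB i j
    linarith
  have hCsa : IsSelfAdjoint C := by
    have : star C = C := by
      rw [hC, hp]
      unfold ent
      rw [ContinuousLinearMap.star_eq_adjoint, ContinuousLinearMap.adjoint_comp,
        ContinuousLinearMap.adjoint_comp, ContinuousLinearMap.adjoint_adjoint, hPs]
      rfl
    exact this
  have hCC : ‖C - C * C‖ ≤ 4 * (ε * ε) := by
    have e1 : C = ∑ k, p 0 k * p k 0 := by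
      have h3 := ent_mul hV1 P P 0 0
      rw [hP] at h3
      exact h3
    have e2 : ∑ k, p 0 k * p k 0 = C * C + ∑ k ∈ Finset.univ.erase 0, p 0 k * p k 0 :=
      (Finset.add_sum_erase _ _ (Finset.mem_univ 0)).symm
    have e3 : C - C * C = ∑ k ∈ Finset.univ.erase 0, p 0 k * p k 0 := by
      rw [sub_eq_iff_eq_add', ← e2]
      exact e1
    rw [e3]
    refine (norm_sum_le_of_le _ (f := fun k => p 0 k * p k 0) (n := fun _ => ε * ε) ?_).trans ?_
    · intro k hk
      have hk0 := Finset.ne_of_mem_erase hk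
      exact (norm_mul_le _ _).trans (mul_le_mul (hoff 0 k hk0.symm) (hoff k 0 hk0)
        (norm_nonneg _) hε0)
    · simp
  obtain ⟨Q, R, hQ1, hQ2, hQ3, hQ4⟩ := compress_near C hCsa _ hCC (by norm_num [hεdef])
  refine ⟨Q, hQ1, hQ2, ?_, ?_, ?_⟩
  · rintro rfl
    have h3 : ‖C‖ ≤ 2 * (4 * (ε * ε)) := by
      rw [zero_sub, norm_neg] at hQ3
      exact hQ3
    have h4 : ∀ i j, ‖p i j‖ ≤ 2 * (4 * (ε * ε)) + 9 * ε := by
      intro i j
      rcases eq_or_ne i j with rfl | hij
      · have h5 : p i i = C + (p i i - C) := by abel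
        rw [h5]
        exact (norm_add_le _ _).trans (add_le_add h3 (hdiag i))
      · have h6 : 0 ≤ ε * ε := mul_nonneg hε0 hε0
        have h7 := hoff i j hij
        linarith
    have h5 : ‖P‖ ≤ 25 * (2 * (4 * (ε * ε)) + 9 * ε) := by
      rw [sum_ent hV1 P]
      refine (norm_sum_le_of_le _ (n := fun _ => 5 * (2 * (4 * (ε * ε)) + 9 * ε)) ?_).trans ?_
      · intro i _
        refine (norm_sum_le_of_le _ (n := fun _ => (2 * (4 * (ε * ε)) + 9 * ε)) ?_).trans ?_
        · intro j _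
          exact compress_triple' _ _ _ (compress_norm_le hV i) (compress_norm_le' hV j) _ (h4 i j)
        · simp only [Finset.sum_const, Finset.card_univ, Fintype.card_fin, nsmul_eq_mul]
          push_cast
          linarith
      · simp only [Finset.sum_const, Finset.card_univ, Fintype.card_fin, nsmul_eq_mul]
        push_cast
        linarith
    have h6 : ‖P‖ < 1 := lt_of_le_of_lt h5 (by norm_num [hεdef])
    have h7 : ‖P‖ ≤ ‖P‖ * ‖P‖ := by
      calc ‖P‖ = ‖P * P‖ := by rw [hP]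
        _ ≤ ‖P‖ * ‖P‖ := norm_mul_le _ _
    have h8 : 0 < ‖P‖ := norm_pos_iff.2 hP0
    nlinarith
  · have h3 : LinearMap.range (Q : H →ₗ[ℂ] H) ≤ (LinearMap.range (P : K →ₗ[ℂ] K)).map
        ((ContinuousLinearMap.adjoint (V 0) : K →L[ℂ] H) : K →ₗ[ℂ] H) := by
      rintro _ ⟨x, rfl⟩
      refine ⟨P (V 0 (R x)), ⟨_, rfl⟩, ?_⟩
      rw [hQ4]
      rfl
    exact Submodule.finiteDimensional_of_le h3
  · intro i j
    have e : b i j * Q - Q * b i j = b i j * (Q - C) + (b i j * C - C * b i j) -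
        (Q - C) * b i j := by
      rw [mul_sub, sub_mul]
      abel
    rw [e]
    have h3 := norm_sub_le (b i j * (Q - C) + (b i j * C - C * b i j)) ((Q - C) * b i j)
    have h4 := norm_add_le (b i j * (Q - C)) (b i j * C - C * b i j)
    have h5 := hmul1 _ i j _ hQ3
    have h6 := hmul2 _ i j _ hQ3
    have h7 := hcomm i j
    exact (h3.trans (add_le_add (h4.trans (add_le_add h5 h7)) h6)).trans (by norm_num [hεdef])

end Pool.Agent.MP_ff6aad_an
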