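import Mathlib

set_option autoImplicit false

open scoped ComplexConjugate

namespace Pool.Agent.MP_ff6aad_an

/-- Squared Hilbert-Schmidt norm of a finite array. -/
noncomputable def hs {α : Type*} [Fintype α] (x : α → ℂ) : ℝ := ∑ i, ‖x i‖ ^ 2

/-- `q(j) = j(j-1)/2` in `ZMod N`. -/
def qq (N : ℕ) (j : ZMod N) : ZMod N := j * (j - 1) * (2 : ZMod N)⁻¹

section

variable (N M : ℕ) [NeZero N] [NeZero M]

/-- the diagonal entries of the operator `T` of size `N` -/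
noncomputable def tph (j : ZMod N) : ℂ := ZMod.stdAddChar (qq N j)

/-- `x ↦ X x X⁻¹`, where `X e_j = e_{j+1}` -/
def actX (x : ZMod N × ZMod M → ℂ) : ZMod N × ZMod M → ℂ := fun p => x (p.1 - 1, p.2 - 1)

/-- `x ↦ T x T⁻¹`, where `T e_j = ψ(q(j)) e_j` -/
noncomputable def actT (x : ZMod N × ZMod M → ℂ) : ZMod N × ZMod M → ℂ :=
  fun p => tph N p.1 * conj (tph M p.2) * x p

/-- `x ↦ S x S⁻¹`, where `S e_j = N^{-1/2} ∑_k ψ(jk) e_k` -/
noncomputable def actS (x : ZMod N × ZMod M → ℂ) : ZMod N × ZMod M → ℂ :=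
  fun p => ((1 / (√N * √M) : ℝ) : ℂ) *
    ∑ r : ZMod N × ZMod M,
      (ZMod.stdAddChar (p.1 * r.1) : ℂ) * conj (ZMod.stdAddChar (p.2 * r.2) : ℂ) * x r

end

end Pool.Agent.MP_ff6aad_an
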