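import Pool.Agent.MP_ff6aad_an.Defs

set_option autoImplicit false

open scoped ComplexConjugate InnerProductSpace Topology
open Filter

namespace Pool.Agent.MP_ff6aad_an

namespace TaskF

variable {J K : Type*} [NormedAddCommGroup K] [InnerProductSpace ℂ K]

/-- normalised trace over a finite set of indices. -/
noncomputable def tr (e : J → K) (G : Finset J) (B : K →L[ℂ] K) : ℂ :=
  ((G.card : ℝ)⁻¹ : ℂ) * ∑ β ∈ G, ⟪e β, B (e β)⟫_ℂ

theorem tr_add (e : J → K) (G : Finset J) (B C : K →L[ℂ] K) :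
    tr e G (B + C) = tr e G B + tr e G C := by
  simp [tr, Finset.sum_add_distrib, mul_add]

theorem tr_smul (e : J → K) (G : Finset J) (c : ℂ) (B : K →L[ℂ] K) :
    tr e G (c • B) = c * tr e G B := by
  simp only [tr, smul_apply, inner_smul_right, ← Finset.mul_sum]
  ring

theorem norm_tr_le {e : J → K} (he : ∀ β, ‖e β‖ = 1) (G : Finset J) (B : K →L[ℂ] K) :
    ‖tr e G B‖ ≤ ‖B‖ := by
  have h1 : ‖∑ β ∈ G, ⟪e β, B (e β)⟫_ℂ‖ ≤ G.card * ‖B‖ := by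
    refine (norm_sum_le _ _).trans ?_
    rw [← nsmul_eq_mul, ← Finset.sum_const]
    refine Finset.sum_le_sum (fun β _ => ?_)
    refine (norm_inner_le_norm _ _).trans ?_
    rw [he β, one_mul]
    refine (B.le_opNorm _).trans ?_
    rw [he β, mul_one]
  rw [tr, norm_mul]
  rcases Nat.eq_zero_or_pos G.card with h0 | h0
  · simp [h0]
  · have h2 : (0 : ℝ) < G.card := by exact_mod_cast h0
    have h3 : ‖(((G.card : ℝ) : ℂ)⁻¹)‖ = (G.card : ℝ)⁻¹ := by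
      rw [norm_inv]; simp
    rw [h3]
    calc (G.card : ℝ)⁻¹ * ‖∑ β ∈ G, ⟪e β, B (e β)⟫_ℂ‖ ≤ (G.card : ℝ)⁻¹ * (G.card * ‖B‖) := by
          gcongr
      _ = ‖B‖ := by field_simp

theorem tr_one {e : J → K} (he : ∀ β, ‖e β‖ = 1) (G : Finset J) (hG : 0 < G.card) :
    tr e G 1 = 1 := by
  have h1 : ∀ β ∈ G, ⟪e β, (1 : K →L[ℂ] K) (e β)⟫_ℂ = 1 := by
    intro β _
    rw [one_apply_eq_self, inner_self_eq_norm_sq_to_K, he β]; simp
  have h2 : (G.card : ℂ) ≠ 0 := by exact_mod_cast hG.ne'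
  rw [tr, Finset.sum_congr rfl h1]
  simp [h2]

/-- diagonal entries of a compact operator tend to zero. -/
theorem diag_tendsto [CompleteSpace K] {e : J → K} (he : Orthonormal ℂ e) (T : K →L[ℂ] K)
    (hT : IsCompactOperator T) :
    Tendsto (fun β => T (e β)) cofinite (𝓝 0) := by
  -- weak convergence
  have hweak : ∀ z : K, Tendsto (fun β => ⟪z, T (e β)⟫_ℂ) cofinite (𝓝 0) := by
    intro z
    have h1 : Summable (fun β => ‖⟪e β, (ContinuousLinearMap.adjoint T) z⟫_ℂ‖ ^ 2) :=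
      he.inner_products_summable _
    have h2 := h1.tendsto_cofinite_zero
    have h3 : Tendsto (fun β => Real.sqrt (‖⟪e β, (ContinuousLinearMap.adjoint T) z⟫_ℂ‖ ^ 2))
        cofinite (𝓝 (Real.sqrt 0)) := (Real.continuous_sqrt.tendsto 0).comp h2
    rw [Real.sqrt_zero] at h3
    rw [tendsto_zero_iff_norm_tendsto_zero]
    refine h3.congr (fun β => ?_)
    rw [Real.sqrt_sq (norm_nonneg _), norm_inner_symm, ContinuousLinearMap.adjoint_inner_left]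
  rw [tendsto_iff_ultrafilter]
  intro U hU
  obtain ⟨C, hC, hCT⟩ := hT.image_closedBall_subset_compact (f := (T : K →ₗ[ℂ] K)) 1
  have hmem : ∀ β, T (e β) ∈ C := by
    intro β
    apply hCT
    refine ⟨e β, ?_, rfl⟩
    simp [he.1 β]
  obtain ⟨y, hyC, hy⟩ := hC.ultrafilter_le_nhds (U.map (fun β => T (e β))) (by
    rw [Ultrafilter.coe_map, le_principal_iff]
    exact Filter.mem_map.2 (Filter.univ_mem' hmem))
  have hy' : Tendsto (fun β => T (e β)) U (𝓝 y) := hy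
  have hz : ∀ z : K, ⟪z, y⟫_ℂ = 0 := by
    intro z
    have h1 : Tendsto (fun β => ⟪z, T (e β)⟫_ℂ) U (𝓝 ⟪z, y⟫_ℂ) :=
      ((continuous_const.inner continuous_id).tendsto y).comp hy'
    exact tendsto_nhds_unique h1 ((hweak z).mono_left hU)
  have : y = 0 := by
    have := hz y
    exact inner_self_eq_zero.1 this
  rw [this] at hy'
  exact hy'

/-- Cauchy-Schwarz/Bessel bound. -/
theorem bessel_bound [CompleteSpace K] {e : J → K} (he : Orthonormal ℂ e) (G : Finset J)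
    (A X : K →L[ℂ] K) (γ : J) :
    ‖∑ β ∈ G, ⟪e β, A (e γ)⟫_ℂ * ⟪e γ, X (e β)⟫_ℂ‖ ≤ ‖A‖ * ‖X‖ := by
  have hA : ∑ β ∈ G, ‖⟪e β, A (e γ)⟫_ℂ‖ ^ 2 ≤ ‖A‖ ^ 2 := by
    refine (he.sum_inner_products_le _).trans ?_
    have : ‖A (e γ)‖ ≤ ‖A‖ := by
      have := A.le_opNorm (e γ)
      rwa [he.1 γ, mul_one] at this
    gcongr
  have hX : ∑ β ∈ G, ‖⟪e γ, X (e β)⟫_ℂ‖ ^ 2 ≤ ‖X‖ ^ 2 := by
    have h1 : ∀ β ∈ G, ‖⟪e γ, X (e β)⟫_ℂ‖ ^ 2 =
        ‖⟪e β, (ContinuousLinearMap.adjoint X) (e γ)⟫_ℂ‖ ^ 2 := by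
      intro β _
      rw [← ContinuousLinearMap.adjoint_inner_left, norm_inner_symm]
    rw [Finset.sum_congr rfl h1]
    refine (he.sum_inner_products_le _).trans ?_
    have : ‖(ContinuousLinearMap.adjoint X) (e γ)‖ ≤ ‖X‖ := by
      have := (ContinuousLinearMap.adjoint X).le_opNorm (e γ)
      rwa [he.1 γ, mul_one, LinearIsometryEquiv.norm_map] at this
    gcongr
  refine (norm_sum_le _ _).trans ?_
  simp only [norm_mul]
  have hcs := Finset.sum_mul_sq_le_sq_mul_sq G (fun β => ‖⟪e β, A (e γ)⟫_ℂ‖)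
    (fun β => ‖⟪e γ, X (e β)⟫_ℂ‖)
  have h2 : (∑ β ∈ G, ‖⟪e β, A (e γ)⟫_ℂ‖ * ‖⟪e γ, X (e β)⟫_ℂ‖) ^ 2 ≤ (‖A‖ * ‖X‖) ^ 2 := by
    refine hcs.trans ?_
    rw [mul_pow]
    gcongr
  exact (le_abs_self _).trans (abs_le_of_sq_le_sq h2 (by positivity))

/-- the commutator estimate. -/
theorem comm_bound [CompleteSpace K] [DecidableEq J] (e : HilbertBasis J ℂ K)
    (G G' : Finset J) (hG : G ⊆ G') (A X : K →L[ℂ] K)
    (hA : ∀ β ∈ G, ∀ γ, γ ∉ G' → ⟪e β, A (e γ)⟫_ℂ = 0 ∧ ⟪e γ, A (e β)⟫_ℂ = 0) :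
    ‖∑ β ∈ G, ⟪e β, (A * X - X * A) (e β)⟫_ℂ‖ ≤ 2 * ‖A‖ * ‖X‖ * ((G' \ G).card : ℝ) := by
  have h1 : ∀ β ∈ G, ⟪e β, (A * X) (e β)⟫_ℂ = ∑ γ ∈ G', ⟪e β, A (e γ)⟫_ℂ * ⟪e γ, X (e β)⟫_ℂ := by
    intro β hβ
    have h2 : ⟪e β, (A * X) (e β)⟫_ℂ = ⟪(ContinuousLinearMap.adjoint A) (e β), X (e β)⟫_ℂ := by
      rw [ContinuousLinearMap.adjoint_inner_left]; rfl
    rw [h2, ← e.tsum_inner_mul_inner, tsum_eq_sum (s := G')]
    · refine Finset.sum_congr rfl (fun γ _ => ?_)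
      rw [ContinuousLinearMap.adjoint_inner_left]
    · intro γ hγ
      rw [ContinuousLinearMap.adjoint_inner_left, (hA β hβ γ hγ).1, zero_mul]
  have h1' : ∀ β ∈ G, ⟪e β, (X * A) (e β)⟫_ℂ =
      ∑ γ ∈ G', ⟪e β, X (e γ)⟫_ℂ * ⟪e γ, A (e β)⟫_ℂ := by
    intro β hβ
    have h2 : ⟪e β, (X * A) (e β)⟫_ℂ = ⟪(ContinuousLinearMap.adjoint X) (e β), A (e β)⟫_ℂ := by
      rw [ContinuousLinearMap.adjoint_inner_left]; rfl
    rw [h2, ← e.tsum_inner_mul_inner, tsum_eq_sum (s := G')]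
    · refine Finset.sum_congr rfl (fun γ _ => ?_)
      rw [ContinuousLinearMap.adjoint_inner_left]
    · intro γ hγ
      rw [(hA β hβ γ hγ).2, mul_zero]
  have h3 : ∑ β ∈ G, ⟪e β, (A * X - X * A) (e β)⟫_ℂ =
      ∑ γ ∈ G' \ G, (∑ β ∈ G, ⟪e β, A (e γ)⟫_ℂ * ⟪e γ, X (e β)⟫_ℂ -
        ∑ β ∈ G, ⟪e β, X (e γ)⟫_ℂ * ⟪e γ, A (e β)⟫_ℂ) := by
    have h4 : ∑ β ∈ G, ⟪e β, (A * X - X * A) (e β)⟫_ℂ =
        ∑ γ ∈ G', (∑ β ∈ G, ⟪e β, A (e γ)⟫_ℂ * ⟪e γ, X (e β)⟫_ℂ -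
        ∑ β ∈ G, ⟪e β, X (e γ)⟫_ℂ * ⟪e γ, A (e β)⟫_ℂ) := by
      rw [Finset.sum_sub_distrib, Finset.sum_comm, Finset.sum_comm (s := G') (t := G),
        ← Finset.sum_sub_distrib]
      refine Finset.sum_congr rfl (fun β hβ => ?_)
      rw [sub_apply, inner_sub_right, h1 β hβ, h1' β hβ]
    rw [h4, ← Finset.sum_sdiff hG]
    have h5 : ∑ γ ∈ G, (∑ β ∈ G, ⟪e β, A (e γ)⟫_ℂ * ⟪e γ, X (e β)⟫_ℂ -
        ∑ β ∈ G, ⟪e β, X (e γ)⟫_ℂ * ⟪e γ, A (e β)⟫_ℂ) = 0 := by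
      rw [Finset.sum_sub_distrib, sub_eq_zero, Finset.sum_comm]
      refine Finset.sum_congr rfl (fun β _ => Finset.sum_congr rfl (fun γ _ => ?_))
      rw [mul_comm]
    rw [h5, add_zero]
  rw [h3]
  refine (norm_sum_le _ _).trans ?_
  have h6 : ∀ γ ∈ G' \ G, ‖∑ β ∈ G, ⟪e β, A (e γ)⟫_ℂ * ⟪e γ, X (e β)⟫_ℂ -
        ∑ β ∈ G, ⟪e β, X (e γ)⟫_ℂ * ⟪e γ, A (e β)⟫_ℂ‖ ≤ 2 * ‖A‖ * ‖X‖ := by
    intro γ _
    refine (norm_sub_le _ _).trans ?_
    have h7 := bessel_bound e.orthonormal G A X γ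
    have h8 := bessel_bound e.orthonormal G X A γ
    nlinarith
  refine (Finset.sum_le_sum h6).trans ?_
  rw [Finset.sum_const, nsmul_eq_mul, mul_comm]

end TaskF

open TaskF in
/-- Task F.  The singular state.

Proof.  `τ_n(B) = (1/|F n|) ∑_{β ∈ F n} ⟪e β, B (e β)⟫`; `f(B)` = limit along an ultrafilter
`𝒰 ≤ atTop`; `|τ_n(B)| ≤ ‖B‖`, `τ_n(1) = 1`, so `f 1 = 1`, `‖f‖ = 1`.
Compact `T`: `T (e β) → 0` along `cofinite` (orthonormal families are weakly null), so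
`{β : ‖T (e β)‖ ≥ ε}` is finite and `|τ_n(T)| ≤ ε + (number) ‖T‖ / |F n|`, `|F n| → ∞`.
Commutators: `⟪e β, A X (e β)⟫ = ∑_γ ⟪e β, A (e γ)⟫ ⟪e γ, X (e β)⟫`, the sum is over `γ ∈ F (n+1)` if
`β ∈ F n`; similarly for `X A`; subtracting,
`|F n| τ_n(AX - XA) = ∑_{γ ∈ F(n+1) \ F n} ∑_{β ∈ F n} (⟪e β, A (e γ)⟫ ⟪e γ, X (e β)⟫
   - ⟪e γ, A (e β)⟫ ⟪e β, X (e γ)⟫)`
and for each `γ` the inner sums are bounded by `‖A‖ ‖X‖` (Cauchy-Schwarz and Bessel: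
`∑_β |⟪e β, A (e γ)⟫|² ≤ ‖A (e γ)‖²`, `∑_β |⟪e γ, X (e β)⟫|² ≤ ‖X* (e γ)‖²`).  So
`|τ_n(AX-XA)| ≤ 2 ‖A‖ ‖X‖ |F(n+1) \ F n| / |F n| → 0`. -/
theorem exists_state {J K : Type*} [NormedAddCommGroup K] [InnerProductSpace ℂ K]
    [CompleteSpace K] [DecidableEq J] (e : HilbertBasis J ℂ K) (F : ℕ → Finset J) (hmono : ∀ n, F n ⊆ F (n + 1))
    (hcard : Tendsto (fun n => ((F n).card : ℝ)) atTop atTop)
    (hratio : Tendsto (fun n => (((F (n + 1)) \ F n).card : ℝ) / (F n).card) atTop (𝓝 0))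
    (A : K →L[ℂ] K)
    (hA : ∀ n, ∀ β ∈ F n, ∀ γ, γ ∉ F (n + 1) → ⟪e β, A (e γ)⟫_ℂ = 0 ∧ ⟪e γ, A (e β)⟫_ℂ = 0) :
    ∃ f : (K →L[ℂ] K) →L[ℂ] ℂ, f 1 = 1 ∧ ‖f‖ = 1 ∧
      (∀ X : K →L[ℂ] K, f (A * X - X * A) = 0) ∧
      (∀ T : K →L[ℂ] K, IsCompactOperator T → f T = 0) := by
  have he : ∀ β, ‖e β‖ = 1 := e.orthonormal.1
  let U : Ultrafilter ℕ := Ultrafilter.of atTop
  have hU : (U : Filter ℕ) ≤ atTop := Ultrafilter.of_le atTop
  have hlim : ∀ B : K →L[ℂ] K, ∃ z : ℂ, Tendsto (fun n => tr e (F n) B) U (𝓝 z) ∧ ‖z‖ ≤ ‖B‖ := by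
    intro B
    have hC : IsCompact (Metric.closedBall (0 : ℂ) ‖B‖) := isCompact_closedBall _ _
    obtain ⟨z, hz, hz'⟩ := hC.ultrafilter_le_nhds (U.map (fun n => tr e (F n) B)) (by
      rw [Ultrafilter.coe_map, le_principal_iff]
      refine Filter.mem_map.2 (Filter.univ_mem' (fun n => ?_))
      simpa using norm_tr_le he (F n) B)
    exact ⟨z, hz', by simpa using hz⟩
  choose g hg hgn using hlim
  let fl : (K →L[ℂ] K) →ₗ[ℂ] ℂ :=
    { toFun := g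
      map_add' := by
        intro B C
        refine tendsto_nhds_unique (hg (B + C)) ?_
        simp_rw [tr_add]
        exact (hg B).add (hg C)
      map_smul' := by
        intro c B
        refine tendsto_nhds_unique (hg (c • B)) ?_
        simp_rw [tr_smul]
        exact (hg B).const_mul c }
  let f : (K →L[ℂ] K) →L[ℂ] ℂ := fl.mkContinuous 1 (fun B => by
    rw [one_mul]; exact hgn B)
  have hf : ∀ B, f B = g B := fun B => rfl
  have hpos : ∀ᶠ n in atTop, 0 < (F n).card := by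
    filter_upwards [hcard.eventually_gt_atTop 0] with n hn
    exact_mod_cast hn
  have hf1 : f 1 = 1 := by
    rw [hf]
    refine tendsto_nhds_unique (hg 1) ?_
    refine (tendsto_const_nhds).congr' ?_
    filter_upwards [hU hpos] with n hn
    exact (tr_one he (F n) hn).symm
  have hzero : ∀ B : K →L[ℂ] K, Tendsto (fun n => tr e (F n) B) atTop (𝓝 0) → f B = 0 := by
    intro B hB
    rw [hf]
    exact tendsto_nhds_unique (hg B) (hB.mono_left hU)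
  refine ⟨f, hf1, ?_, ?_, ?_⟩
  · apply le_antisymm
    · exact LinearMap.mkContinuous_norm_le _ zero_le_one _
    · have h1 : ‖f 1‖ ≤ ‖f‖ * ‖(1 : K →L[ℂ] K)‖ := f.le_opNorm 1
      rw [hf1, norm_one] at h1
      have h2 : ‖(1 : K →L[ℂ] K)‖ ≤ 1 := ContinuousLinearMap.norm_id_le
      nlinarith [norm_nonneg f]
  · intro X
    apply hzero
    rw [tendsto_zero_iff_norm_tendsto_zero]
    have h1 : ∀ n, ‖tr e (F n) (A * X - X * A)‖ ≤
        2 * ‖A‖ * ‖X‖ * ((((F (n + 1)) \ F n).card : ℝ) / (F n).card) := by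
      intro n
      have h2 := comm_bound e (F n) (F (n + 1)) (hmono n) A X (hA n)
      rw [tr, norm_mul]
      have h3 : ‖((((F n).card : ℝ) : ℂ)⁻¹)‖ = ((F n).card : ℝ)⁻¹ := by
        rw [norm_inv]; simp
      rw [h3]
      calc ((F n).card : ℝ)⁻¹ * ‖∑ β ∈ F n, ⟪e β, (A * X - X * A) (e β)⟫_ℂ‖
          ≤ ((F n).card : ℝ)⁻¹ * (2 * ‖A‖ * ‖X‖ * (((F (n + 1)) \ F n).card : ℝ)) := by
            gcongr
        _ = _ := by rw [div_eq_mul_inv]; ring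
    refine squeeze_zero (fun n => norm_nonneg _) h1 ?_
    have := hratio.const_mul (2 * ‖A‖ * ‖X‖)
    rwa [mul_zero] at this
  · intro T hT
    apply hzero
    rw [Metric.tendsto_atTop]
    intro ε hε
    have hd := diag_tendsto e.orthonormal T hT
    have hfin : {β | ¬ ‖T (e β)‖ < ε / 2}.Finite := by
      have h1 : ∀ᶠ β in cofinite, ‖T (e β)‖ < ε / 2 := by
        have := hd.norm
        rw [norm_zero] at this
        exact this.eventually_lt_const (by positivity)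
      exact h1
    set Bd : Finset J := hfin.toFinset with hBd
    have hev : ∀ᶠ n in atTop, 2 * (Bd.card : ℝ) * ‖T‖ / ε < ((F n).card : ℝ) :=
      hcard.eventually_gt_atTop _
    obtain ⟨n0, hn0⟩ := (hev.and hpos).exists_forall_of_atTop
    refine ⟨n0, fun n hn => ?_⟩
    obtain ⟨h1, h2⟩ := hn0 n hn
    have h2' : (0 : ℝ) < (F n).card := by exact_mod_cast h2
    rw [dist_zero_right, tr, norm_mul]
    have h3 : ‖((((F n).card : ℝ) : ℂ)⁻¹)‖ = ((F n).card : ℝ)⁻¹ := by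
      rw [norm_inv]; simp
    rw [h3]
    have h4 : ‖∑ β ∈ F n, ⟪e β, T (e β)⟫_ℂ‖ ≤ (F n).card * (ε / 2) + Bd.card * ‖T‖ := by
      refine (norm_sum_le _ _).trans ?_
      have h5 : ∀ β ∈ F n, ‖⟪e β, T (e β)⟫_ℂ‖ ≤ ε / 2 + (if β ∈ Bd then ‖T‖ else 0) := by
        intro β _
        have h6 : ‖⟪e β, T (e β)⟫_ℂ‖ ≤ ‖T (e β)‖ := by
          refine (norm_inner_le_norm _ _).trans ?_
          rw [he β, one_mul]
        by_cases hβ : β ∈ Bd
        · rw [if_pos hβ]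
          have h7 : ‖T (e β)‖ ≤ ‖T‖ := by
            have := T.le_opNorm (e β)
            rwa [he β, mul_one] at this
          linarith
        · rw [if_neg hβ]
          rw [hBd, Set.Finite.mem_toFinset, Set.mem_ofPred_eq, not_not] at hβ
          linarith
      refine (Finset.sum_le_sum h5).trans ?_
      rw [Finset.sum_add_distrib, Finset.sum_const, nsmul_eq_mul, Finset.sum_ite_mem,
        Finset.sum_const, nsmul_eq_mul]
      have h8 : (((F n ∩ Bd).card : ℕ) : ℝ) ≤ Bd.card := by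
        exact_mod_cast Finset.card_le_card Finset.inter_subset_right
      gcongr
    calc ((F n).card : ℝ)⁻¹ * ‖∑ β ∈ F n, ⟪e β, T (e β)⟫_ℂ‖
        ≤ ((F n).card : ℝ)⁻¹ * ((F n).card * (ε / 2) + Bd.card * ‖T‖) := by gcongr
      _ = ε / 2 + (Bd.card * ‖T‖) / (F n).card := by field_simp
      _ < ε := by
          have h9 : (Bd.card * ‖T‖) / (F n).card < ε / 2 := by
            rw [div_lt_iff₀ h2']
            rw [div_lt_iff₀ hε] at h1
            nlinarith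
          linarith

end Pool.Agent.MP_ff6aad_an
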