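import Pool.Agent.MP_ff6aad_an.HS

set_option autoImplicit false
set_option linter.unusedSectionVars false

open scoped ComplexConjugate InnerProductSpace ENNReal

namespace Pool.Agent.MP_ff6aad_an

/-- block sizes -/
def NN (n : ℕ) : ℕ := 2 * n + 3

instance (n : ℕ) : NeZero (NN n) := ⟨by unfold NN; omega⟩

/-- index set of the basis -/
abbrev Idx : Type := Σ n : ℕ, ZMod (NN n)

variable {H : Type*} [NormedAddCommGroup H] [InnerProductSpace ℂ H] [CompleteSpace H]

open MP_5ec4a4_an (onbMap onbMap_apply onbMap_norm shift shift_apply shift_norm hb_ext hb_ext_inner)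

variable (e : HilbertBasis Idx ℂ H)

theorem inner_e (α β : Idx) : ⟪e α, e β⟫_ℂ = if α = β then 1 else 0 :=
  (orthonormal_iff_ite.1 e.orthonormal) α β

theorem inner_e_same (n : ℕ) (j k : ZMod (NN n)) :
    ⟪e ⟨n, j⟩, e ⟨n, k⟩⟫_ℂ = if j = k then 1 else 0 := by
  rw [inner_e]; simp

theorem inner_e_ne {n m : ℕ} (h : n ≠ m) (j : ZMod (NN n)) (k : ZMod (NN m)) :
    ⟪e ⟨n, j⟩, e ⟨m, k⟩⟫_ℂ = 0 := by
  rw [inner_e, if_neg]
  intro h'
  exact h (congrArg Sigma.fst h')

/-- character value -/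
noncomputable def chv {N : ℕ} [NeZero N] (j : ZMod N) : ℂ := ZMod.stdAddChar j

theorem chv_add {N : ℕ} [NeZero N] (j k : ZMod N) : chv (j + k) = chv j * chv k :=
  AddChar.map_add_eq_mul _ _ _

theorem norm_chv {N : ℕ} [NeZero N] (j : ZMod N) : ‖chv j‖ = 1 := by
  unfold chv
  simp

theorem chv_mul_conj {N : ℕ} [NeZero N] (j : ZMod N) : chv j * conj (chv j) = 1 := by
  rw [Complex.mul_conj, Complex.normSq_eq_norm_sq, norm_chv]
  simp

theorem conj_chv {N : ℕ} [NeZero N] (j : ZMod N) : conj (chv j) = chv (-j) := by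
  have h : chv (-j) * chv j = 1 := by
    rw [← chv_add]; simp [chv]
  calc conj (chv j) = (chv (-j) * chv j) * conj (chv j) := by rw [h, one_mul]
    _ = chv (-j) := by rw [mul_assoc, chv_mul_conj, mul_one]

theorem sum_chv {N : ℕ} [NeZero N] (b : ZMod N) :
    ∑ x : ZMod N, chv (x * b) = if b = 0 then (N : ℂ) else 0 := by
  have := AddChar.sum_mulShift b (ZMod.isPrimitive_stdAddChar N)
  simpa [chv] using this

theorem norm_tph (N : ℕ) [NeZero N] (j : ZMod N) : ‖tph N j‖ = 1 := norm_chv _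

theorem tph_mul_conj (N : ℕ) [NeZero N] (j : ZMod N) : tph N j * conj (tph N j) = 1 :=
  chv_mul_conj _

/-- The shift. -/
theorem inj_X : Function.Injective (fun α : Idx => (⟨α.1, α.2 + 1⟩ : Idx)) := by
  rintro ⟨n, j⟩ ⟨m, k⟩ h
  simp only [Sigma.mk.injEq] at h
  obtain ⟨rfl, h⟩ := h
  have h := eq_of_heq h
  have : j = k := by simpa using h
  rw [this]

noncomputable def opX : H →L[ℂ] H := shift e e (fun α : Idx => (⟨α.1, α.2 + 1⟩ : Idx)) inj_X

theorem opX_apply (n : ℕ) (j : ZMod (NN n)) : opX e (e ⟨n, j⟩) = e ⟨n, j + 1⟩ :=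
  shift_apply e e _ inj_X ⟨n, j⟩

/-- The link. -/
theorem inj_s : Function.Injective
    (fun α : Idx => (⟨α.1 + 1, (α.2.val : ZMod (NN (α.1 + 1)))⟩ : Idx)) := by
  rintro ⟨n, j⟩ ⟨m, k⟩ h
  simp only [Sigma.mk.injEq] at h
  obtain ⟨h1, h⟩ := h
  have h1 : n = m := by omega
  subst h1
  have h := eq_of_heq h
  have h2 : j.val = k.val := by
    have h3 := (ZMod.natCast_eq_natCast_iff' _ _ _).1 h
    rw [Nat.mod_eq_of_lt, Nat.mod_eq_of_lt] at h3
    · exact h3
    · have := ZMod.val_lt k; unfold NN at *; omega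
    · have := ZMod.val_lt j; unfold NN at *; omega
  rw [ZMod.val_injective _ h2]

noncomputable def opL : H →L[ℂ] H :=
  shift e e (fun α : Idx => (⟨α.1 + 1, (α.2.val : ZMod (NN (α.1 + 1)))⟩ : Idx)) inj_s

theorem opL_apply (n : ℕ) (j : ZMod (NN n)) :
    opL e (e ⟨n, j⟩) = e ⟨n + 1, (j.val : ZMod (NN (n + 1)))⟩ :=
  shift_apply e e _ inj_s ⟨n, j⟩

theorem on_T : Orthonormal ℂ (fun α : Idx => tph (NN α.1) α.2 • e α) := by
  rw [orthonormal_iff_ite]
  intro α β
  rw [inner_smul_left, inner_smul_right, inner_e]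
  split_ifs with h
  · subst h
    rw [mul_one, mul_comm, tph_mul_conj]
  · simp

noncomputable def opT : H →L[ℂ] H := onbMap e (fun α : Idx => tph (NN α.1) α.2 • e α) (on_T e)

theorem opT_apply (n : ℕ) (j : ZMod (NN n)) : opT e (e ⟨n, j⟩) = tph (NN n) j • e ⟨n, j⟩ :=
  onbMap_apply e _ (on_T e) ⟨n, j⟩

/-- normalisation -/
noncomputable def cN (N : ℕ) : ℂ := ((1 / √(N : ℝ) : ℝ) : ℂ)

theorem cN_mul (N : ℕ) [NeZero N] : cN N * cN N * N = 1 := by
  unfold cN
  have hN : (0 : ℝ) < N := by exact_mod_cast Nat.pos_of_ne_zero (NeZero.ne N)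
  rw [← Complex.ofReal_mul, ← Complex.ofReal_natCast, ← Complex.ofReal_mul]
  rw [Complex.ofReal_eq_one]
  have := Real.mul_self_sqrt hN.le
  field_simp
  nlinarith

theorem conj_cN (N : ℕ) : conj (cN N) = cN N := Complex.conj_ofReal _

/-- Fourier vectors -/
noncomputable def wS (α : Idx) : H := cN (NN α.1) • ∑ k, chv (α.2 * k) • e ⟨α.1, k⟩

theorem inner_wS (n : ℕ) (j k : ZMod (NN n)) :
    ⟪e ⟨n, j⟩, wS e ⟨n, k⟩⟫_ℂ = cN (NN n) * chv (k * j) := by
  unfold wS
  rw [inner_smul_right, inner_sum]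
  simp_rw [inner_smul_right, inner_e_same]
  simp

theorem inner_wS_ne {n m : ℕ} (h : n ≠ m) (j : ZMod (NN n)) (k : ZMod (NN m)) :
    ⟪e ⟨n, j⟩, wS e ⟨m, k⟩⟫_ℂ = 0 := by
  unfold wS
  rw [inner_smul_right, inner_sum]
  simp_rw [inner_smul_right, inner_e_ne e h]
  simp

theorem on_S : Orthonormal ℂ (wS e) := by
  rw [orthonormal_iff_ite]
  rintro ⟨n, j⟩ ⟨m, k⟩
  by_cases hnm : n = m
  · subst hnm
    have h1 : ⟪wS e ⟨n, j⟩, wS e ⟨n, k⟩⟫_ℂ = if j = k then 1 else 0 := by
      conv_lhs => rw [wS]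
      rw [inner_smul_left, sum_inner]
      simp_rw [inner_smul_left, inner_wS]
      rw [conj_cN]
      have h2 : ∀ l : ZMod (NN n), conj (chv (j * l)) * (cN (NN n) * chv (k * l)) =
          cN (NN n) * chv (l * (k - j)) := by
        intro l
        rw [conj_chv]
        have : l * (k - j) = -(j * l) + k * l := by ring
        rw [this, chv_add]; ring
      change cN (NN n) * ∑ l : ZMod (NN n), conj (chv (j * l)) * (cN (NN n) * chv (k * l)) = _
      simp_rw [h2]
      rw [← Finset.mul_sum, sum_chv]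
      by_cases hjk : j = k
      · subst hjk
        simp only [sub_self, if_true]
        rw [← mul_assoc]
        exact cN_mul _
      · rw [if_neg (sub_ne_zero.2 (Ne.symm hjk)), if_neg hjk]
        simp
    rw [h1]
    simp
  · rw [if_neg (fun h => hnm (congrArg Sigma.fst h))]
    conv_lhs => rw [wS]
    rw [inner_smul_left, sum_inner]
    simp_rw [inner_smul_left]
    rw [Finset.sum_eq_zero, mul_zero]
    intro l _
    rw [inner_wS_ne e hnm, mul_zero]

noncomputable def opS : H →L[ℂ] H := onbMap e (wS e) (on_S e)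

theorem opS_apply (α : Idx) : opS e (e α) = wS e α := onbMap_apply e _ (on_S e) α

/-! adjoints -/

theorem adjX (n : ℕ) (j : ZMod (NN n)) :
    ContinuousLinearMap.adjoint (opX e) (e ⟨n, j⟩) = e ⟨n, j - 1⟩ := by
  apply hb_ext_inner e
  rintro ⟨m, k⟩
  rw [ContinuousLinearMap.adjoint_inner_right, opX_apply]
  by_cases hnm : m = n
  · subst hnm
    rw [inner_e_same, inner_e_same]
    simp [eq_sub_iff_add_eq]
  · rw [inner_e_ne e hnm, inner_e_ne e hnm]

theorem adjT (n : ℕ) (j : ZMod (NN n)) :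
    ContinuousLinearMap.adjoint (opT e) (e ⟨n, j⟩) = conj (tph (NN n) j) • e ⟨n, j⟩ := by
  apply hb_ext_inner e
  rintro ⟨m, k⟩
  rw [ContinuousLinearMap.adjoint_inner_right, opT_apply, inner_smul_left, inner_smul_right]
  by_cases hnm : m = n
  · subst hnm
    rw [inner_e_same]
    split_ifs with h
    · subst h; rfl
    · simp
  · rw [inner_e_ne e hnm]; simp

theorem adjS (n : ℕ) (j : ZMod (NN n)) :
    ContinuousLinearMap.adjoint (opS e) (e ⟨n, j⟩) =
      cN (NN n) • ∑ k, conj (chv (j * k)) • e ⟨n, k⟩ := by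
  apply hb_ext_inner e
  rintro ⟨m, k⟩
  rw [ContinuousLinearMap.adjoint_inner_right, opS_apply, ← inner_conj_symm, inner_smul_right,
    inner_sum]
  by_cases hnm : m = n
  · subst hnm
    rw [inner_wS]
    simp_rw [inner_smul_right, inner_e_same]
    simp [conj_cN, mul_comm k j]
  · rw [inner_wS_ne e (Ne.symm hnm)]
    simp_rw [inner_smul_right, inner_e_ne e hnm]
    simp

theorem isoX : ContinuousLinearMap.adjoint (opX e) * opX e = 1 :=
  (ContinuousLinearMap.norm_map_iff_adjoint_comp_self (opX e)).1 (shift_norm _ _ _ _)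

theorem isoL : ContinuousLinearMap.adjoint (opL e) * opL e = 1 :=
  (ContinuousLinearMap.norm_map_iff_adjoint_comp_self (opL e)).1 (shift_norm _ _ _ _)

theorem isoT : ContinuousLinearMap.adjoint (opT e) * opT e = 1 :=
  (ContinuousLinearMap.norm_map_iff_adjoint_comp_self (opT e)).1 (onbMap_norm _ _ _)

theorem isoS : ContinuousLinearMap.adjoint (opS e) * opS e = 1 :=
  (ContinuousLinearMap.norm_map_iff_adjoint_comp_self (opS e)).1 (onbMap_norm _ _ _)

theorem coX : opX e * ContinuousLinearMap.adjoint (opX e) = 1 := by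
  apply hb_ext e
  rintro ⟨n, j⟩
  change opX e (ContinuousLinearMap.adjoint (opX e) (e ⟨n, j⟩)) = e ⟨n, j⟩
  rw [adjX, opX_apply, sub_add_cancel]

theorem coT : opT e * ContinuousLinearMap.adjoint (opT e) = 1 := by
  apply hb_ext e
  rintro ⟨n, j⟩
  change opT e (ContinuousLinearMap.adjoint (opT e) (e ⟨n, j⟩)) = e ⟨n, j⟩
  rw [adjT, map_smul, opT_apply, smul_smul, mul_comm, tph_mul_conj, one_smul]

theorem coS : opS e * ContinuousLinearMap.adjoint (opS e) = 1 := by
  apply hb_ext e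
  rintro ⟨n, j⟩
  change opS e (ContinuousLinearMap.adjoint (opS e) (e ⟨n, j⟩)) = e ⟨n, j⟩
  rw [adjS, map_smul, map_sum]
  simp_rw [map_smul, opS_apply]
  apply hb_ext_inner e
  rintro ⟨m, k⟩
  rw [inner_smul_right, inner_sum]
  by_cases hnm : m = n
  · subst hnm
    simp_rw [inner_smul_right, inner_wS]
    rw [inner_e_same]
    have h2 : ∀ l : ZMod (NN m), conj (chv (j * l)) * (cN (NN m) * chv (l * k)) =
          cN (NN m) * chv (l * (k - j)) := by
      intro l
      rw [conj_chv]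
      have : l * (k - j) = -(j * l) + l * k := by ring
      rw [this, chv_add]; ring
    simp_rw [h2]
    rw [← Finset.mul_sum, sum_chv]
    by_cases hjk : k = j
    · subst hjk
      simp only [sub_self, if_true]
      rw [← mul_assoc]
      exact cN_mul _
    · rw [if_neg (sub_ne_zero.2 hjk), if_neg hjk]
      simp
  · rw [inner_e_ne e hnm]
    simp_rw [inner_smul_right, inner_wS_ne e hnm]
    simp

end Pool.Agent.MP_ff6aad_an
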