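import Pool.Agent.MP_ff6aad_an.Defs
import Pool.Agent.MP_5ec4a4_an.Ops

set_option autoImplicit false
set_option linter.unusedSectionVars false

open scoped ComplexConjugate InnerProductSpace ENNReal

namespace Pool.Agent.MP_ff6aad_an

variable {ι H : Type*} [NormedAddCommGroup H] [InnerProductSpace ℂ H] [CompleteSpace H]

theorem enorm_sq_eq (z : H) : ‖z‖ₑ ^ 2 = ENNReal.ofReal (‖z‖ ^ 2) := by
  rw [← ofReal_norm, ENNReal.ofReal_pow (norm_nonneg _)]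

theorem enorm_sq_eqC (z : ℂ) : ‖z‖ₑ ^ 2 = ENNReal.ofReal (‖z‖ ^ 2) := by
  rw [← ofReal_norm, ENNReal.ofReal_pow (norm_nonneg _)]

/-- Parseval in extended form. -/
theorem parsevalE (e : HilbertBasis ι ℂ H) (v : H) :
    ∑' β, ‖⟪e β, v⟫_ℂ‖ₑ ^ 2 = ‖v‖ₑ ^ 2 := by
  have h1 : HasSum (fun β => ‖⟪e β, v⟫_ℂ‖ ^ 2) (‖v‖ ^ 2) := by
    have h := e.hasSum_inner_mul_inner v v
    have h2 := (Complex.hasSum_re h)
    have h3 : (⟪v, v⟫_ℂ).re = ‖v‖ ^ 2 := by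
      rw [inner_self_eq_norm_sq_to_K]
      norm_cast
    rw [h3] at h2
    convert h2 using 2 with β
    rw [← inner_conj_symm v (e β), ← Complex.normSq_eq_norm_sq, ← Complex.normSq_eq_conj_mul_self]
    simp
  rw [enorm_sq_eq, ← h1.tsum_eq, ENNReal.ofReal_tsum_of_nonneg (fun _ => by positivity) h1.summable]
  refine tsum_congr fun β => ?_
  rw [enorm_sq_eqC]

/-- squared Hilbert-Schmidt norm, extended -/
noncomputable def hsE (e : HilbertBasis ι ℂ H) (A : H →L[ℂ] H) : ℝ≥0∞ :=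
  ∑' α, ‖A (e α)‖ₑ ^ 2

theorem hsE_adjoint (e : HilbertBasis ι ℂ H) (A : H →L[ℂ] H) :
    hsE e (ContinuousLinearMap.adjoint A) = hsE e A := by
  unfold hsE
  have h1 : ∀ α, ‖A (e α)‖ₑ ^ 2 = ∑' β, ‖⟪e β, A (e α)⟫_ℂ‖ₑ ^ 2 := fun α => (parsevalE e _).symm
  have h2 : ∀ α, ‖ContinuousLinearMap.adjoint A (e α)‖ₑ ^ 2 =
      ∑' β, ‖⟪e α, A (e β)⟫_ℂ‖ₑ ^ 2 := by
    intro α
    rw [← parsevalE e]
    refine tsum_congr fun β => ?_
    rw [ContinuousLinearMap.adjoint_inner_right, ← ofReal_norm, norm_inner_symm, ofReal_norm]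
  simp_rw [h1, h2]
  exact ENNReal.tsum_comm

theorem hsE_mul_left_le (e : HilbertBasis ι ℂ H) (A B : H →L[ℂ] H) {c : ℝ} (hc : ‖B‖ ≤ c) :
    hsE e (B * A) ≤ ENNReal.ofReal (c ^ 2) * hsE e A := by
  unfold hsE
  rw [← ENNReal.tsum_mul_left]
  refine ENNReal.tsum_le_tsum fun α => ?_
  rw [enorm_sq_eq, enorm_sq_eq, ← ENNReal.ofReal_mul (by positivity)]
  apply ENNReal.ofReal_le_ofReal
  have h := (B.le_opNorm (A (e α))).trans (mul_le_mul_of_nonneg_right hc (norm_nonneg _))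
  calc ‖(B * A) (e α)‖ ^ 2 ≤ (c * ‖A (e α)‖) ^ 2 :=
        pow_le_pow_left₀ (norm_nonneg _) h 2
    _ = c ^ 2 * ‖A (e α)‖ ^ 2 := by ring

theorem norm_adjoint' (A : H →L[ℂ] H) : ‖ContinuousLinearMap.adjoint A‖ = ‖A‖ :=
  LinearIsometryEquiv.norm_map _ _

theorem adjoint_mul' (A B : H →L[ℂ] H) : ContinuousLinearMap.adjoint (A * B) =
    ContinuousLinearMap.adjoint B * ContinuousLinearMap.adjoint A :=
  ContinuousLinearMap.adjoint_comp A B

theorem hsE_mul_right_le (e : HilbertBasis ι ℂ H) (A B : H →L[ℂ] H) {c : ℝ} (hc : ‖B‖ ≤ c) :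
    hsE e (A * B) ≤ ENNReal.ofReal (c ^ 2) * hsE e A := by
  rw [← hsE_adjoint e (A * B), adjoint_mul', ← hsE_adjoint e A]
  exact hsE_mul_left_le e _ _ (by rw [norm_adjoint']; exact hc)

/-- pointwise Pythagoras for the difference of two projections -/
theorem hsE_sub_le (e : HilbertBasis ι ℂ H) (P Q : H →L[ℂ] H) (hP : P * P = P) (hQ : Q * Q = Q)
    (hPs : ContinuousLinearMap.adjoint P = P)
    {c : ℝ} (hc : ‖P - Q‖ ≤ c) :
    hsE e (P - Q) ≤ ENNReal.ofReal (c ^ 2) * (hsE e P + hsE e Q) := by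
  have hpy : ∀ v : H, ‖(P - Q) v‖ ^ 2 = ‖(P * (P - Q)) v‖ ^ 2 + ‖((P - Q) * Q) v‖ ^ 2 := by
    intro v
    have h1 : (P - Q) v = (P * (P - Q)) v + ((P - Q) * Q) v := by
      have : (P - Q) = P * (P - Q) + (P - Q) * Q := by
        rw [mul_sub, sub_mul, hP, hQ]; abel
      exact congrArg (fun A : H →L[ℂ] H => A v) this
    have h2 : ⟪(P * (P - Q)) v, ((P - Q) * Q) v⟫_ℂ = 0 := by
      have h3 : ((P - Q) * Q) v = - ((1 - P) * Q) v := by
        have : (P - Q) * Q = - ((1 - P) * Q) := by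
          rw [sub_mul, sub_mul, hQ, one_mul]; abel
        rw [this]; rfl
      rw [h3, inner_neg_right, neg_eq_zero]
      change ⟪P ((P - Q) v), ((1 - P) * Q) v⟫_ℂ = 0
      conv_lhs => rw [← hPs]
      rw [ContinuousLinearMap.adjoint_inner_left]
      have h4 : P (((1 - ContinuousLinearMap.adjoint P) * Q) v) = 0 := by
        have : P * ((1 - P) * Q) = 0 := by
          rw [← mul_assoc, mul_sub, hP, mul_one, sub_self, zero_mul]
        rw [hPs]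
        exact congrArg (fun A : H →L[ℂ] H => A v) this
      rw [h4, inner_zero_right]
    rw [h1, sq, sq, sq, norm_add_sq_eq_norm_sq_add_norm_sq_of_inner_eq_zero _ _ h2]
  have hsum : hsE e (P - Q) = hsE e (P * (P - Q)) + hsE e ((P - Q) * Q) := by
    unfold hsE
    rw [← ENNReal.tsum_add]
    refine tsum_congr fun α => ?_
    rw [enorm_sq_eq, enorm_sq_eq, enorm_sq_eq, ← ENNReal.ofReal_add (by positivity) (by positivity),
      hpy]
  rw [hsum, mul_add]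
  refine add_le_add ?_ ?_
  · exact hsE_mul_right_le e P (P - Q) hc
  · exact hsE_mul_left_le e Q (P - Q) hc

/-- a finite-rank orthogonal projection is Hilbert-Schmidt -/
theorem hsE_ne_top (e : HilbertBasis ι ℂ H) (Q : H →L[ℂ] H)
    (hQs : ContinuousLinearMap.adjoint Q = Q)
    (hf : FiniteDimensional ℂ (LinearMap.range (Q : H →ₗ[ℂ] H))) : hsE e Q ≠ ⊤ := by
  classical
  set W := LinearMap.range (Q : H →ₗ[ℂ] H) with hW
  have : FiniteDimensional ℂ W := hf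
  let b := stdOrthonormalBasis ℂ W
  have h1 : ∀ v : H, ‖Q v‖ₑ ^ 2 = ∑ i, ‖⟪Q (b i : H), v⟫_ℂ‖ₑ ^ 2 := by
    intro v
    have hv : Q v ∈ W := ⟨v, rfl⟩
    have h2 : ‖(⟨Q v, hv⟩ : W)‖ ^ 2 = ∑ i, ‖⟪b i, (⟨Q v, hv⟩ : W)⟫_ℂ‖ ^ 2 := by
      rw [b.sum_sq_norm_inner_right]
    have h3 : ‖Q v‖ ^ 2 = ∑ i, ‖⟪Q (b i : H), v⟫_ℂ‖ ^ 2 := by
      have : ‖(⟨Q v, hv⟩ : W)‖ = ‖Q v‖ := rfl
      rw [← this, h2]
      refine Finset.sum_congr rfl fun i _ => ?_
      congr 2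
      change ⟪(b i : H), Q v⟫_ℂ = _
      conv_rhs => rw [← hQs]
      rw [ContinuousLinearMap.adjoint_inner_left]
    rw [enorm_sq_eq, h3, ENNReal.ofReal_sum_of_nonneg (fun _ _ => by positivity)]
    refine Finset.sum_congr rfl fun i _ => ?_
    rw [enorm_sq_eqC]
  unfold hsE
  have h2 : ∑' α, ‖Q (e α)‖ₑ ^ 2 = ∑ i, ‖Q (b i : H)‖ₑ ^ 2 := by
    have h4 : ∀ α, ‖Q (e α)‖ₑ ^ 2 = ∑ i, ‖⟪Q (b i : H), e α⟫_ℂ‖ₑ ^ 2 := fun α => h1 (e α)
    rw [tsum_congr h4]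
    rw [Summable.tsum_finsetSum (fun _ _ => ENNReal.summable)]
    refine Finset.sum_congr rfl fun i _ => ?_
    have h3 := parsevalE e (Q (b i : H))
    rw [← h3]
    refine tsum_congr fun β => ?_
    rw [← ofReal_norm, norm_inner_symm, ofReal_norm]
  rw [h2]
  exact (ENNReal.sum_lt_top.2 fun i _ => by simp).ne

theorem hsE_eq_zero (e : HilbertBasis ι ℂ H) (Q : H →L[ℂ] H) (h : hsE e Q = 0) : Q = 0 := by
  unfold hsE at h
  rw [ENNReal.tsum_eq_zero] at h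
  apply MP_5ec4a4_an.hb_ext e
  intro α
  have := h α
  simpa using this

end Pool.Agent.MP_ff6aad_an
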