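import Mathlib

set_option autoImplicit false
set_option linter.unusedSectionVars false

open scoped ComplexConjugate InnerProductSpace ENNReal Topology
open Filter

namespace Pool.Agent.MP_ff6aad_an

section sep

variable {ι H : Type*} [NormedAddCommGroup H] [InnerProductSpace ℂ H] [CompleteSpace H]

theorem separable_of_hb [Countable ι] (e : HilbertBasis ι ℂ H) :
    TopologicalSpace.SeparableSpace H := by
  rw [← TopologicalSpace.isSeparable_univ_iff]
  have h1 : TopologicalSpace.IsSeparable (Set.range e) := (Set.countable_range e).isSeparable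
  have h2 := (TopologicalSpace.IsSeparable.span (R := ℂ) h1).closure
  have h3 : closure (Submodule.span ℂ (Set.range e) : Set H) = Set.univ := by
    have := e.dense_span
    rw [← Submodule.topologicalClosure_coe, this]; rfl
  rwa [h3] at h2

theorem not_finite_of_hb [Infinite ι] (e : HilbertBasis ι ℂ H) : ¬ FiniteDimensional ℂ H := by
  intro h
  have h1 := e.orthonormal.linearIndependent
  have h2 : Finite ι := h1.finite
  exact not_finite ι

end sep

section reduce

variable {K : Type*} [NormedAddCommGroup K] [InnerProductSpace ℂ K] [CompleteSpace K]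

/-- a nonzero finite-dimensional reducing subspace of `A - F` gives a finite-rank projection almost
commuting with `A` -/
theorem exists_proj (A F : K →L[ℂ] K) (M : Submodule ℂ K) (hM : M ≠ ⊥)
    (hMf : FiniteDimensional ℂ M) (h1 : ∀ x ∈ M, (A - F) x ∈ M)
    (h2 : ∀ x ∈ M, (ContinuousLinearMap.adjoint (A - F)) x ∈ M) :
    ∃ P : K →L[ℂ] K, P * P = P ∧ ContinuousLinearMap.adjoint P = P ∧ P ≠ 0 ∧
      FiniteDimensional ℂ (LinearMap.range (P : K →ₗ[ℂ] K)) ∧
      ‖A * P - P * A‖ ≤ 2 * ‖F‖ := by
  have hPM : ∀ x ∈ M, M.starProjection x = x := fun x hx =>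
    Submodule.starProjection_eq_self_iff.2 hx
  have hidem : M.starProjection * M.starProjection = M.starProjection :=
    Submodule.isIdempotentElem_starProjection M
  have hadj : ContinuousLinearMap.adjoint M.starProjection = M.starProjection :=
    isSelfAdjoint_starProjection M
  have hc1 : M.starProjection * (A - F) * M.starProjection = (A - F) * M.starProjection := by
    ext x
    exact hPM _ (h1 _ (M.starProjection_apply_mem x))
  have hc2 : M.starProjection * ContinuousLinearMap.adjoint (A - F) * M.starProjection =
      ContinuousLinearMap.adjoint (A - F) * M.starProjection := by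
    ext x
    exact hPM _ (h2 _ (M.starProjection_apply_mem x))
  have hc3 : M.starProjection * (A - F) * M.starProjection = M.starProjection * (A - F) := by
    have h := congrArg (fun T : K →L[ℂ] K => star T) hc2
    simp only [star_mul, ← ContinuousLinearMap.star_eq_adjoint, star_star] at h
    rw [ContinuousLinearMap.star_eq_adjoint, hadj, ← mul_assoc] at h
    exact h
  have hcomm : (A - F) * M.starProjection = M.starProjection * (A - F) := hc1.symm.trans hc3
  have hnorm : ‖M.starProjection‖ ≤ 1 := M.starProjection_norm_le
  refine ⟨M.starProjection, hidem, hadj, ?_, ?_, ?_⟩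
  · intro h0
    obtain ⟨x, hx, hx0⟩ := Submodule.exists_mem_ne_zero_of_ne_bot hM
    apply hx0
    rw [← hPM x hx, h0]; rfl
  · have : LinearMap.range (M.starProjection : K →ₗ[ℂ] K) ≤ M := by
      rintro _ ⟨x, rfl⟩
      exact M.starProjection_apply_mem x
    exact Submodule.finiteDimensional_of_le this
  · have h3 : A * M.starProjection - M.starProjection * A =
        F * M.starProjection - M.starProjection * F := by
      rw [sub_mul, mul_sub] at hcomm
      have := hcomm
      rw [sub_eq_sub_iff_add_eq_add] at this ⊢
      rw [add_comm (F * M.starProjection), this]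
    rw [h3]
    calc ‖F * M.starProjection - M.starProjection * F‖
        ≤ ‖F * M.starProjection‖ + ‖M.starProjection * F‖ := norm_sub_le _ _
      _ ≤ ‖F‖ * ‖M.starProjection‖ + ‖M.starProjection‖ * ‖F‖ :=
          add_le_add (norm_mul_le _ _) (norm_mul_le _ _)
      _ ≤ ‖F‖ * 1 + 1 * ‖F‖ := by gcongr
      _ = 2 * ‖F‖ := by ring

end reduce

end Pool.Agent.MP_ff6aad_an
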