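import Pool.Agent.MP_ff6aad_an.NoProj
import Pool.Agent.MP_ff6aad_an.Compress
import Pool.Agent.MP_ff6aad_an.Functional
import Pool.Agent.MP_ff6aad_an.Reduce

set_option autoImplicit false
set_option linter.unusedSectionVars false

open scoped ComplexConjugate InnerProductSpace ENNReal Topology
open Filter

namespace Pool.Agent.MP_ff6aad_an

open MP_5ec4a4_an (onbMap onbMap_apply onbMap_norm shift shift_apply shift_norm hb_ext hb_ext_inner
  adjoint_shift_apply adjoint_shift_apply_of_notMem adjoint_shift_comp)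

section

variable {H : Type*} [NormedAddCommGroup H] [InnerProductSpace ℂ H] [CompleteSpace H]

variable (e : HilbertBasis Idx ℂ H)

/-- the entries of the operator matrix -/
noncomputable def entM : Fin 5 → Fin 5 → H →L[ℂ] H :=
  ![![0, 1, 1, 1, 1],
    ![1, 0, opX e, opT e, opS e],
    ![1, ContinuousLinearMap.adjoint (opX e), 0, opL e, 0],
    ![1, ContinuousLinearMap.adjoint (opT e), ContinuousLinearMap.adjoint (opL e), 0, 0],
    ![1, ContinuousLinearMap.adjoint (opS e), 0, 0, 0]]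

theorem adjoint_one' : ContinuousLinearMap.adjoint (1 : H →L[ℂ] H) = 1 := by
  rw [← ContinuousLinearMap.star_eq_adjoint, star_one]

theorem entM_adj (i j : Fin 5) : ContinuousLinearMap.adjoint (entM e i j) = entM e j i := by
  fin_cases i <;> fin_cases j <;> simp [entM, adjoint_one']

theorem norm_one_le' : ‖(1 : H →L[ℂ] H)‖ ≤ 1 :=
  ContinuousLinearMap.opNorm_le_bound _ zero_le_one fun x => by simp

theorem entM_norm (i j : Fin 5) : ‖entM e i j‖ ≤ 1 := by
  have hX := norm_le_one_of_adj _ (isoX e)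
  have hT := norm_le_one_of_adj _ (isoT e)
  have hS := norm_le_one_of_adj _ (isoS e)
  have hL := norm_le_one_of_adj _ (isoL e)
  have h1 := norm_one_le' (H := H)
  fin_cases i <;> fin_cases j <;> simp [entM, hX, hT, hS, hL, h1]

theorem entM_zero (j : Fin 5) (hj : j ≠ 0) : entM e 0 j = 1 := by
  fin_cases j <;> simp [entM] at hj ⊢

/-- matrix elements vanish between blocks at distance at least two -/
theorem gen_band (n m : ℕ) (j : ZMod (NN n)) (k : ZMod (NN m)) (h : n + 2 ≤ m ∨ m + 2 ≤ n) :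
    ⟪e ⟨n, j⟩, opX e (e ⟨m, k⟩)⟫_ℂ = 0 ∧ ⟪e ⟨n, j⟩, opT e (e ⟨m, k⟩)⟫_ℂ = 0 ∧
    ⟪e ⟨n, j⟩, opS e (e ⟨m, k⟩)⟫_ℂ = 0 ∧ ⟪e ⟨n, j⟩, opL e (e ⟨m, k⟩)⟫_ℂ = 0 := by
  have hne : n ≠ m := by omega
  have hne2 : n ≠ m + 1 := by omega
  refine ⟨?_, ?_, ?_, ?_⟩
  · rw [opX_apply, inner_e_ne e hne]
  · rw [opT_apply, inner_smul_right, inner_e_ne e hne, mul_zero]
  · rw [opS_apply, inner_wS_ne e hne]
  · rw [opL_apply, inner_e_ne e hne2]

theorem entM_band (i i' : Fin 5) (α β : Idx) (h : α.1 + 2 ≤ β.1 ∨ β.1 + 2 ≤ α.1) :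
    ⟪e α, entM e i i' (e β)⟫_ℂ = 0 := by
  obtain ⟨n, j⟩ := α
  obtain ⟨m, k⟩ := β
  obtain ⟨h1, h2, h3, h4⟩ := gen_band e n m j k h
  obtain ⟨h5, h6, h7, h8⟩ := gen_band e m n k j h.symm
  have hne : n ≠ m := by rcases h with h | h <;> simp at h <;> omega
  have hadj : ∀ B : H →L[ℂ] H, ⟪e ⟨m, k⟩, B (e ⟨n, j⟩)⟫_ℂ = 0 →
      ⟪e ⟨n, j⟩, ContinuousLinearMap.adjoint B (e ⟨m, k⟩)⟫_ℂ = 0 := by
    intro B hB
    rw [ContinuousLinearMap.adjoint_inner_right, ← inner_conj_symm, hB, map_zero]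
  have h0 := inner_e_ne e hne j k
  fin_cases i <;> fin_cases i' <;>
    simp [entM, h0, h1, h2, h3, h4, hadj _ h5, hadj _ h6, hadj _ h7, hadj _ h8]

end

section

variable {H K : Type*} [NormedAddCommGroup H] [InnerProductSpace ℂ H] [CompleteSpace H]
  [NormedAddCommGroup K] [InnerProductSpace ℂ K] [CompleteSpace K]

variable (e : HilbertBasis Idx ℂ H) (k : HilbertBasis (Fin 5 × Idx) ℂ K)

theorem inj_V (i : Fin 5) : Function.Injective (fun α : Idx => (i, α)) := by
  intro α β h
  simpa using h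

/-- the five embeddings -/
noncomputable def VV (i : Fin 5) : H →L[ℂ] K := shift e k (fun α : Idx => (i, α)) (inj_V i)

theorem VV_apply (i : Fin 5) (α : Idx) : VV e k i (e α) = k (i, α) :=
  shift_apply e k _ (inj_V i) α

theorem VV_adj (i j : Fin 5) (α : Idx) :
    ContinuousLinearMap.adjoint (VV e k i) (k (j, α)) = if i = j then e α else 0 := by
  split_ifs with h
  · subst h
    exact adjoint_shift_apply e k _ (inj_V i) α
  · apply adjoint_shift_apply_of_notMem e k _ (inj_V i)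
    intro x hx
    simp only [Prod.mk.injEq] at hx
    exact h hx.1

theorem VV_rel (i j : Fin 5) :
    (ContinuousLinearMap.adjoint (VV e k i)).comp (VV e k j) = if i = j then 1 else 0 := by
  apply hb_ext e
  intro α
  rw [ContinuousLinearMap.comp_apply, VV_apply, VV_adj]
  split_ifs <;> simp

theorem VV_sum : ∑ i, (VV e k i).comp (ContinuousLinearMap.adjoint (VV e k i)) = 1 := by
  apply hb_ext k
  rintro ⟨j, α⟩
  rw [_root_.sum_apply]
  simp only [ContinuousLinearMap.comp_apply, VV_adj]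
  rw [Finset.sum_eq_single j]
  · simp [VV_apply]
  · intro i _ hij
    rw [if_neg hij, map_zero]
  · simp

theorem bigOp_elem (b : Fin 5 → Fin 5 → H →L[ℂ] H) (i j : Fin 5) (α β : Idx) :
    ⟪k (i, α), bigOp (VV e k) b (k (j, β))⟫_ℂ =
      (if (i, α) = (j, β) then ((i : ℕ) : ℂ) + 1 else 0) + Complex.I * ⟪e α, b i j (e β)⟫_ℂ := by
  have hk : ∀ (i j : Fin 5) (α : Idx) (v : H),
      ⟪k (i, α), VV e k j v⟫_ℂ = if i = j then ⟪e α, v⟫_ℂ else 0 := by
    intro i j α v
    rw [← ContinuousLinearMap.adjoint_inner_left, VV_adj]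
    by_cases h : j = i
    · rw [if_pos h, if_pos h.symm]
    · rw [if_neg h, if_neg (Ne.symm h), inner_zero_left]
  unfold bigOp
  rw [_root_.add_apply, inner_add_right, _root_.smul_apply,
    inner_smul_right, _root_.sum_apply, _root_.sum_apply, inner_sum,
    inner_sum]
  congr 1
  · simp only [_root_.smul_apply, ContinuousLinearMap.comp_apply, VV_adj,
      inner_smul_right, hk]
    rw [Finset.sum_eq_single i]
    · rw [if_pos rfl]
      by_cases h : i = j
      · subst h
        rw [if_pos rfl, inner_e]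
        simp
      · rw [if_neg h, inner_zero_right, mul_zero, if_neg]
        intro h'
        exact h (congrArg Prod.fst h')
    · intro l _ hl
      rw [if_neg (Ne.symm hl), mul_zero]
    · simp
  · congr 1
    rw [Finset.sum_eq_single i]
    · rw [_root_.sum_apply, inner_sum, Finset.sum_eq_single j]
      · simp only [ContinuousLinearMap.comp_apply, VV_adj, hk, if_true]
      · intro l _ hl
        simp only [ContinuousLinearMap.comp_apply, VV_adj, hk]
        rw [if_neg hl]
        simp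
      · simp
    · intro l _ hl
      rw [_root_.sum_apply, inner_sum]
      refine Finset.sum_eq_zero fun l' _ => ?_
      simp only [ContinuousLinearMap.comp_apply, hk]
      rw [if_neg (Ne.symm hl)]
    · simp

/-- the Folner sets -/
def FF (n : ℕ) : Finset (Fin 5 × Idx) :=
  Finset.univ ×ˢ ((Finset.range n).sigma (fun m => (Finset.univ : Finset (ZMod (NN m)))))

theorem mem_FF (n : ℕ) (β : Fin 5 × Idx) : β ∈ FF n ↔ β.2.1 < n := by
  simp [FF]

theorem card_FF (n : ℕ) : (FF n).card = 5 * (n ^ 2 + 2 * n) := by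
  unfold FF
  rw [Finset.card_product, Finset.card_sigma, Finset.card_univ, Fintype.card_fin]
  congr 1
  simp only [Finset.card_univ, ZMod.card]
  induction n with
  | zero => simp
  | succ n ih => rw [Finset.sum_range_succ, ih]; unfold NN; ring

theorem FF_mono (n : ℕ) : FF n ⊆ FF (n + 1) := by
  intro β hβ
  rw [mem_FF] at *
  omega

theorem card_FF_real (n : ℕ) : ((FF n).card : ℝ) = 5 * ((n : ℝ) ^ 2 + 2 * n) := by
  rw [card_FF]; push_cast; ring

theorem card_diff (n : ℕ) : (((FF (n + 1)) \ FF n).card : ℝ) = 5 * (2 * n + 3) := by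
  rw [Finset.card_sdiff_of_subset (FF_mono n), Nat.cast_sub (Finset.card_le_card (FF_mono n)),
    card_FF_real, card_FF_real]
  push_cast; ring

theorem tendsto_card : Tendsto (fun n => ((FF n).card : ℝ)) atTop atTop := by
  have h : ∀ n : ℕ, (n : ℝ) ≤ ((FF n).card : ℝ) := by
    intro n
    rw [card_FF_real]
    have : (0 : ℝ) ≤ n := Nat.cast_nonneg n
    nlinarith
  exact tendsto_atTop_mono h tendsto_natCast_atTop_atTop

theorem tendsto_ratio :
    Tendsto (fun n => (((FF (n + 1)) \ FF n).card : ℝ) / (FF n).card) atTop (𝓝 0) := by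
  have h1 : Tendsto (fun n : ℕ => (3 : ℝ) / n) atTop (𝓝 0) :=
    tendsto_const_div_atTop_nhds_zero_nat 3
  refine squeeze_zero (fun n => by positivity) (fun n => ?_) h1
  rw [card_diff, card_FF_real]
  rcases Nat.eq_zero_or_pos n with h | h
  · subst h; simp
  · have hn : (1 : ℝ) ≤ n := by exact_mod_cast h
    rw [div_le_div_iff₀ (by nlinarith) (by linarith)]
    nlinarith

/-- the counterexample operator -/
noncomputable def theOp : K →L[ℂ] K := bigOp (VV e k) (entM e)

theorem theOp_state : ∃ f : (K →L[ℂ] K) →L[ℂ] ℂ, f 1 = 1 ∧ ‖f‖ = 1 ∧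
    (∀ X : K →L[ℂ] K, f (theOp e k * X - X * theOp e k) = 0) ∧
    (∀ T : K →L[ℂ] K, IsCompactOperator T → f T = 0) := by
  classical
  apply exists_state k FF FF_mono tendsto_card tendsto_ratio
  rintro n ⟨i, α⟩ hβ ⟨j, β⟩ hγ
  rw [mem_FF] at hβ hγ
  simp only at hβ hγ
  have hne : α ≠ β := by
    rintro rfl
    omega
  have hne1 : (i, α) ≠ (j, β) := fun h => hne (congrArg Prod.snd h)
  have hne2 : (j, β) ≠ (i, α) := fun h => hne (congrArg Prod.snd h).symm
  constructor
  · rw [theOp, bigOp_elem, if_neg hne1, entM_band e i j α β (by omega)]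
    simp
  · rw [theOp, bigOp_elem, if_neg hne2, entM_band e j i β α (by omega)]
    simp

theorem theOp_noproj (F : K →L[ℂ] K) (hF : ‖F‖ < 1 / 2000000) (M : Submodule ℂ K) (hM : M ≠ ⊥)
    (hMf : FiniteDimensional ℂ M) (h1 : ∀ x ∈ M, (theOp e k - F) x ∈ M)
    (h2 : ∀ x ∈ M, (ContinuousLinearMap.adjoint (theOp e k - F)) x ∈ M) : False := by
  obtain ⟨P, hP, hPs, hP0, hPf, hPc⟩ := exists_proj (theOp e k) F M hM hMf h1 h2
  obtain ⟨Q, hQ, hQs, hQ0, hQf, hQc⟩ := compress (VV e k) (entM e) (VV_rel e k) (VV_sum e k)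
    (entM_adj e) (entM_norm e) (entM_zero e) P hP hPs hP0 hPf (hPc.trans (by linarith))
  have hX := hQc 1 2
  have hT := hQc 1 3
  have hS := hQc 1 4
  have hL := hQc 2 3
  exact no_proj e Q hQ hQs hQ0 hQf hX hT hS hL

end

end Pool.Agent.MP_ff6aad_an
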