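import Pool.Agent.MP_ff6aad_an.Blocks

set_option autoImplicit false
set_option linter.unusedSectionVars false

open scoped ComplexConjugate InnerProductSpace ENNReal Topology
open Filter

namespace Pool.Agent.MP_ff6aad_an

variable {H : Type*} [NormedAddCommGroup H] [InnerProductSpace ℂ H] [CompleteSpace H]

open MP_5ec4a4_an (onbMap onbMap_apply onbMap_norm shift shift_apply shift_norm hb_ext hb_ext_inner)

variable (e : HilbertBasis Idx ℂ H)

/-- block mass -/
noncomputable def mass (Q : H →L[ℂ] H) (n : ℕ) : ℝ := ∑ j, ‖Q (e ⟨n, j⟩)‖ ^ 2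

theorem mass_nonneg (Q : H →L[ℂ] H) (n : ℕ) : 0 ≤ mass e Q n := by
  unfold mass; positivity

theorem norm_e (α : Idx) : ‖e α‖ = 1 := e.orthonormal.1 α

theorem ofReal_mass (Q : H →L[ℂ] H) (n : ℕ) :
    ENNReal.ofReal (mass e Q n) = ∑ j, ‖Q (e ⟨n, j⟩)‖ₑ ^ 2 := by
  unfold mass
  rw [ENNReal.ofReal_sum_of_nonneg (fun _ _ => by positivity)]
  exact Finset.sum_congr rfl fun j _ => (enorm_sq_eq _).symm

theorem card_block (n : ℕ) : Fintype.card (ZMod (NN n)) = NN n := ZMod.card _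

theorem mass_le_of_norm_le (A : H →L[ℂ] H) {c : ℝ} (hc : ‖A‖ ≤ c) (n : ℕ) :
    mass e A n ≤ c ^ 2 * NN n := by
  unfold mass
  calc ∑ j, ‖A (e ⟨n, j⟩)‖ ^ 2 ≤ ∑ j : ZMod (NN n), c ^ 2 := by
        refine Finset.sum_le_sum fun j _ => ?_
        have h := A.le_opNorm (e ⟨n, j⟩)
        rw [norm_e, mul_one] at h
        exact pow_le_pow_left₀ (norm_nonneg _) (h.trans hc) 2
    _ = c ^ 2 * NN n := by
        rw [Finset.sum_const, Finset.card_univ, card_block]
        simp [mul_comm]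

theorem norm_le_one_of_adj (u : H →L[ℂ] H) (h : ContinuousLinearMap.adjoint u * u = 1) :
    ‖u‖ ≤ 1 := by
  have h1 := (ContinuousLinearMap.norm_map_iff_adjoint_comp_self u).2 h
  exact ContinuousLinearMap.opNorm_le_bound _ zero_le_one fun x => by rw [h1, one_mul]

theorem norm_adj_le_one (u : H →L[ℂ] H) (h : ContinuousLinearMap.adjoint u * u = 1) :
    ‖ContinuousLinearMap.adjoint u‖ ≤ 1 := by
  rw [norm_adjoint']; exact norm_le_one_of_adj u h

theorem norm_cj_sub_le (u Q : H →L[ℂ] H) (h : ContinuousLinearMap.adjoint u * u = 1)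
    (h' : u * ContinuousLinearMap.adjoint u = 1) {c : ℝ} (hc : ‖u * Q - Q * u‖ ≤ c) :
    ‖cj u Q - Q‖ ≤ c := by
  have h1 : cj u Q - Q = (u * Q - Q * u) * ContinuousLinearMap.adjoint u := by
    unfold cj
    rw [sub_mul, mul_assoc Q, h', mul_one]
  rw [h1]
  calc _ ≤ ‖u * Q - Q * u‖ * ‖ContinuousLinearMap.adjoint u‖ := norm_mul_le _ _
    _ ≤ c * 1 := mul_le_mul hc (norm_adj_le_one u h) (norm_nonneg _) ((norm_nonneg _).trans hc)
    _ = c := mul_one c

section proj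

variable (Q : H →L[ℂ] H) (hQ : Q * Q = Q) (hQs : ContinuousLinearMap.adjoint Q = Q)

include hQ hQs in
theorem inner_proj (v : H) : ⟪v, Q v⟫_ℂ = ((‖Q v‖ ^ 2 : ℝ) : ℂ) := by
  have h1 : Q v = Q (Q v) := (congrArg (fun A : H →L[ℂ] H => A v) hQ).symm
  have h2 : ⟪v, Q v⟫_ℂ = ⟪Q v, Q v⟫_ℂ := by
    conv_lhs => rw [h1]
    conv_lhs => rw [← hQs]
    rw [ContinuousLinearMap.adjoint_inner_right, hQs]
  rw [h2, inner_self_eq_norm_sq_to_K]
  norm_cast

include hQ hQs in
theorem norm_proj_le (v : H) : ‖Q v‖ ≤ ‖v‖ := by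
  have h1 := inner_proj Q hQ hQs v
  have h2 : ‖Q v‖ ^ 2 ≤ ‖v‖ * ‖Q v‖ := by
    have h3 := norm_inner_le_norm (𝕜 := ℂ) v (Q v)
    rw [h1, Complex.norm_real, Real.norm_of_nonneg (by positivity)] at h3
    exact h3
  by_cases h : ‖Q v‖ = 0
  · rw [h]; exact norm_nonneg _
  · have h4 : 0 < ‖Q v‖ := lt_of_le_of_ne (norm_nonneg _) (Ne.symm h)
    nlinarith

include hQ hQs in
theorem norm_proj_le_one : ‖Q‖ ≤ 1 :=
  ContinuousLinearMap.opNorm_le_bound _ zero_le_one fun x => by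
    rw [one_mul]; exact norm_proj_le Q hQ hQs x

include hQ hQs in
theorem trace_block (n : ℕ) :
    ‖∑ j, ⟪e ⟨n, j⟩, Q (e ⟨n, j⟩)⟫_ℂ‖ = mass e Q n := by
  simp_rw [inner_proj Q hQ hQs]
  rw [← Complex.ofReal_sum, Complex.norm_real]
  exact Real.norm_of_nonneg (mass_nonneg e Q n)

include hQ hQs in
theorem cj_idem (u : H →L[ℂ] H) (h : ContinuousLinearMap.adjoint u * u = 1) :
    cj u Q * cj u Q = cj u Q := by
  unfold cj
  calc u * Q * ContinuousLinearMap.adjoint u * (u * Q * ContinuousLinearMap.adjoint u)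
      = u * Q * (ContinuousLinearMap.adjoint u * u) * Q * ContinuousLinearMap.adjoint u := by
        simp only [mul_assoc]
    _ = u * (Q * Q) * ContinuousLinearMap.adjoint u := by rw [h, mul_one]; simp only [mul_assoc]
    _ = _ := by rw [hQ]

include hQs in
theorem cj_adj (u : H →L[ℂ] H) :
    ContinuousLinearMap.adjoint (cj u Q) = cj u Q := by
  unfold cj
  rw [adjoint_mul', adjoint_mul', ContinuousLinearMap.adjoint_adjoint, hQs, mul_assoc]

include hQ hQs in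
theorem hsE_cj_le (u : H →L[ℂ] H) (h : ContinuousLinearMap.adjoint u * u = 1) :
    hsE e (cj u Q) ≤ hsE e Q := by
  unfold cj
  calc hsE e (u * Q * ContinuousLinearMap.adjoint u)
      ≤ ENNReal.ofReal (1 ^ 2) * hsE e (u * Q) := hsE_mul_right_le e _ _ (norm_adj_le_one u h)
    _ ≤ ENNReal.ofReal (1 ^ 2) * (ENNReal.ofReal (1 ^ 2) * hsE e Q) := by
        gcongr
        exact hsE_mul_left_le e _ _ (norm_le_one_of_adj u h)
    _ = hsE e Q := by simp

include hQ hQs in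
theorem hsE_delta_le (u : H →L[ℂ] H) (h : ContinuousLinearMap.adjoint u * u = 1)
    {c : ℝ} (hc : ‖cj u Q - Q‖ ≤ c) :
    hsE e (cj u Q - Q) ≤ ENNReal.ofReal (2 * c ^ 2) * hsE e Q := by
  refine (hsE_sub_le e _ _ (cj_idem Q hQ hQs u h) hQ (cj_adj Q hQs u) hc).trans ?_
  calc ENNReal.ofReal (c ^ 2) * (hsE e (cj u Q) + hsE e Q)
      ≤ ENNReal.ofReal (c ^ 2) * (hsE e Q + hsE e Q) := by
        gcongr
        exact hsE_cj_le e Q hQ hQs u h
    _ = ENNReal.ofReal (2 * c ^ 2) * hsE e Q := by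
        rw [ENNReal.ofReal_mul (by norm_num), ← two_mul]
        rw [show ENNReal.ofReal 2 = 2 by simp]
        ring

/-- the local inequality -/
theorem local_ineq (n : ℕ) (A : H →L[ℂ] H) :
    1 / 10000 * mass e A n ≤ 1 / 10000 * (‖∑ j, ⟪e ⟨n, j⟩, A (e ⟨n, j⟩)⟫_ℂ‖ ^ 2 / NN n) +
      (mass e (cj (opX e) A - A) n + mass e (cj (opT e) A - A) n +
        mass e (cj (opS e) A - A) n) := by
  have h := star_ineq e A n
  rw [← ofReal_mass, ← ofReal_mass, ← ofReal_mass, ← ofReal_mass,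
    ← ENNReal.ofReal_add (mass_nonneg _ _ _) (mass_nonneg _ _ _),
    ← ENNReal.ofReal_add (add_nonneg (mass_nonneg _ _ _) (mass_nonneg _ _ _)) (mass_nonneg _ _ _),
    ← ENNReal.ofReal_mul (by norm_num), ← ENNReal.ofReal_add (by positivity)
      (add_nonneg (add_nonneg (mass_nonneg _ _ _) (mass_nonneg _ _ _)) (mass_nonneg _ _ _)),
    ENNReal.ofReal_le_ofReal_iff (add_nonneg (by positivity)
      (add_nonneg (add_nonneg (mass_nonneg _ _ _) (mass_nonneg _ _ _)) (mass_nonneg _ _ _)))] at h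
  exact h

include hQ hQs in
/-- each block is nearly empty or nearly full -/
theorem dichotomy (hX : ‖opX e * Q - Q * opX e‖ ≤ 1 / 1000)
    (hT : ‖opT e * Q - Q * opT e‖ ≤ 1 / 1000) (hS : ‖opS e * Q - Q * opS e‖ ≤ 1 / 1000) (n : ℕ) :
    mass e Q n < 1 / 10 * NN n ∨ 9 / 10 * NN n < mass e Q n := by
  have hN : (0 : ℝ) < NN n := by exact_mod_cast Nat.pos_of_ne_zero (NeZero.ne (NN n))
  have h := local_ineq e n Q
  rw [trace_block e Q hQ hQs] at h
  have h1 := mass_le_of_norm_le e _ (norm_cj_sub_le _ Q (isoX e) (coX e) hX) n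
  have h2 := mass_le_of_norm_le e _ (norm_cj_sub_le _ Q (isoT e) (coT e) hT) n
  have h3 := mass_le_of_norm_le e _ (norm_cj_sub_le _ Q (isoS e) (coS e) hS) n
  set t := mass e Q n with ht
  set N : ℝ := (NN n : ℝ) with hNdef
  have h4 : 1 / 10000 * t ≤ 1 / 10000 * (t ^ 2 / N) + 3 / 1000000 * N := by
    have : (1 / 1000 : ℝ) ^ 2 * N = 1 / 1000000 * N := by norm_num
    rw [this] at h1 h2 h3
    linarith
  have h5 : t ^ 2 / N * N = t ^ 2 := by field_simp
  have h6 : t * N ≤ t ^ 2 + 3 / 100 * N ^ 2 := by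
    have := mul_le_mul_of_nonneg_right h4 hN.le
    nlinarith
  by_contra hcon
  push Not at hcon
  obtain ⟨ha, hb⟩ := hcon
  nlinarith [mul_nonneg (sub_nonneg.2 ha) (sub_nonneg.2 hb)]

include hQ hQs in
theorem link_ineq (hL : ‖opL e * Q - Q * opL e‖ ≤ 1 / 1000) (n : ℕ) :
    mass e Q n - 1 / 500 * NN n ≤ mass e Q (n + 1) := by
  have hpt : ∀ j : ZMod (NN n), ‖Q (e ⟨n, j⟩)‖ ^ 2 - 1 / 500 ≤
      ‖Q (e ⟨n + 1, (j.val : ZMod (NN (n + 1)))⟩)‖ ^ 2 := by
    intro j
    rw [← opL_apply e n j]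
    have h1 : ‖Q (e ⟨n, j⟩)‖ ≤ 1 := by
      have := norm_proj_le Q hQ hQs (e ⟨n, j⟩); rwa [norm_e] at this
    have h2 : ‖Q (opL e (e ⟨n, j⟩))‖ ≤ 1 := by
      have := norm_proj_le Q hQ hQs (opL e (e ⟨n, j⟩)); rwa [opL_apply, norm_e, ← opL_apply] at this
    have h3 : ‖opL e (Q (e ⟨n, j⟩))‖ = ‖Q (e ⟨n, j⟩)‖ := shift_norm _ _ _ _ _
    have h4 : ‖(opL e * Q - Q * opL e) (e ⟨n, j⟩)‖ ≤ 1 / 1000 := by
      have := (opL e * Q - Q * opL e).le_opNorm (e ⟨n, j⟩)
      rw [norm_e, mul_one] at this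
      exact this.trans hL
    have h5 : ‖opL e (Q (e ⟨n, j⟩))‖ ≤ ‖(opL e * Q - Q * opL e) (e ⟨n, j⟩)‖ +
        ‖Q (opL e (e ⟨n, j⟩))‖ := by
      have : opL e (Q (e ⟨n, j⟩)) = (opL e * Q - Q * opL e) (e ⟨n, j⟩) +
          Q (opL e (e ⟨n, j⟩)) := by
        simp
      conv_lhs => rw [this]
      exact norm_add_le _ _
    rw [h3] at h5
    nlinarith [norm_nonneg (Q (e ⟨n, j⟩)), norm_nonneg (Q (opL e (e ⟨n, j⟩)))]
  have hinj : Function.Injective (fun j : ZMod (NN n) => (j.val : ZMod (NN (n + 1)))) := by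
    intro j k hjk
    have := @inj_s ⟨n, j⟩ ⟨n, k⟩ (by simpa using hjk)
    simpa using this
  calc mass e Q n - 1 / 500 * NN n = ∑ j : ZMod (NN n), (‖Q (e ⟨n, j⟩)‖ ^ 2 - 1 / 500) := by
        rw [Finset.sum_sub_distrib, Finset.sum_const, Finset.card_univ, card_block]
        unfold mass
        simp [mul_comm]
    _ ≤ ∑ j : ZMod (NN n), ‖Q (e ⟨n + 1, (j.val : ZMod (NN (n + 1)))⟩)‖ ^ 2 :=
        Finset.sum_le_sum fun j _ => hpt j
    _ = ∑ k ∈ Finset.univ.image (fun j : ZMod (NN n) => (j.val : ZMod (NN (n + 1)))),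
          ‖Q (e ⟨n + 1, k⟩)‖ ^ 2 := by
        rw [Finset.sum_image (fun a _ b _ h => hinj h)]
    _ ≤ mass e Q (n + 1) := by
        unfold mass
        exact Finset.sum_le_sum_of_subset_of_nonneg (Finset.subset_univ _)
          (fun _ _ _ => by positivity)

end proj

/-- No nonzero finite-rank projection almost commutes with the four generators. -/
theorem no_proj (Q : H →L[ℂ] H) (hQ : Q * Q = Q) (hQs : ContinuousLinearMap.adjoint Q = Q)
    (hQ0 : Q ≠ 0) (hf : FiniteDimensional ℂ (LinearMap.range (Q : H →ₗ[ℂ] H)))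
    (hX : ‖opX e * Q - Q * opX e‖ ≤ 1 / 1000)
    (hT : ‖opT e * Q - Q * opT e‖ ≤ 1 / 1000) (hS : ‖opS e * Q - Q * opS e‖ ≤ 1 / 1000)
    (hL : ‖opL e * Q - Q * opL e‖ ≤ 1 / 1000) : False := by
  have hfin := hsE_ne_top e Q hQs hf
  have hne : hsE e Q ≠ 0 := fun h => hQ0 (hsE_eq_zero e Q h)
  have hsum : hsE e Q = ∑' n, ENNReal.ofReal (mass e Q n) := by
    rw [hsE_eq_tsum]
    exact tsum_congr fun n => (ofReal_mass e Q n).symm
  -- all blocks are nearly empty
  have hsmall : ∀ n, mass e Q n < 1 / 10 * NN n := by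
    by_contra hcon
    push Not at hcon
    obtain ⟨n₀, hn₀⟩ := hcon
    have hbig : ∀ k, 9 / 10 * (NN (n₀ + k) : ℝ) < mass e Q (n₀ + k) := by
      intro k
      induction k with
      | zero =>
        rcases dichotomy e Q hQ hQs hX hT hS n₀ with h | h
        · exact absurd h (not_lt.2 hn₀)
        · exact h
      | succ k ih =>
        rcases dichotomy e Q hQ hQs hX hT hS (n₀ + (k + 1)) with h | h
        · exfalso
          have h1 := link_ineq e Q hQ hQs hL (n₀ + k)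
          rw [show n₀ + (k + 1) = n₀ + k + 1 by ring] at h
          have h2 : (NN (n₀ + k + 1) : ℝ) = NN (n₀ + k) + 2 := by
            unfold NN; push_cast; ring
          have h3 : (3 : ℝ) ≤ NN (n₀ + k) := by
            unfold NN; push_cast; linarith [Nat.cast_nonneg (α := ℝ) n₀, Nat.cast_nonneg (α := ℝ) k]
          rw [h2] at h
          linarith
        · exact h
    have ht : Tendsto (fun n => ENNReal.ofReal (mass e Q n)) atTop (𝓝 0) :=
      ENNReal.tendsto_atTop_zero_of_tsum_ne_top (by rw [← hsum]; exact hfin)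
    have h1 := (ENNReal.tendsto_atTop_zero.1 ht) 1 one_pos
    obtain ⟨M, hM⟩ := h1
    have h2 := hM (n₀ + M) (by omega)
    rw [← ENNReal.ofReal_one, ENNReal.ofReal_le_ofReal_iff zero_le_one] at h2
    have h3 : (3 : ℝ) ≤ NN (n₀ + M) := by
      unfold NN; push_cast; linarith [Nat.cast_nonneg (α := ℝ) n₀, Nat.cast_nonneg (α := ℝ) M]
    have := hbig M
    linarith
  -- compare Hilbert-Schmidt norms
  have hn : ∀ n, ENNReal.ofReal (9 / 100000) * ENNReal.ofReal (mass e Q n) ≤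
      ENNReal.ofReal (mass e (cj (opX e) Q - Q) n) + ENNReal.ofReal (mass e (cj (opT e) Q - Q) n) +
        ENNReal.ofReal (mass e (cj (opS e) Q - Q) n) := by
    intro n
    have hN : (0 : ℝ) < NN n := by exact_mod_cast Nat.pos_of_ne_zero (NeZero.ne (NN n))
    have h := local_ineq e n Q
    rw [trace_block e Q hQ hQs] at h
    rw [← ENNReal.ofReal_add (mass_nonneg _ _ _) (mass_nonneg _ _ _),
      ← ENNReal.ofReal_add (add_nonneg (mass_nonneg _ _ _) (mass_nonneg _ _ _)) (mass_nonneg _ _ _),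
      ← ENNReal.ofReal_mul (by norm_num)]
    apply ENNReal.ofReal_le_ofReal
    have h1 : mass e Q n ^ 2 / NN n ≤ 1 / 10 * mass e Q n := by
      rw [div_le_iff₀ hN]
      nlinarith [hsmall n, mass_nonneg e Q n]
    linarith
  have htot : ENNReal.ofReal (9 / 100000) * hsE e Q ≤
      hsE e (cj (opX e) Q - Q) + hsE e (cj (opT e) Q - Q) + hsE e (cj (opS e) Q - Q) := by
    rw [hsum, hsE_eq_tsum, hsE_eq_tsum, hsE_eq_tsum, ← ENNReal.tsum_mul_left,
      ← ENNReal.tsum_add, ← ENNReal.tsum_add]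
    refine ENNReal.tsum_le_tsum fun n => ?_
    rw [← ofReal_mass, ← ofReal_mass, ← ofReal_mass]
    exact hn n
  have hb1 := hsE_delta_le e Q hQ hQs _ (isoX e) (norm_cj_sub_le _ Q (isoX e) (coX e) hX)
  have hb2 := hsE_delta_le e Q hQ hQs _ (isoT e) (norm_cj_sub_le _ Q (isoT e) (coT e) hT)
  have hb3 := hsE_delta_le e Q hQ hQs _ (isoS e) (norm_cj_sub_le _ Q (isoS e) (coS e) hS)
  have hfinal : ENNReal.ofReal (9 / 100000) * hsE e Q ≤
      ENNReal.ofReal (6 / 1000000) * hsE e Q := by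
    refine htot.trans ((add_le_add (add_le_add hb1 hb2) hb3).trans (le_of_eq ?_))
    rw [← add_mul, ← add_mul, ← ENNReal.ofReal_add (by positivity) (by positivity),
      ← ENNReal.ofReal_add (by positivity) (by positivity)]
    norm_num
  have h1 : ENNReal.ofReal (9 / 100000) ≤ ENNReal.ofReal (6 / 1000000) :=
    (ENNReal.mul_le_mul_iff_left hne hfin).1 hfinal
  rw [ENNReal.ofReal_le_ofReal_iff (by norm_num)] at h1
  norm_num at h1

end Pool.Agent.MP_ff6aad_an
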